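import Pool.Agent.Lib.MP_b6f35e_al.Z0.Defs
import Pool.Agent.Lib.MP_b6f35e_al.ZK.Spec
import Pool.Agent.Lib.MP_b6f35e_al.W2.Trace

/-!
# Specification of the modules of Z0: degree zero, `K_0(ℤ[G])` (MP_b6f35e_al)

Goal (`SpecFinal0`).  FRO is done (`Z0/FRO.lean`, `specFRO`).
-/

set_option autoImplicit false

noncomputable section

namespace Pool.Agent.Lib.MPb6f35e.Z0

open Pool.Agent.Lib.MPb6f35e.WH (FinSub conjHom K1)
open Pool.Agent.Lib.MPb6f35e.ZK
open Pool.Agent.Lib.MPb6f35e.W2 (IsCoc DK)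

universe u v w

/-! ### `K_0(A[t, t⁻¹])` modulo constants -/

/-- The classes of constants in `K_0(A[t, t⁻¹])`: the image of `x ↦ x(1)`. -/
def cSub (A : Type u) [Ring A] : AddSubgroup (K0 (Lau A)) := (K0.map (c1 A)).range

/-- `K_0(A[t, t⁻¹]) / K_0(A)` -/
def Kc (A : Type u) [Ring A] : Type u := K0 (Lau A) ⧸ cSub A

instance (A : Type u) [Ring A] : AddCommGroup (Kc A) :=
  QuotientAddGroup.Quotient.addCommGroup (cSub A)

/-- The quotient map. -/
def Kc.mk (A : Type u) [Ring A] : K0 (Lau A) →+ Kc A := QuotientAddGroup.mk' (cSub A)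

lemma map_cSub {A : Type u} {B : Type u} [Ring A] [Ring B] (f : A →+* B) (x : K0 (Lau A))
    (hx : x ∈ cSub A) : K0.map (lauMap f) x ∈ cSub B := by
  obtain ⟨y, rfl⟩ := hx
  refine ⟨K0.map (lauMap f) y, ?_⟩
  rw [K0.map_comp, K0.map_comp]
  congr 1
  congr 1
  refine RingHom.ext fun a => ?_
  induction a using AddMonoidAlgebra.induction_linear with
  | zero => simp
  | add a b ha hb => simp only [map_add, ha, hb]
  | single j a =>
    show c1 B (lauMap f (AddMonoidAlgebra.single j a)) =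
      lauMap f (c1 A (AddMonoidAlgebra.single j a))
    simp only [lauMap, c1, AddMonoidAlgebra.mapRingHom_single,
      AddMonoidAlgebra.mapDomainRingHom_apply, AddMonoidAlgebra.mapDomain_single]

/-- Functoriality. -/
def Kc.map {A : Type u} {B : Type u} [Ring A] [Ring B] (f : A →+* B) : Kc A →+ Kc B :=
  QuotientAddGroup.map (cSub A) (cSub B) (K0.map (lauMap f)) (fun x hx => map_cSub f x hx)

@[simp] lemma Kc.map_mk {A : Type u} {B : Type u} [Ring A] [Ring B] (f : A →+* B)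
    (x : K0 (Lau A)) : Kc.map f (Kc.mk A x) = Kc.mk B (K0.map (lauMap f) x) := rfl

lemma Kc.mk_surjective (A : Type u) [Ring A] : Function.Surjective (Kc.mk A) :=
  QuotientAddGroup.mk'_surjective _

/-- The classes of constants vanish. -/
lemma Kc.mk_c1 (A : Type u) [Ring A] (x : K0 (Lau A)) : Kc.mk A (K0.map (c1 A) x) = 0 :=
  (QuotientAddGroup.eq_zero_iff _).2 ⟨x, rfl⟩

/-! ### module GENC: as GEN, modulo constants only -/

/-- GENC -/
def SpecGENC : Prop :=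
  ∀ (C : Type u) [CommGroup C] [Finite C] (S : Finset Nat.Primes)
    (_ : ∀ p : Nat.Primes, (p : ℕ) ∣ Nat.card C → p ∈ S)
    (d : K1 (Lau (MonoidAlgebra (Qp S) C)) →+ K0 (Lau (MonoidAlgebra ℤ C)))
    (_ : IsBd (padSq S C) d) (x : Kc (MonoidAlgebra ℤ C)),
    ∃ (m : ℕ) (_ : 0 < m) (a : ℕ) (ε : Fin a → ℤ) (f : Fin a → MonoidAlgebra (Qp S) C)
      (hf : ∀ j, f j * f j = f j),
      m • x = ∑ j, ε j • Kc.mk (MonoidAlgebra ℤ C) (d (K1.unit (btU (f j) (hf j))))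

/-! ### module ARTC: as ART, modulo constants only -/

/-- ARTC -/
def SpecARTC : Prop :=
  ∀ (H : Type u) [Group H] [Finite H] (x : Kc (MonoidAlgebra ℤ H)),
    ∃ (m : ℕ) (_ : 0 < m) (a : ℕ) (C : Fin a → Subgroup H) (_ : ∀ i, IsCyclic (C i))
      (y : ∀ i, Kc (MonoidAlgebra ℤ (C i))),
      m • x = ∑ i, Kc.map (MonoidAlgebra.mapDomainRingHom ℤ (C i).subtype) (y i)

/-! ### module SEC: `K_{-1}` and `K_0(ℤ[H][t, t⁻¹])` modulo constants agree up to torsion -/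

/-- SEC -/
def SpecSEC : Prop :=
  ∀ (H : Type u) [Group H] [Finite H] (x : K0 (Lau (MonoidAlgebra ℤ H))),
    Km1.mk (MonoidAlgebra ℤ H) x = 0 → IsOfFinAddOrder (Kc.mk (MonoidAlgebra ℤ H) x)

/-! ### module EXA: exactness of the Mayer-Vietoris sequence at `K_1(A₀)` -/

/-- EXA -/
def SpecEXA : Prop :=
  ∀ (A A₁ A₂ A₀ : Type u) [Ring A] [Ring A₁] [Ring A₂] [Ring A₀]
    (m : SqMaps A A₁ A₂ A₀) (_ : IsSq m) (d : K1 A₀ →+ K0 A) (_ : IsBd m d) (y : K1 A₀),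
    d y = 0 → ∃ (y₁ : K1 A₁) (y₂ : K1 A₂), y = K1.map m.j₁ y₁ + K1.map m.j₂ y₂

/-! ### module DET0: detection -/

/-- constants `A → A[t, t⁻¹]` -/
def cst (A : Type u) [Ring A] : A →+* Lau A := AddMonoidAlgebra.singleZeroRingHom

/-- The component at `p ∈ S`. -/
def prp (S : Finset Nat.Primes) (G : Type u) [Group G] (p : S) :
    MonoidAlgebra (Qp S) G →+* MonoidAlgebra ℚ_[((p : Nat.Primes) : ℕ)] G :=
  MonoidAlgebra.mapRingHom G (Pi.evalRingHom _ p)

/-- DET0: if the boundary of `y ∈ K_1(∏ ℚ_p[G])` is torsion in `K_0(ℤ[G][t, t⁻¹])` there are `m > 0`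
and `B ∈ K_1(ℚ[G])` such that `m D_θ(y)_p = D_θ(B)` for every rational cocycle `θ` which is
supported on elements of finite order divisible by `p` and integral at `p`. -/
def SpecDET0 : Prop :=
  ∀ (S : Finset Nat.Primes) (G : Type u) [Group G]
    (d : K1 (Lau (MonoidAlgebra (Qp S) G)) →+ K0 (Lau (MonoidAlgebra ℤ G)))
    (_ : IsBd (padSq S G) d) (y : K1 (MonoidAlgebra (Qp S) G))
    (_ : IsOfFinAddOrder (d (K1.map (cst _) y))),
    ∃ (m : ℕ) (_ : 0 < m) (B : K1 (MonoidAlgebra ℚ G)), ∀ (θ : G → G → ℚ) (hθ : IsCoc θ) (p : S)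
      (hθp : IsCoc fun a h => ((θ a h : ℚ) : ℚ_[((p : Nat.Primes) : ℕ)]))
      (_ : ∀ a h, θ a h ≠ 0 → IsOfFinOrder h ∧ ((p : Nat.Primes) : ℕ) ∣ orderOf h)
      (_ : ∀ a h, ¬ ((p : Nat.Primes) : ℕ) ∣ (θ a h).den),
      m • DK hθp (K1.map (prp S G p) y) = ((DK hθ B : ℚ) : ℚ_[((p : Nat.Primes) : ℕ)])

/-! ### module LIN0: linear algebra -/

/-- LIN0 -/
def SpecLIN0 : Prop :=
  ∀ (S : Finset Nat.Primes) (G : Type u) [Group G]
    (Θ : ∀ (C : Type u) [CommGroup C] [Finite C] (_ : C →* G) (_ : G),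
      RV (MonoidAlgebra (Qp S) C) →ₗ[ℚ] ℚ)
    -- naturality
    (_ : ∀ (C C' : Type u) [CommGroup C] [Finite C] [CommGroup C'] [Finite C'] (φ : C →* G)
      (φ' : C' →* G) (f : C →* C') (g : G) (_ : ∀ c, φ' (f c) = g * φ c * g⁻¹)
      (_ : Function.Injective φ) (_ : Function.Injective φ')
      (_ : ∀ p : Nat.Primes, (p : ℕ) ∣ Nat.card C' → p ∈ S) (z : G)
      (_ : ∀ c, z * φ' c = φ' c * z) (b : RV (MonoidAlgebra (Qp S) C))
      (b' : RV (MonoidAlgebra (Qp S) C')) (_ : (b' : MonoidAlgebra (Qp S) C') =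
        MonoidAlgebra.mapDomainRingHom (Qp S) f (b : MonoidAlgebra (Qp S) C)),
      Θ C' φ' z b' = Θ C φ (g⁻¹ * z * g) b)
    -- additivity in `z`
    (_ : ∀ (C : Type u) [CommGroup C] [Finite C] (φ : C →* G) (_ : Function.Injective φ)
      (_ : ∀ p : Nat.Primes, (p : ℕ) ∣ Nat.card C → p ∈ S) (z z' : G)
      (_ : ∀ c, z * φ c = φ c * z) (_ : ∀ c, z' * φ c = φ c * z')
      (b : RV (MonoidAlgebra (Qp S) C)), Θ C φ (z * z') b = Θ C φ z b + Θ C φ z' b)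
    -- rational elements
    (_ : ∀ (C : Type u) [CommGroup C] [Finite C] (φ : C →* G) (_ : Function.Injective φ)
      (_ : ∀ p : Nat.Primes, (p : ℕ) ∣ Nat.card C → p ∈ S) (z : G)
      (_ : ∀ c, z * φ c = φ c * z) (r : MonoidAlgebra ℚ C) (_ : r ∈ RV (MonoidAlgebra ℚ C))
      (b : RV (MonoidAlgebra (Qp S) C)) (_ : (b : MonoidAlgebra (Qp S) C) =
        MonoidAlgebra.mapRingHom C (algebraMap ℚ (Qp S)) r), Θ C φ z b = 0)
    -- elements vanishing at all p dividing the order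
    (_ : ∀ (C : Type u) [CommGroup C] [Finite C] (φ : C →* G) (_ : Function.Injective φ)
      (_ : ∀ p : Nat.Primes, (p : ℕ) ∣ Nat.card C → p ∈ S) (z : G)
      (_ : ∀ c, z * φ c = φ c * z) (b : RV (MonoidAlgebra (Qp S) C))
      (_ : ∀ (p : S) (_ : ((p : Nat.Primes) : ℕ) ∣ Nat.card C) (c : C),
        (b : MonoidAlgebra (Qp S) C).coeff c p = 0), Θ C φ z b = 0)
    -- divisible elements
    (_ : ∀ (C : Type u) [CommGroup C] [Finite C] (φ : C →* G) (_ : Function.Injective φ)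
      (_ : ∀ p : Nat.Primes, (p : ℕ) ∣ Nat.card C → p ∈ S) (_ : IsCyclic C)
      (_ : ¬ IsPrimePow (Nat.card C)) (p : ℕ) (_ : p.Prime) (_ : p ∣ Nat.card C) (z : G)
      (_ : ∀ c, z * φ c = φ c * z) (_ : PKill φ.range p z)
      (b : RV (MonoidAlgebra (Qp S) C)), Θ C φ z b = 0)
    (m : ℕ) (C : Fin m → Type u) [∀ i, CommGroup (C i)] [∀ i, Fintype (C i)]
    (φ : ∀ i, C i →* G) (_ : ∀ i, Function.Injective (φ i))
    (_ : ∀ i, ∀ p : Nat.Primes, (p : ℕ) ∣ Nat.card (C i) → p ∈ S)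
    (z : Fin m → G) (_ : ∀ i c, z i * φ i c = φ i c * z i)
    (b : ∀ i, RV (MonoidAlgebra (Qp S) (C i)))
    -- the values against cocycles supported on elements of order divisible by `p`
    (L : (G × G) →₀ ℚ)
    (_ : ∀ (θ : G → G → ℚ) (_ : IsCoc θ) (p : S)
      (_ : ∀ a h, θ a h ≠ 0 → IsOfFinOrder h ∧ ((p : Nat.Primes) : ℕ) ∣ orderOf h)
      (_ : ∀ a h, ¬ ((p : Nat.Primes) : ℕ) ∣ (θ a h).den),
        ∑ i, ∑ c : C i, (b i : MonoidAlgebra (Qp S) (C i)).coeff c p *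
          ((θ (z i) (φ i c) : ℚ) : ℚ_[((p : Nat.Primes) : ℕ)]) =
          ((L.sum fun q r => r * θ q.1 q.2 : ℚ) : ℚ_[((p : Nat.Primes) : ℕ)])),
    ∑ i, Θ (C i) (φ i) (z i) (b i) = 0

/-! ### the theorem -/

/-- The theorem: the relations of `S0 G` hold in `K_0(ℤ[G])` up to torsion, and up to the elements
of `DSub G` no others; moreover `[ℤ[G]]` is independent of the image. -/
structure SpecFinal0 : Prop where
  wd : ∀ (G : Type u) [Group G] (a : FreeAbelianGroup (Lft G)),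
    IsOfFinAddOrder (FreeAbelianGroup.lift Lft.src a) →
      IsOfFinAddOrder (FreeAbelianGroup.lift Lft.img a)
  inj : ∀ (G : Type u) [Group G] (m : ℤ) (a : FreeAbelianGroup (Lft G)),
    IsOfFinAddOrder (m • K0.one (MonoidAlgebra ℤ G) + FreeAbelianGroup.lift Lft.img a) →
      m = 0 ∧ ∃ k : ℕ, 0 < k ∧ k • FreeAbelianGroup.lift Lft.src a ∈ DSub G
  tor : ∀ (G : Type u) [Group G] (_ : Cond G) (x : S0 G), x ∈ DSub G → IsOfFinAddOrder x

end Pool.Agent.Lib.MPb6f35e.Z0
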