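import Pool.Agent.Lib.MP_b6f35e_al.Z0.FroC
import Pool.Agent.Lib.MP_b6f35e_al.ZK.RNK

/-!
# Cocycles on torsion classes vanish on `K_1(ℤ_p[G])` at `p` (MP_b6f35e_al, Z0)

If `θ : G × G → ℤ_p` is a cocycle of the conjugation groupoid, supported on elements of finite
order divisible by `p`, then the Dennis trace `D_θ : K_1(ℤ_p[G]) → ℤ_p` is zero.
-/

set_option autoImplicit false
set_option linter.unusedSectionVars false

noncomputable section

namespace Pool.Agent.Lib.MPb6f35e.Z0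

open Function
open Pool.Agent.Lib.MPb6f35e.WH
open Pool.Agent.Lib.MPb6f35e.W2 (IsCoc bil bil_single mb)

universe u v w

namespace Fro

variable {k : Type u} [CommRing k] {G : Type v} [Group G]

lemma coc_pow {θ : G → G → k} (hθ : IsCoc θ) {y h : G} (hc : y * h = h * y) (n : ℕ) :
    θ (y ^ n) h = n * θ y h := by
  induction n with
  | zero => simp [W2.coc_one hθ]
  | succ n ih =>
    have e : y * h * y⁻¹ = h := by rw [hc, mul_inv_cancel_right]
    rw [pow_succ, hθ, e, ih]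
    push_cast
    ring

lemma coc_fin {θ : G → G → k} (hθ : IsCoc θ) (hk : ∀ (n : ℕ) (c : k), n ≠ 0 → (n : k) * c = 0 → c = 0)
    {y h : G} (hc : y * h = h * y) (hy : IsOfFinOrder y) : θ y h = 0 := by
  have h1 := coc_pow hθ hc (orderOf y)
  rw [pow_orderOf_eq_one, W2.coc_one hθ] at h1
  exact hk _ _ (orderOf_pos_iff.2 hy).ne' h1.symm

lemma ph_coc {θ : G → G → k} (hθ : IsCoc θ) (p : ℕ) : IsCoc (Ph p θ) := by
  intro a b h
  show θ (a * b) (h ^ p) = θ a ((b * h * b⁻¹) ^ p) + θ b (h ^ p)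
  rw [conj_pow]
  exact hθ a b (h ^ p)

lemma ph_fin {θ : G → G → k} (h : ∀ a y, θ a y ≠ 0 → IsOfFinOrder y) {p : ℕ} (hp : p ≠ 0) :
    ∀ a y, Ph p θ a y ≠ 0 → IsOfFinOrder y := by
  intro a y hne
  exact (isOfFinOrder_pow.1 (h a (y ^ p) hne)).resolve_right hp

lemma self_zero {θ : G → G → k} (hθ : IsCoc θ)
    (hk : ∀ (n : ℕ) (c : k), n ≠ 0 → (n : k) * c = 0 → c = 0)
    (h : ∀ a y, θ a y ≠ 0 → IsOfFinOrder y) (y : G) : θ y y = 0 := by
  by_contra hne
  exact hne (coc_fin hθ hk rfl (h _ _ hne))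

/-- Frobenius invariance of the Dennis trace against a cocycle on torsion classes, over `ℤ_p`. -/
theorem frob (p : ℕ) [Fact p.Prime] {θ : G → G → ℤ_[p]} (hθ : IsCoc θ)
    (h : ∀ a y, θ a y ≠ 0 → IsOfFinOrder y) {ι : Type} [Fintype ι] [DecidableEq ι]
    {a b : Matrix ι ι (MonoidAlgebra ℤ_[p] G)} (hab : a * b = 1) (hba : b * a = 1) :
    mb (W2.cf θ) a b = mb (W2.cf (Ph p θ)) a b := by
  have hk0 : ∀ (n : ℕ) (c : ℤ_[p]), n ≠ 0 → (n : ℤ_[p]) * c = 0 → c = 0 := by
    intro n c hn hc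
    exact (mul_eq_zero.1 hc).resolve_left (Nat.cast_ne_zero.2 hn)
  rw [← sub_eq_zero]
  refine ZK.RNKMod.inf_div p _ fun e => ?_
  exact main_cong p e (ZK.RNKMod.hk p)
    (fun c hc => hk0 p c (Fact.out : p.Prime).ne_zero hc) hθ (self_zero hθ hk0 h) hab hba

/-- iterates -/
lemma ph_iter (p : ℕ) (θ : G → G → k) (m : ℕ) : (Ph p)^[m] θ = fun g h => θ g (h ^ p ^ m) := by
  induction m with
  | zero => funext g h; simp
  | succ m ih =>
    rw [iterate_succ_apply', ih]
    funext g h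
    show θ g ((h ^ p) ^ p ^ m) = _
    rw [← pow_mul, pow_succ']

theorem frob_iter (p : ℕ) [Fact p.Prime] {θ : G → G → ℤ_[p]} (hθ : IsCoc θ)
    (h : ∀ a y, θ a y ≠ 0 → IsOfFinOrder y) {ι : Type} [Fintype ι] [DecidableEq ι]
    {a b : Matrix ι ι (MonoidAlgebra ℤ_[p] G)} (hab : a * b = 1) (hba : b * a = 1) (m : ℕ) :
    mb (W2.cf θ) a b = mb (W2.cf ((Ph p)^[m] θ)) a b := by
  have key : ∀ m, IsCoc ((Ph p)^[m] θ) ∧ (∀ a y, (Ph p)^[m] θ a y ≠ 0 → IsOfFinOrder y) ∧
      mb (W2.cf θ) a b = mb (W2.cf ((Ph p)^[m] θ)) a b := by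
    intro m
    induction m with
    | zero => exact ⟨hθ, h, rfl⟩
    | succ m ih =>
      obtain ⟨h1, h2, h3⟩ := ih
      rw [iterate_succ_apply']
      exact ⟨ph_coc h1 p, ph_fin h2 (Fact.out : p.Prime).ne_zero, h3.trans (frob p h1 h2 hab hba)⟩
  exact (key m).2.2

lemma bil_zero {c : G → G → k} {a b : MonoidAlgebra k G}
    (h : ∀ x ∈ a.coeff.support, ∀ y ∈ b.coeff.support, c x y = 0) : bil c a b = 0 := by
  classical
  have ea : a = ∑ x ∈ a.coeff.support, MonoidAlgebra.single x (a.coeff x) := Neck.self_sum a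
  have eb : b = ∑ x ∈ b.coeff.support, MonoidAlgebra.single x (b.coeff x) := Neck.self_sum b
  rw [eb, map_sum]
  refine Finset.sum_eq_zero fun y hy => ?_
  rw [ea, map_sum, AddMonoidHom.finsetSum_apply]
  refine Finset.sum_eq_zero fun x hx => ?_
  rw [bil_single, h x hx y hy, mul_zero]

lemma pow_eventually (p : ℕ) (hp : p.Prime) (y : G) :
    ∃ m : ℕ, ∀ m' ≥ m, ¬ (IsOfFinOrder (y ^ p ^ m') ∧ p ∣ orderOf (y ^ p ^ m')) := by
  by_cases hy : IsOfFinOrder y
  · refine ⟨orderOf y, fun m' hm' => ?_⟩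
    rintro ⟨-, h2⟩
    have hpos := orderOf_pos_iff.2 hy
    rw [orderOf_pow' y (pow_ne_zero _ hp.ne_zero)] at h2
    obtain ⟨s, t, ht, hst⟩ := Nat.exists_eq_pow_mul_and_not_dvd hpos.ne' p hp.ne_one
    have hs : s ≤ m' := by
      have h3 : s < p ^ s := Nat.lt_pow_self hp.one_lt
      have h4 : p ^ s ≤ orderOf y := Nat.le_of_dvd hpos ⟨t, hst⟩
      omega
    have h5 : (orderOf y).gcd (p ^ m') = p ^ s := by
      rw [hst]
      apply Nat.dvd_antisymm
      · have h6 : Nat.Coprime t (p ^ m') := by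
          apply Nat.Coprime.pow_right
          exact ((Nat.Prime.coprime_iff_not_dvd hp).2 ht).symm
        have h7 : (p ^ s * t).gcd (p ^ m') ∣ p ^ s * t := Nat.gcd_dvd_left _ _
        refine Nat.Coprime.dvd_of_dvd_mul_right ?_ h7
        exact (h6.coprime_dvd_right (Nat.gcd_dvd_right _ _)).symm
      · exact Nat.dvd_gcd (Dvd.intro _ rfl) (pow_dvd_pow p hs)
    rw [h5, hst, Nat.mul_div_cancel_left _ (pow_pos hp.pos s)] at h2
    exact ht h2
  · refine ⟨0, fun m' _ => ?_⟩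
    rintro ⟨h1, -⟩
    exact hy ((isOfFinOrder_pow.1 h1).resolve_right (pow_ne_zero _ hp.ne_zero))

/-- The Dennis trace against a cocycle with values in `ℤ_p` which is supported on elements of finite
order divisible by `p` vanishes on invertible matrices over `ℤ_p[G]`. -/
theorem mb_van (p : ℕ) [Fact p.Prime] {θ : G → G → ℤ_[p]} (hθ : IsCoc θ)
    (h : ∀ a y, θ a y ≠ 0 → IsOfFinOrder y ∧ p ∣ orderOf y) {ι : Type} [Fintype ι] [DecidableEq ι]
    {a b : Matrix ι ι (MonoidAlgebra ℤ_[p] G)} (hab : a * b = 1) (hba : b * a = 1) :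
    mb (W2.cf θ) a b = 0 := by
  classical
  choose m hm using fun y : G => pow_eventually (G := G) p Fact.out y
  -- a bound for all products
  let M : ℕ := Finset.univ.sup fun ij : ι × ι => (a ij.1 ij.2).coeff.support.sup fun x =>
    (b ij.2 ij.1).coeff.support.sup fun y => m (x * y)
  rw [frob_iter p hθ (fun a y hne => (h a y hne).1) hab hba M, ph_iter]
  unfold mb
  refine Finset.sum_eq_zero fun i _ => Finset.sum_eq_zero fun j _ => ?_
  apply bil_zero
  intro x hx y hy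
  show θ y ((x * y) ^ p ^ M) = 0
  by_contra hne
  refine hm (x * y) M ?_ (h _ _ hne)
  calc m (x * y) ≤ (b j i).coeff.support.sup fun y => m (x * y) :=
        Finset.le_sup (f := fun y => m (x * y)) hy
    _ ≤ (a i j).coeff.support.sup fun x => (b j i).coeff.support.sup fun y => m (x * y) :=
        Finset.le_sup (f := fun x => (b j i).coeff.support.sup fun y => m (x * y)) hx
    _ ≤ M := Finset.le_sup (f := fun ij : ι × ι => (a ij.1 ij.2).coeff.support.sup fun x =>
        (b ij.2 ij.1).coeff.support.sup fun y => m (x * y)) (Finset.mem_univ (i, j))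

end Fro

/-- Module FRO: `D_θ = 0` on `K_1(ℤ_p[G])` for cocycles `θ` with values in `ℤ_p` supported on
elements of finite order divisible by `p`. -/
theorem specFRO (p : ℕ) [Fact p.Prime] (G : Type v) [Group G] (θ : G → G → ℤ_[p])
    (hθ : IsCoc θ) (h : ∀ a y, θ a y ≠ 0 → IsOfFinOrder y ∧ p ∣ orderOf y)
    (x : K1 (MonoidAlgebra ℤ_[p] G)) : W2.DK hθ x = 0 := by
  have : W2.DK hθ = 0 := by
    apply K1.ext
    intro n u
    rw [W2.DK_cls]
    exact Fro.mb_van p hθ h (Units.inv_mul u) (Units.mul_inv u)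
  rw [this]
  rfl

end Pool.Agent.Lib.MPb6f35e.Z0
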