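import Pool.Agent.Lib.MP_b6f35e_al.Z0.EXA
import Pool.Agent.Lib.MP_b6f35e_al.Z0.FRO
import Pool.Agent.Lib.MP_b6f35e_al.ZK.PAD

/-!
# Module DET0: detection (MP_b6f35e_al, Z0)
-/

set_option autoImplicit false

noncomputable section

namespace Pool.Agent.Lib.MPb6f35e.Z0

open Pool.Agent.Lib.MPb6f35e.WH (K1)
open Pool.Agent.Lib.MPb6f35e.ZK
open Pool.Agent.Lib.MPb6f35e.W2 (IsCoc DK dn mb bil cf)

universe u v w

namespace Dt

/-- `t ↦ 1` -/
def ev1 (A : Type u) [Ring A] : Lau A →+* A :=
  AddMonoidAlgebra.liftNCRingHom (RingHom.id A) (1 : Multiplicative ℤ →* A)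
    (fun _ _ => Commute.one_right _)

theorem ev1_single {A : Type u} [Ring A] (j : ℤ) (a : A) :
    ev1 A (AddMonoidAlgebra.single j a) = a := by
  show AddMonoidAlgebra.liftNC (RingHom.id A : A →+ A) (1 : Multiplicative ℤ →* A)
    (AddMonoidAlgebra.single j a) = a
  rw [AddMonoidAlgebra.liftNC_single]
  simp

theorem ev1_cst (A : Type u) [Ring A] : (ev1 A).comp (cst A) = RingHom.id A := by
  ext a
  exact ev1_single 0 a

theorem ev1_lauMap {A : Type u} {B : Type v} [Ring A] [Ring B] (f : A →+* B) :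
    (ev1 B).comp (lauMap f) = f.comp (ev1 A) := by
  refine RingHom.ext fun a => ?_
  induction a using AddMonoidAlgebra.induction_linear with
  | zero => simp
  | add a b ha hb => simp only [map_add, ha, hb]
  | single j a =>
    show ev1 B (lauMap f (AddMonoidAlgebra.single j a)) = f (ev1 A (AddMonoidAlgebra.single j a))
    simp only [lauMap, AddMonoidAlgebra.mapRingHom_single, ev1_single]

theorem map_map {A B C : Type*} [Ring A] [Ring B] [Ring C] (f : A →+* B) (g : B →+* C) (x : K1 A) :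
    K1.map g (K1.map f x) = K1.map (g.comp f) x := by
  have h : (K1.map g).comp (K1.map f) = K1.map (g.comp f) := by
    apply K1.ext
    intro n u
    rw [AddMonoidHom.comp_apply, K1.map_cls, K1.map_cls, K1.map_cls]
    rfl
  exact congrArg (fun F => F x) h

theorem map_id {A : Type u} [Ring A] (x : K1 A) : K1.map (RingHom.id A) x = x := by
  have h : K1.map (RingHom.id A) = AddMonoidHom.id _ := by
    apply K1.ext
    intro n u
    rw [K1.map_cls]
    show K1.cls _ = K1.cls u
    congr 1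
  exact congrArg (fun F => F x) h

section

variable {k : Type u} {k' : Type v} [CommRing k] [CommRing k'] {G : Type w} [Group G]

theorem bil_map (f : k →+* k') (c : G → G → k) (c' : G → G → k') (h : ∀ x y, c' x y = f (c x y))
    (a b : MonoidAlgebra k G) :
    bil c' (MonoidAlgebra.mapRingHom G f a) (MonoidAlgebra.mapRingHom G f b) = f (bil c a b) := by
  induction a using MonoidAlgebra.induction_linear with
  | zero => simp
  | add a a' ha ha' => simp only [map_add, AddMonoidHom.add_apply, ha, ha']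
  | single x r =>
    induction b using MonoidAlgebra.induction_linear with
    | zero => simp
    | add b b' hb hb' => simp only [map_add, hb, hb']
    | single y s =>
      simp only [MonoidAlgebra.mapRingHom_single, W2.bil_single, h, map_mul]

theorem DK_map (f : k →+* k') {θ : G → G → k} {θ' : G → G → k'} (hθ : IsCoc θ) (hθ' : IsCoc θ')
    (h : ∀ x y, θ' x y = f (θ x y)) (x : K1 (MonoidAlgebra k G)) :
    DK hθ' (K1.map (MonoidAlgebra.mapRingHom G f) x) = f (DK hθ x) := by
  have hh : (DK hθ').comp (K1.map (MonoidAlgebra.mapRingHom G f)) =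
      (f : k →+ k').comp (DK hθ) := by
    apply K1.ext
    intro n u
    show DK hθ' (K1.map (MonoidAlgebra.mapRingHom G f) (K1.cls u)) = f (DK hθ (K1.cls u))
    rw [K1.map_cls, W2.DK_cls, W2.DK_cls]
    unfold W2.dn W2.mb
    rw [map_sum]
    refine Finset.sum_congr rfl fun i _ => ?_
    rw [map_sum]
    refine Finset.sum_congr rfl fun j _ => ?_
    exact bil_map f (cf θ) (cf θ') (fun x y => h _ _) _ _
  exact congrArg (fun F => F x) hh

end

theorem mapRingHom_comp {k k' k'' : Type*} [CommRing k] [CommRing k'] [CommRing k''] {G : Type*}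
    [Group G] (f : k →+* k') (g : k' →+* k'') :
    (MonoidAlgebra.mapRingHom G g).comp (MonoidAlgebra.mapRingHom G f) =
      MonoidAlgebra.mapRingHom G (g.comp f) := by
  refine RingHom.ext fun a => ?_
  induction a using MonoidAlgebra.induction_linear with
  | zero => simp
  | add a b ha hb => simp only [map_add, ha, hb]
  | single j a =>
    simp only [RingHom.comp_apply, MonoidAlgebra.mapRingHom_single]

end Dt

open Dt

/-- DET0, from exactness. -/
theorem specDET0_of (hE : SpecEXA.{u}) (hP : SpecPAD.{u}) : SpecDET0.{u} := by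
  intro S G _ d hd y hy
  obtain ⟨m, hm, hmy⟩ := isOfFinAddOrder_iff_nsmul_eq_zero.1 hy
  rw [← map_nsmul] at hmy
  obtain ⟨y₁, y₂, h12⟩ := hE _ _ _ _ (padSq S G) (hP S G) d hd _ hmy
  have h1 := congrArg (K1.map (ev1 (MonoidAlgebra (Qp S) G))) h12
  rw [map_nsmul, map_map, ev1_cst, map_id, map_add] at h1
  have e1 : K1.map (ev1 (MonoidAlgebra (Qp S) G)) (K1.map (padSq S G).j₁ y₁) =
      K1.map (MonoidAlgebra.mapRingHom G (zsQp S)) (K1.map (ev1 _) y₁) := by
    rw [map_map, map_map]
    show K1.map ((ev1 (MonoidAlgebra (Qp S) G)).comp (lauMap (MonoidAlgebra.mapRingHom G (zsQp S))))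
      y₁ = _
    rw [ev1_lauMap]
  have e2 : K1.map (ev1 (MonoidAlgebra (Qp S) G)) (K1.map (padSq S G).j₂ y₂) =
      K1.map (MonoidAlgebra.mapRingHom G (zpQp S)) (K1.map (ev1 _) y₂) := by
    rw [map_map, map_map]
    show K1.map ((ev1 (MonoidAlgebra (Qp S) G)).comp (lauMap (MonoidAlgebra.mapRingHom G (zpQp S))))
      y₂ = _
    rw [ev1_lauMap]
  rw [e1, e2] at h1
  refine ⟨m, hm, K1.map (MonoidAlgebra.mapRingHom G (Zs S).subtype) (K1.map (ev1 _) y₁), ?_⟩
  intro θ hθ p hθp hsupp hden
  have h2 := congrArg (K1.map (prp S G p)) h1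
  rw [map_nsmul, map_add] at h2
  have f1 : (prp S G p).comp (MonoidAlgebra.mapRingHom G (zsQp S)) =
      (MonoidAlgebra.mapRingHom G (algebraMap ℚ ℚ_[((p : Nat.Primes) : ℕ)])).comp
        (MonoidAlgebra.mapRingHom G (Zs S).subtype) := by
    unfold prp
    rw [mapRingHom_comp, mapRingHom_comp]
    congr 1
  have f2 : (prp S G p).comp (MonoidAlgebra.mapRingHom G (zpQp S)) =
      (MonoidAlgebra.mapRingHom G
        (algebraMap ℤ_[((p : Nat.Primes) : ℕ)] ℚ_[((p : Nat.Primes) : ℕ)])).comp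
        (MonoidAlgebra.mapRingHom G (Pi.evalRingHom _ p)) := by
    unfold prp
    rw [mapRingHom_comp, mapRingHom_comp]
    congr 1
  have g1 : ∀ z, K1.map (prp S G p) (K1.map (MonoidAlgebra.mapRingHom G (zsQp S)) z) =
      K1.map (MonoidAlgebra.mapRingHom G (algebraMap ℚ ℚ_[((p : Nat.Primes) : ℕ)]))
        (K1.map (MonoidAlgebra.mapRingHom G (Zs S).subtype) z) := by
    intro z
    rw [map_map, map_map, f1]
  have g2 : ∀ z, K1.map (prp S G p) (K1.map (MonoidAlgebra.mapRingHom G (zpQp S)) z) =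
      K1.map (MonoidAlgebra.mapRingHom G
        (algebraMap ℤ_[((p : Nat.Primes) : ℕ)] ℚ_[((p : Nat.Primes) : ℕ)]))
        (K1.map (MonoidAlgebra.mapRingHom G (Pi.evalRingHom _ p)) z) := by
    intro z
    rw [map_map, map_map, f2]
  rw [g1, g2] at h2
  have h3 := congrArg (DK hθp) h2
  rw [map_nsmul, map_add] at h3
  rw [h3]
  -- the integral cocycle
  let θi : G → G → ℤ_[((p : Nat.Primes) : ℕ)] := fun a h =>
    ⟨((θ a h : ℚ) : ℚ_[((p : Nat.Primes) : ℕ)]), Padic.norm_rat_le_one (hden a h)⟩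
  have hθi : IsCoc θi := by
    intro a b h
    apply Subtype.ext
    exact hθp a b h
  have hsi : ∀ a h, θi a h ≠ 0 → IsOfFinOrder h ∧ ((p : Nat.Primes) : ℕ) ∣ orderOf h := by
    intro a h hne
    apply hsupp a h
    intro h0
    apply hne
    apply Subtype.ext
    show ((θ a h : ℚ) : ℚ_[((p : Nat.Primes) : ℕ)]) = 0
    rw [h0, Rat.cast_zero]
  rw [DK_map (algebraMap ℚ ℚ_[((p : Nat.Primes) : ℕ)]) hθ hθp (fun _ _ => rfl),
    DK_map (algebraMap ℤ_[((p : Nat.Primes) : ℕ)] ℚ_[((p : Nat.Primes) : ℕ)]) hθi hθp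
      (fun _ _ => rfl), specFRO _ G θi hθi hsi, map_zero, add_zero]
  rfl

/-- DET0. -/
theorem specDET0 : SpecDET0.{u} := specDET0_of specEXA specPAD

end Pool.Agent.Lib.MPb6f35e.Z0
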