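import Pool.Agent.Lib.MP_b6f35e_al.ZK.Defs

/-!
# Degree zero: `H_1(Z_G(H)) ⊗ K_{-1}(ℤ[H]) → K_0(ℤ[G])`  (MP_b6f35e_al, Z0)

Definitions.
-/

set_option autoImplicit false

noncomputable section

namespace Pool.Agent.Lib.MPb6f35e.Z0

open Pool.Agent.Lib.MPb6f35e.WH (FinSub conjHom)
open Pool.Agent.Lib.MPb6f35e.ZK

universe u v w

/-! ### the substitution `t ↦ z` -/

lemma evz_comm (k : Type w) [CommRing k] {C : Type v} {G : Type u} [Group C] [Group G]
    (φ : C →* G) (z : G) (hz : ∀ c, z * φ c = φ c * z) (x : MonoidAlgebra k C)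
    (y : Multiplicative ℤ) :
    Commute (MonoidAlgebra.mapDomainRingHom k φ x)
      (((MonoidAlgebra.of k G).comp (zpowersHom G z)) y) := by
  induction x using MonoidAlgebra.induction_linear with
  | zero => rw [map_zero]; exact Commute.zero_left _
  | add a b ha hb => rw [map_add]; exact ha.add_left hb
  | single c r =>
    have h : Commute (φ c) (z ^ y.toAdd) := (show Commute (φ c) z from (hz c).symm).zpow_right _
    show MonoidAlgebra.mapDomain φ (MonoidAlgebra.single c r) *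
      MonoidAlgebra.single (z ^ y.toAdd) 1 = MonoidAlgebra.single (z ^ y.toAdd) 1 *
      MonoidAlgebra.mapDomain φ (MonoidAlgebra.single c r)
    rw [MonoidAlgebra.mapDomain_single, MonoidAlgebra.single_mul_single,
      MonoidAlgebra.single_mul_single, h.eq, mul_one, one_mul]

/-- The ring homomorphism `k[C][t, t⁻¹] → k[G]`, `c ↦ φ(c)`, `t ↦ z`, for `φ : C → G` and
`z ∈ G` commuting with `φ(C)`. -/
def evz (k : Type w) [CommRing k] {C : Type v} {G : Type u} [Group C] [Group G] (φ : C →* G)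
    (z : G) (hz : ∀ c, z * φ c = φ c * z) :
    AddMonoidAlgebra (MonoidAlgebra k C) ℤ →+* MonoidAlgebra k G :=
  AddMonoidAlgebra.liftNCRingHom (MonoidAlgebra.mapDomainRingHom k φ)
    ((MonoidAlgebra.of k G).comp (zpowersHom G z)) (evz_comm k φ z hz)

/-! ### the source -/

/-- Generators: a finite subgroup `H` of `G`, an element `z` of its centralizer, an element of
`K_{-1}(ℤ[H])`. -/
structure Gen (G : Type u) [Group G] : Type u where
  H : FinSub G
  z : G
  comm : ∀ h ∈ H.1, z * h = h * z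
  k : Km1 (MonoidAlgebra ℤ H.1)

lemma comm_mul {G : Type u} [Group G] {H : Subgroup G} {z z' : G}
    (h : ∀ x ∈ H, z * x = x * z) (h' : ∀ x ∈ H, z' * x = x * z') :
    ∀ x ∈ H, z * z' * x = x * (z * z') := by
  intro x hx
  rw [mul_assoc, h' x hx, ← mul_assoc, h x hx, mul_assoc]

lemma comm_conj {G : Type u} [Group G] {H K : Subgroup G} {g z : G}
    (hg : ∀ x ∈ H, g * x * g⁻¹ ∈ K) (h : ∀ x ∈ K, z * x = x * z) :
    ∀ x ∈ H, g⁻¹ * z * g * x = x * (g⁻¹ * z * g) := by
  intro x hx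
  have := h _ (hg x hx)
  have h2 : g⁻¹ * (z * (g * x * g⁻¹)) * g = g⁻¹ * (g * x * g⁻¹ * z) * g := by rw [this]
  simpa [mul_assoc] using h2

/-- Relations: additivity in the element of `K_{-1}(ℤ[H])`, additivity in `z`, and
`(K, z, f_* k) = (H, g⁻¹ z g, k)` for `f : H → K`, `f(h) = g h g⁻¹`. -/
inductive Rel (G : Type u) [Group G] : FreeAbelianGroup (Gen G) → Prop
  | add (H : FinSub G) (z : G) (hz : ∀ h ∈ H.1, z * h = h * z)
      (k k' : Km1 (MonoidAlgebra ℤ H.1)) :
      Rel G (FreeAbelianGroup.of ⟨H, z, hz, k + k'⟩ - FreeAbelianGroup.of ⟨H, z, hz, k⟩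
        - FreeAbelianGroup.of ⟨H, z, hz, k'⟩)
  | mul (H : FinSub G) (z z' : G) (hz : ∀ h ∈ H.1, z * h = h * z)
      (hz' : ∀ h ∈ H.1, z' * h = h * z') (k : Km1 (MonoidAlgebra ℤ H.1)) :
      Rel G (FreeAbelianGroup.of ⟨H, z * z', comm_mul hz hz', k⟩
        - FreeAbelianGroup.of ⟨H, z, hz, k⟩ - FreeAbelianGroup.of ⟨H, z', hz', k⟩)
  | conj (H K : FinSub G) (g : G) (h : ∀ x ∈ H.1, g * x * g⁻¹ ∈ K.1) (z : G)
      (hz : ∀ x ∈ K.1, z * x = x * z) (k : Km1 (MonoidAlgebra ℤ H.1)) :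
      Rel G (FreeAbelianGroup.of ⟨K, z, hz,
          Km1.map (MonoidAlgebra.mapDomainRingHom ℤ (conjHom g H.1 K.1 h)) k⟩
        - FreeAbelianGroup.of ⟨H, g⁻¹ * z * g, comm_conj h hz, k⟩)

/-- `H_1^G(E_F G; K_{-1}(ℤ[-]))` up to torsion: the sum of the groups
`Z_G(H)_ab ⊗ K_{-1}(ℤ[H])`, `H` finite, modulo conjugation and inclusions. -/
def S0 (G : Type u) [Group G] : Type u :=
  FreeAbelianGroup (Gen G) ⧸ AddSubgroup.closure {x | Rel G x}

instance (G : Type u) [Group G] : AddCommGroup (S0 G) :=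
  QuotientAddGroup.Quotient.addCommGroup (AddSubgroup.closure {x | Rel G x})

/-- The class of a generator. -/
def S0.cls {G : Type u} [Group G] (x : Gen G) : S0 G :=
  QuotientAddGroup.mk' (AddSubgroup.closure {x | Rel G x}) (FreeAbelianGroup.of x)

/-! ### the map -/

/-- A finite subgroup `H`, an element `z` of its centralizer and an element `x` of
`K_0(ℤ[H][t, t⁻¹])`. -/
structure Lft (G : Type u) [Group G] : Type u where
  H : FinSub G
  z : G
  comm : ∀ h ∈ H.1, z * h = h * z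
  x : K0 (Lau (MonoidAlgebra ℤ H.1))

lemma one_comm {C : Type v} {G : Type u} [Group C] [Group G] (φ : C →* G) (c : C) :
    1 * φ c = φ c * 1 := by rw [one_mul, mul_one]

/-- `x(z) - x(1) ∈ K_0(ℤ[G])`. -/
def Lft.img {G : Type u} [Group G] (a : Lft G) : K0 (MonoidAlgebra ℤ G) :=
  K0.map (evz ℤ a.H.1.subtype a.z fun h => a.comm h h.2) a.x -
    K0.map (evz ℤ a.H.1.subtype 1 (one_comm _)) a.x

/-- The class of `(H, z, [x])`, `[x]` the image of `x` in `K_{-1}(ℤ[H])`. -/
def Lft.src {G : Type u} [Group G] (a : Lft G) : S0 G :=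
  S0.cls ⟨a.H, a.z, a.comm, Km1.mk _ a.x⟩

/-! ### divisible elements -/

/-- Every homomorphism `Z_G(H) → ℚ` whose values have denominators prime to `p` is zero on `z`. -/
def PKill {G : Type u} [Group G] (H : Subgroup G) (p : ℕ) (z : G) : Prop :=
  ∀ g : Subgroup.centralizer (H : Set G) →* Multiplicative ℚ,
    (∀ y, ¬ p ∣ (g y).toAdd.den) → ∀ y : Subgroup.centralizer (H : Set G), (y : G) = z → g y = 1

/-- The subgroup of `S0 G` generated by the classes `(H, z, k)` with `H` cyclic, of order not a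
prime power, such that for some prime `p` dividing the order of `H` all homomorphisms
`Z_G(H) → ℤ_(p)` are zero on `z`. -/
def DSub (G : Type u) [Group G] : AddSubgroup (S0 G) :=
  AddSubgroup.closure {s | ∃ (x : Gen G) (p : ℕ), IsCyclic x.H.1 ∧ ¬ IsPrimePow (Nat.card x.H.1) ∧
    p.Prime ∧ p ∣ Nat.card x.H.1 ∧ PKill x.H.1 p x.z ∧ S0.cls x = s}

/-- The condition on `G`: for every finite cyclic subgroup `H` of order not a prime power and every
prime `p` dividing its order, elements of `Z_G(H)` on which all homomorphisms to `ℤ_(p)` are zero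
have this property for all homomorphisms to `ℚ`. -/
def Cond (G : Type u) [Group G] : Prop :=
  ∀ (H : Subgroup G) (p : ℕ), Finite H → IsCyclic H → ¬ IsPrimePow (Nat.card H) → p.Prime →
    p ∣ Nat.card H → ∀ z : G, PKill H p z →
      ∀ (g : Subgroup.centralizer (H : Set G) →* Multiplicative ℚ)
        (y : Subgroup.centralizer (H : Set G)), (y : G) = z → g y = 1

end Pool.Agent.Lib.MPb6f35e.Z0
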