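import Pool.Agent.Lib.MP_b6f35e_al.Z0.Spec
import Pool.Agent.Lib.MP_b6f35e_al.ZK.Final

/-!
# Z0, module EVZ: the substitution `t ↦ z` and the arithmetic squares (MP_b6f35e_al)
-/

set_option autoImplicit false

noncomputable section

namespace Pool.Agent.Lib.MPb6f35e.Z0

open Pool.Agent.Lib.MPb6f35e.WH (FinSub conjHom K1)
open Pool.Agent.Lib.MPb6f35e.ZK
open Pool.Agent.Lib.MPb6f35e.ZK.FinMod (dB dB_spec unit_mul)
open Pool.Agent.Lib.MPb6f35e.W2 (IsCoc DK)

universe u v w

namespace EVZ

section ev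

variable (k : Type w) [CommRing k] {C : Type v} {G : Type u} [Group C] [Group G] (φ : C →* G)

lemma evz_single (z : G) (hz : ∀ c, z * φ c = φ c * z) (n : ℤ) (a : MonoidAlgebra k C) :
    evz k φ z hz (AddMonoidAlgebra.single n a) =
      MonoidAlgebra.mapDomainRingHom k φ a * MonoidAlgebra.single (z ^ n) 1 :=
  AddMonoidAlgebra.liftNCRingHom_single _ _ _ _ _

/-- Two ring homomorphisms on `A[t, t⁻¹]` which agree on the `a t^n`. -/
lemma lau_ext {A : Type v} {B : Type u} [Ring A] [Ring B] (F F' : Lau A →+* B)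
    (h : ∀ (n : ℤ) (a : A), F (AddMonoidAlgebra.single n a) = F' (AddMonoidAlgebra.single n a)) :
    F = F' := by
  refine RingHom.ext fun x => ?_
  induction x using AddMonoidAlgebra.induction_linear with
  | zero => simp
  | add a b ha hb => rw [map_add, map_add, ha, hb]
  | single j a => exact h j a

lemma evz_c1 (z : G) (hz : ∀ c, z * φ c = φ c * z) :
    (evz k φ z hz).comp (c1 (MonoidAlgebra k C)) = evz k φ 1 (one_comm φ) := by
  refine lau_ext _ _ fun n a => ?_
  have h : c1 (MonoidAlgebra k C) (AddMonoidAlgebra.single n a) = AddMonoidAlgebra.single 0 a := by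
    simp only [c1, AddMonoidAlgebra.mapDomainRingHom_apply, AddMonoidAlgebra.mapDomain_single,
      AddMonoidHom.zero_apply]
  rw [RingHom.comp_apply, h, evz_single, evz_single, zpow_zero, one_zpow]

lemma evz_congr {z z' : G} (h : z = z') (hz : ∀ c, z * φ c = φ c * z)
    (hz' : ∀ c, z' * φ c = φ c * z') : evz k φ z hz = evz k φ z' hz' := by
  subst h
  rfl

/-- change of coefficients -/
lemma evz_coeff {k' : Type w} [CommRing k'] (F : k →+* k') (z : G) (hz : ∀ c, z * φ c = φ c * z)
    (x : Lau (MonoidAlgebra k C)) :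
    MonoidAlgebra.mapRingHom G F (evz k φ z hz x) =
      evz k' φ z hz (lauMap (MonoidAlgebra.mapRingHom C F) x) := by
  have h : (MonoidAlgebra.mapRingHom G F).comp (evz k φ z hz) =
      (evz k' φ z hz).comp (lauMap (MonoidAlgebra.mapRingHom C F)) := by
    refine lau_ext _ _ fun n a => ?_
    rw [RingHom.comp_apply, RingHom.comp_apply]
    have h1 : lauMap (MonoidAlgebra.mapRingHom C F) (AddMonoidAlgebra.single n a) =
      AddMonoidAlgebra.single n (MonoidAlgebra.mapRingHom C F a) := by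
      simp only [lauMap, AddMonoidAlgebra.mapRingHom_single]
    rw [h1, evz_single, evz_single, map_mul, MonoidAlgebra.mapRingHom_single, map_one]
    congr 1
    clear h1
    induction a using MonoidAlgebra.induction_linear with
    | zero => simp
    | add a b ha hb => simp only [map_add, ha, hb]
    | single c r => simp [MonoidAlgebra.mapDomain_single]
  exact DFunLike.congr_fun h x

/-- change of groups -/
lemma evz_group {C' : Type v} [Group C'] (φ' : C' →* G) (f : C →* C') (hf : ∀ c, φ' (f c) = φ c)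
    (z : G) (hz : ∀ c, z * φ c = φ c * z) (hz' : ∀ c, z * φ' c = φ' c * z) :
    (evz k φ' z hz').comp (lauMap (MonoidAlgebra.mapDomainRingHom k f)) = evz k φ z hz := by
  refine lau_ext _ _ fun n a => ?_
  rw [RingHom.comp_apply]
  have h1 : lauMap (MonoidAlgebra.mapDomainRingHom k f) (AddMonoidAlgebra.single n a) =
      AddMonoidAlgebra.single n (MonoidAlgebra.mapDomainRingHom k f a) := by
    simp only [lauMap, AddMonoidAlgebra.mapRingHom_single]
  rw [h1, evz_single, evz_single]
  congr 1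
  clear h1
  induction a using MonoidAlgebra.induction_linear with
  | zero => simp
  | add a b ha hb => simp only [map_add, ha, hb]
  | single c r => simp [MonoidAlgebra.mapDomain_single, hf]

/-- conjugation -/
lemma evz_conj {C' : Type v} [Group C'] (φ' : C' →* G) (f : C →* C') (g : G)
    (hf : ∀ c, φ' (f c) = g * φ c * g⁻¹) (z : G) (hz : ∀ c, z * φ' c = φ' c * z)
    (hz' : ∀ c, g⁻¹ * z * g * φ c = φ c * (g⁻¹ * z * g)) (x : Lau (MonoidAlgebra k C)) :
    evz k φ' z hz (lauMap (MonoidAlgebra.mapDomainRingHom k f) x) =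
      (WH.gUnit k g : MonoidAlgebra k G) * evz k φ (g⁻¹ * z * g) hz' x *
        (((WH.gUnit k g)⁻¹ : (MonoidAlgebra k G)ˣ) : MonoidAlgebra k G) := by
  have e1 : (WH.gUnit k g : MonoidAlgebra k G) = MonoidAlgebra.single g 1 := rfl
  have e2 : (((WH.gUnit k g)⁻¹ : (MonoidAlgebra k G)ˣ) : MonoidAlgebra k G) =
    MonoidAlgebra.single g⁻¹ (1 : k) := rfl
  rw [e1, e2]
  induction x using AddMonoidAlgebra.induction_linear with
  | zero => simp
  | add a b ha hb => simp only [map_add, mul_add, add_mul, ha, hb]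
  | single n a =>
    have h1 : lauMap (MonoidAlgebra.mapDomainRingHom k f) (AddMonoidAlgebra.single n a) =
        AddMonoidAlgebra.single n (MonoidAlgebra.mapDomainRingHom k f a) := by
      simp only [lauMap, AddMonoidAlgebra.mapRingHom_single]
    rw [h1, evz_single, evz_single]
    clear h1
    induction a using MonoidAlgebra.induction_linear with
    | zero => simp
    | add a b ha hb => simp only [map_add, mul_add, add_mul, ha, hb]
    | single c r =>
      simp only [MonoidAlgebra.mapDomainRingHom_apply, MonoidAlgebra.mapDomain_single,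
        MonoidAlgebra.single_mul_single, one_mul, mul_one, hf]
      congr 1
      have h2 : (g⁻¹ * z * g) ^ n = g⁻¹ * z ^ n * g := by
        have := conj_zpow (a := g⁻¹) (b := z) (i := n)
        rwa [inv_inv] at this
      rw [h2]
      group

end ev

/-! ### constants -/

/-- `t ↦ 1` -/
def aug (A : Type u) [Ring A] : Lau A →+* A :=
  AddMonoidAlgebra.liftNCRingHom (RingHom.id A) 1 (fun a _ => Commute.one_right a)

lemma aug_single (A : Type u) [Ring A] (n : ℤ) (a : A) :
    aug A (AddMonoidAlgebra.single n a) = a := by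
  unfold aug
  rw [AddMonoidAlgebra.liftNCRingHom_single, RingHom.id_apply, MonoidHom.one_apply, mul_one]

lemma cst_apply (A : Type u) [Ring A] (a : A) : cst A a = AddMonoidAlgebra.single 0 a := rfl

lemma K0_map_id {A : Type u} [Ring A] (F : A →+* A) (hF : ∀ a, F a = a) (x : K0 A) :
    K0.map F x = x := by
  have : K0.map F = AddMonoidHom.id (K0 A) := by
    apply K0.ext
    intro n e he
    rw [K0.map_cls, AddMonoidHom.id_apply]
    congr 1
    ext i j
    exact hF _
  rw [this, AddMonoidHom.id_apply]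

lemma cst_inj (A : Type u) [Ring A] : Function.Injective (K0.map (cst A)) := by
  have h : ∀ x, K0.map (aug A) (K0.map (cst A) x) = x := by
    intro x
    rw [K0.map_comp]
    exact K0_map_id _ (fun a => by rw [RingHom.comp_apply, cst_apply, aug_single]) x
  exact Function.LeftInverse.injective h

/-! ### the arithmetic squares -/

section Sq

variable (S : Finset Nat.Primes) {G : Type u} [Group G] {C : Type u} [Group C] (φ : C →* G)
  (z : G) (hz : ∀ c, z * φ c = φ c * z)

lemma cst_coeff {k k' : Type} [CommRing k] [CommRing k'] (F : k →+* k')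
    (x : Lau (MonoidAlgebra k C)) :
    cMap G F (cst _ (evz k φ z hz x)) = cst _ (evz k' φ z hz (cMap C F x)) := by
  rw [cst_apply, cst_apply]
  have h1 : cMap G F (AddMonoidAlgebra.single 0 (evz k φ z hz x)) =
      AddMonoidAlgebra.single 0 (MonoidAlgebra.mapRingHom G F (evz k φ z hz x)) := by
    simp only [cMap, lauMap, AddMonoidAlgebra.mapRingHom_single]
  rw [h1, evz_coeff]
  rfl

/-- The morphism of arithmetic squares defined by `t ↦ z` and the inclusion of the constants. -/
def sqZ : SqHom (padSq S C) (padSq S G) where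
  f := (cst _).comp (evz ℤ φ z hz)
  f₁ := (cst _).comp (evz (Zs S) φ z hz)
  f₂ := (cst _).comp (evz (Zp S) φ z hz)
  f₀ := (cst _).comp (evz (Qp S) φ z hz)
  c₁ := cst_coeff φ z hz _
  c₂ := cst_coeff φ z hz _
  d₁ := cst_coeff φ z hz _
  d₂ := cst_coeff φ z hz _

lemma dB_evz (y : K1 (Lau (MonoidAlgebra (Qp S) C))) :
    dB S G (K1.map ((cst _).comp (evz (Qp S) φ z hz)) y) =
      K0.map ((cst _).comp (evz ℤ φ z hz)) (dB S C y) :=
  specMIL.nat _ _ _ _ _ _ _ _ (padSq S C) (padSq S G) (specPAD S C) (specPAD S G) (sqZ S φ z hz)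
    _ _ (dB_spec S C) (dB_spec S G) y

end Sq

/-! ### the units `f z + (1 - f)` -/

section Unit

variable {k : Type w} [CommRing k] {G : Type u} [Group G] {C : Type v} [Group C] (φ : C →* G)

lemma evz_btU (z : G) (hz : ∀ c, z * φ c = φ c * z) (f : MonoidAlgebra k C) (hf : f * f = f) :
    evz k φ z hz (btU f hf : Lau (MonoidAlgebra k C)) =
      MonoidAlgebra.mapDomainRingHom k φ f * MonoidAlgebra.single z 1 +
        (1 - MonoidAlgebra.mapDomainRingHom k φ f) := by
  show evz k φ z hz (AddMonoidAlgebra.single 1 f + AddMonoidAlgebra.single 0 (1 - f)) = _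
  rw [map_add, evz_single, evz_single, zpow_one, zpow_zero, map_sub, map_one,
    ← MonoidAlgebra.one_def, mul_one]

lemma evz_btU_mul (z z' : G) (hz : ∀ c, z * φ c = φ c * z) (hz' : ∀ c, z' * φ c = φ c * z')
    (hzz : ∀ c, z * z' * φ c = φ c * (z * z')) (f : MonoidAlgebra k C) (hf : f * f = f) :
    Units.map (evz k φ (z * z') hzz).toMonoidHom (btU f hf) =
      Units.map (evz k φ z hz).toMonoidHom (btU f hf) *
        Units.map (evz k φ z' hz').toMonoidHom (btU f hf) := by
  apply Units.ext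
  show evz k φ (z * z') hzz (btU f hf : Lau (MonoidAlgebra k C)) =
    evz k φ z hz (btU f hf : Lau (MonoidAlgebra k C)) *
      evz k φ z' hz' (btU f hf : Lau (MonoidAlgebra k C))
  rw [evz_btU, evz_btU, evz_btU]
  set F := MonoidAlgebra.mapDomainRingHom k φ f with hF
  have hFF : F * F = F := by rw [hF, ← map_mul, hf]
  have hc : MonoidAlgebra.single z (1 : k) * F = F * MonoidAlgebra.single z 1 := by
    rw [hF]
    clear hFF hF F hf
    induction f using MonoidAlgebra.induction_linear with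
    | zero => simp
    | add a b ha hb => simp only [map_add, mul_add, add_mul, ha, hb]
    | single c r => simp [MonoidAlgebra.mapDomain_single, MonoidAlgebra.single_mul_single, hz]
  have hs : (MonoidAlgebra.single (z * z') (1 : k) : MonoidAlgebra k G) =
      MonoidAlgebra.single z 1 * MonoidAlgebra.single z' 1 := by
    rw [MonoidAlgebra.single_mul_single, mul_one]
  rw [hs]
  set s := (MonoidAlgebra.single z (1 : k) : MonoidAlgebra k G)
  set t := (MonoidAlgebra.single z' (1 : k) : MonoidAlgebra k G)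
  have e1 : F * s * (F * t) = F * (s * t) := by
    rw [mul_assoc, ← mul_assoc s, hc, mul_assoc, ← mul_assoc, hFF]
  have e2 : F * s * F = F * s := by
    rw [mul_assoc, hc, ← mul_assoc, hFF]
  have e3 : F * (F * t) = F * t := by rw [← mul_assoc, hFF]
  rw [add_mul, mul_add, mul_add, e1, mul_sub, mul_one, e2, sub_self, add_zero, sub_mul, one_mul, e3,
    sub_self, zero_add, sub_mul, one_mul, mul_sub, mul_one, hFF, sub_self, sub_zero]

end Unit

section K1

variable (S : Finset Nat.Primes) {G : Type u} [Group G] {C : Type u} [Group C] (φ : C →* G)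

lemma K1_map_unit {A B : Type u} [Ring A] [Ring B] (F : A →+* B) (a : Aˣ) :
    K1.map F (K1.unit a) = K1.unit (Units.map F.toMonoidHom a) := by
  rw [K1.unit, K1.unit, K1.map_cls]
  congr 1

lemma K1_map_comp {A B D : Type u} [Ring A] [Ring B] [Ring D] (F : A →+* B) (F' : B →+* D)
    (x : K1 A) : K1.map F' (K1.map F x) = K1.map (F'.comp F) x := by
  have : (K1.map F').comp (K1.map F) = K1.map (F'.comp F) := by
    apply WH.K1.ext
    intro n u
    rw [AddMonoidHom.comp_apply, K1.map_cls, K1.map_cls, K1.map_cls]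
    congr 1
  exact DFunLike.congr_fun this x

lemma K1_evz_mul (z z' : G) (hz : ∀ c, z * φ c = φ c * z) (hz' : ∀ c, z' * φ c = φ c * z')
    (hzz : ∀ c, z * z' * φ c = φ c * (z * z')) (f : MonoidAlgebra (Qp S) C) (hf : f * f = f) :
    K1.map (evz (Qp S) φ (z * z') hzz) (K1.unit (btU f hf)) =
      K1.map (evz (Qp S) φ z hz) (K1.unit (btU f hf)) +
        K1.map (evz (Qp S) φ z' hz') (K1.unit (btU f hf)) := by
  rw [K1_map_unit, K1_map_unit, K1_map_unit, evz_btU_mul φ z z' hz hz' hzz f hf, unit_mul]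

lemma K1_evz_one (f : MonoidAlgebra (Qp S) C) (hf : f * f = f) :
    K1.map (evz (Qp S) φ 1 (one_comm φ)) (K1.unit (btU f hf)) = 0 := by
  have h := K1_evz_mul S φ 1 1 (one_comm φ) (one_comm φ) (fun c => by simp) f hf
  have h2 : K1.map (evz (Qp S) φ (1 * 1) (fun c => by simp)) (K1.unit (btU f hf)) =
      K1.map (evz (Qp S) φ 1 (one_comm φ)) (K1.unit (btU f hf)) := by
    rw [evz_congr (Qp S) φ (mul_one 1) _ (one_comm φ)]
  rw [h2] at h
  exact left_eq_add.1 h

end K1

/-! ### `x(z) - x(1)` -/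

section J

variable {G : Type u} [Group G] {C : Type u} [Group C] (φ : C →* G)

/-- `x ↦ x(z) - x(1)` -/
def jz (z : G) (hz : ∀ c, z * φ c = φ c * z) : K0 (Lau (MonoidAlgebra ℤ C)) →+
    K0 (MonoidAlgebra ℤ G) :=
  K0.map (evz ℤ φ z hz) - K0.map (evz ℤ φ 1 (one_comm φ))

lemma jz_apply (z : G) (hz : ∀ c, z * φ c = φ c * z) (x : K0 (Lau (MonoidAlgebra ℤ C))) :
    jz φ z hz x = K0.map (evz ℤ φ z hz) x - K0.map (evz ℤ φ 1 (one_comm φ)) x := rfl

/-- `jz` vanishes on constants. -/
lemma jz_const (z : G) (hz : ∀ c, z * φ c = φ c * z) (x : K0 (Lau (MonoidAlgebra ℤ C)))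
    (hx : x ∈ cSub (MonoidAlgebra ℤ C)) : jz φ z hz x = 0 := by
  obtain ⟨y, rfl⟩ := hx
  rw [jz_apply, K0.map_comp, K0.map_comp, evz_c1, evz_c1, sub_self]

/-- change of groups -/
lemma jz_group {C' : Type u} [Group C'] (φ' : C' →* G) (f : C →* C') (hf : ∀ c, φ' (f c) = φ c)
    (z : G) (hz : ∀ c, z * φ c = φ c * z) (hz' : ∀ c, z * φ' c = φ' c * z)
    (x : K0 (Lau (MonoidAlgebra ℤ C))) :
    jz φ' z hz' (K0.map (lauMap (MonoidAlgebra.mapDomainRingHom ℤ f)) x) = jz φ z hz x := by
  rw [jz_apply, jz_apply, K0.map_comp, K0.map_comp, evz_group ℤ φ φ' f hf z hz hz',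
    evz_group ℤ φ φ' f hf 1 (one_comm φ) (one_comm φ')]

/-- conjugation -/
lemma jz_conj {C' : Type u} [Group C'] (φ' : C' →* G) (f : C →* C') (g : G)
    (hf : ∀ c, φ' (f c) = g * φ c * g⁻¹) (z : G) (hz : ∀ c, z * φ' c = φ' c * z)
    (hz' : ∀ c, g⁻¹ * z * g * φ c = φ c * (g⁻¹ * z * g))
    (x : K0 (Lau (MonoidAlgebra ℤ C))) :
    jz φ' z hz (K0.map (lauMap (MonoidAlgebra.mapDomainRingHom ℤ f)) x) =
      jz φ (g⁻¹ * z * g) hz' x := by
  rw [jz_apply, jz_apply, K0.map_comp, K0.map_comp]
  congr 1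
  · exact K0.map_conj _ _ (WH.gUnit ℤ g) (fun a => evz_conj ℤ φ φ' f g hf z hz hz' a) x
  · have h1 : ∀ c, g⁻¹ * 1 * g * φ c = φ c * (g⁻¹ * 1 * g) := by
      intro c
      simp
    have h2 := K0.map_conj (evz ℤ φ (g⁻¹ * 1 * g) h1)
      ((evz ℤ φ' 1 (one_comm φ')).comp (lauMap (MonoidAlgebra.mapDomainRingHom ℤ f)))
      (WH.gUnit ℤ g) (fun a => evz_conj ℤ φ φ' f g hf 1 (one_comm φ') h1 a) x
    rw [h2, evz_congr ℤ φ (show g⁻¹ * 1 * g = 1 by simp) h1 (one_comm φ)]

end J

/-! ### the boundary of `f t + (1 - f)` -/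

section B

variable (S : Finset Nat.Primes) {G : Type u} [Group G] {C : Type u} [Group C] (φ : C →* G)

lemma cst_evz (z : G) (hz : ∀ c, z * φ c = φ c * z) (y : K1 (Lau (MonoidAlgebra (Qp S) C))) :
    K0.map (cst _) (K0.map (evz ℤ φ z hz) (dB S C y)) =
      dB S G (K1.map (cst _) (K1.map (evz (Qp S) φ z hz) y)) := by
  rw [K0.map_comp, ← dB_evz, K1_map_comp]

/-- The image of the boundary of `f t + (1 - f)`. -/
lemma cst_jz (z : G) (hz : ∀ c, z * φ c = φ c * z) (f : MonoidAlgebra (Qp S) C) (hf : f * f = f) :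
    K0.map (cst _) (jz φ z hz (dB S C (K1.unit (btU f hf)))) =
      dB S G (K1.map (cst _) (K1.map (evz (Qp S) φ z hz) (K1.unit (btU f hf)))) := by
  rw [jz_apply, map_sub, cst_evz, cst_evz, K1_evz_one, map_zero, map_zero, sub_zero]

/-- Additivity in `z`. -/
lemma jz_mul (z z' : G) (hz : ∀ c, z * φ c = φ c * z) (hz' : ∀ c, z' * φ c = φ c * z')
    (hzz : ∀ c, z * z' * φ c = φ c * (z * z')) (f : MonoidAlgebra (Qp S) C) (hf : f * f = f) :
    jz φ (z * z') hzz (dB S C (K1.unit (btU f hf))) =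
      jz φ z hz (dB S C (K1.unit (btU f hf))) + jz φ z' hz' (dB S C (K1.unit (btU f hf))) := by
  apply cst_inj
  rw [map_add, cst_jz, cst_jz, cst_jz, K1_evz_mul S φ z z' hz hz' hzz f hf, map_add, map_add]

end B

end EVZ

end Pool.Agent.Lib.MPb6f35e.Z0
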