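import Pool.Agent.Lib.MP_b6f35e_al.Z0.Spec
import Pool.Agent.Lib.MP_b6f35e_al.ZK.MIL
import Pool.Agent.Lib.MP_b6f35e_al.WH.K

/-!
# Module EXA: exactness at `K_1(A₀)` of the Mayer-Vietoris sequence of a Milnor square
(MP_b6f35e_al, Z0)
-/

set_option autoImplicit false

noncomputable section

namespace Pool.Agent.Lib.MPb6f35e.Z0

open Pool.Agent.Lib.MPb6f35e.WH (K1)
open Pool.Agent.Lib.MPb6f35e.WH.KM
open Pool.Agent.Lib.MPb6f35e.ZK

universe u v w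

namespace Exa

/-- Every element of `K_1(A)` is the class of a matrix. -/
theorem exists_cls {A : Type u} [Ring A] (x : K1 A) :
    ∃ (n : ℕ) (U : (Matrix (Fin n) (Fin n) A)ˣ), x = K1.cls U := by
  obtain ⟨z, rfl⟩ := QuotientAddGroup.mk_surjective x
  induction z using FreeAbelianGroup.induction_on with
  | zero =>
    refine ⟨0, 1, ?_⟩
    have h : K1.cls (1 : (Matrix (Fin 0) (Fin 0) A)ˣ) + K1.cls (1 : (Matrix (Fin 0) (Fin 0) A)ˣ) =
      K1.cls (1 : (Matrix (Fin 0) (Fin 0) A)ˣ) := by rw [← K1.cls_mul, one_mul]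
    exact (add_eq_left.1 h).symm
  | of g => exact ⟨g.1, g.2, rfl⟩
  | neg g _ =>
    refine ⟨g.1, g.2⁻¹, ?_⟩
    have h1 : K1.cls g.2⁻¹ + K1.cls g.2 = 0 := by
      rw [← K1.cls_mul, inv_mul_cancel]
      have h : K1.cls (1 : (Matrix (Fin g.1) (Fin g.1) A)ˣ) +
          K1.cls (1 : (Matrix (Fin g.1) (Fin g.1) A)ˣ) =
          K1.cls (1 : (Matrix (Fin g.1) (Fin g.1) A)ˣ) := by rw [← K1.cls_mul, one_mul]
      exact add_eq_left.1 h
    exact (eq_neg_of_add_eq_zero_left h1).symm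
  | add a b ha hb =>
    obtain ⟨n, U, hU⟩ := ha
    obtain ⟨k, V, hV⟩ := hb
    refine ⟨n + k, rI finSumFinEquiv (bU U V 0), ?_⟩
    rw [K1.cls_block U V _ 0 (by rw [rI_val]; rfl), ← hU, ← hV]
    rfl

end Exa

/-- EXA. -/
theorem specEXA : SpecEXA.{u} := by
  intro A A₁ A₂ A₀ _ _ _ _ m hm d hd y hy
  obtain ⟨n, U, rfl⟩ := Exa.exists_cls y
  obtain ⟨r, e, he, hg⟩ := specMIL.ex A A₁ A₂ A₀ m hm n U
  have h1 := hd r n e he U hg
  rw [hy] at h1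
  have h2 : K0.clsF e he = K0.clsF (1 : Matrix (Fin n) (Fin n) A) (mul_one 1) := by
    rw [specKA.{u, 0, 0}.cls, specKA.{u, 0, 0}.one, Fintype.card_fin]
    exact (sub_eq_zero.1 h1.symm)
  obtain ⟨k, c, c', h3, h4⟩ := specKA.{u, 0, 0}.stable A (Fin r) (Fin n) e 1 he (mul_one 1) h2
  obtain ⟨a₁, b₁, a₂, b₂, g1, g2, g3, g4, g5⟩ := hg
  -- the invertible matrices
  have h4' : c' * c = (1 : Matrix (Fin n ⊕ Fin k) (Fin n ⊕ Fin k) A) := by
    rw [h4, Matrix.fromBlocks_one]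
  let P₁ : Matrix (Fin n ⊕ Fin k) (Fin r ⊕ Fin k) A₁ := Matrix.fromBlocks b₁ 0 0 1
  let Q₁ : Matrix (Fin r ⊕ Fin k) (Fin n ⊕ Fin k) A₁ := Matrix.fromBlocks a₁ 0 0 1
  let P₂ : Matrix (Fin n ⊕ Fin k) (Fin r ⊕ Fin k) A₂ := Matrix.fromBlocks b₂ 0 0 1
  let Q₂ : Matrix (Fin r ⊕ Fin k) (Fin n ⊕ Fin k) A₂ := Matrix.fromBlocks a₂ 0 0 1
  have e1 : Q₁ * P₁ = (c * c').map m.i₁ := by
    rw [h3, Matrix.fromBlocks_map, Matrix.fromBlocks_multiply]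
    simp [g1, Matrix.map_one]
  have e2 : P₁ * Q₁ = 1 := by
    rw [Matrix.fromBlocks_multiply]
    simp [g2]
  have e3 : Q₂ * P₂ = (c * c').map m.i₂ := by
    rw [h3, Matrix.fromBlocks_map, Matrix.fromBlocks_multiply]
    simp [g3, Matrix.map_one]
  have e4 : P₂ * Q₂ = 1 := by
    rw [Matrix.fromBlocks_multiply]
    simp [g4]
  have k1 : (c'.map m.i₁) * (c.map m.i₁) = 1 := by
    rw [← Matrix.map_mul, h4', Matrix.map_one _ (map_zero _) (map_one _)]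
  have k2 : (c'.map m.i₂) * (c.map m.i₂) = 1 := by
    rw [← Matrix.map_mul, h4', Matrix.map_one _ (map_zero _) (map_one _)]
  rw [Matrix.map_mul] at e1 e3
  let V₁ : (Matrix (Fin n ⊕ Fin k) (Fin n ⊕ Fin k) A₁)ˣ :=
    ⟨P₁ * c.map m.i₁, c'.map m.i₁ * Q₁, by
      rw [Matrix.mul_assoc, ← Matrix.mul_assoc (c.map m.i₁), ← e1, Matrix.mul_assoc Q₁, e2,
        Matrix.mul_one, e2], by
      rw [Matrix.mul_assoc, ← Matrix.mul_assoc Q₁, e1, Matrix.mul_assoc (c.map m.i₁), k1,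
        Matrix.mul_one, k1]⟩
  let V₂ : (Matrix (Fin n ⊕ Fin k) (Fin n ⊕ Fin k) A₂)ˣ :=
    ⟨c'.map m.i₂ * Q₂, P₂ * c.map m.i₂, by
      rw [Matrix.mul_assoc, ← Matrix.mul_assoc Q₂, e3, Matrix.mul_assoc (c.map m.i₂), k2,
        Matrix.mul_one, k2], by
      rw [Matrix.mul_assoc, ← Matrix.mul_assoc (c.map m.i₂), ← e3, Matrix.mul_assoc Q₂, e4,
        Matrix.mul_one, e4]⟩
  have hV : (Units.map (m.j₁.mapMatrix).toMonoidHom V₁ *
      Units.map (m.j₂.mapMatrix).toMonoidHom V₂ :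
        (Matrix (Fin n ⊕ Fin k) (Fin n ⊕ Fin k) A₀)ˣ) = bU U 1 0 := by
    apply Units.ext
    show (P₁ * c.map m.i₁).map m.j₁ * (c'.map m.i₂ * Q₂).map m.j₂ =
      Matrix.fromBlocks (U : Matrix (Fin n) (Fin n) A₀) 0 0 1
    have k3 : ((c.map m.i₁).map m.j₁) * ((c'.map m.i₂).map m.j₂) = (Q₁ * P₁).map m.j₁ := by
      rw [e1, Matrix.map_mul]
      congr 1
      ext i j
      exact (hm.comm _).symm
    rw [Matrix.map_mul, Matrix.map_mul, Matrix.mul_assoc,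
      ← Matrix.mul_assoc ((c.map m.i₁).map m.j₁), k3, ← Matrix.mul_assoc, ← Matrix.map_mul,
      ← Matrix.mul_assoc P₁, e2, Matrix.one_mul, Matrix.fromBlocks_map, Matrix.fromBlocks_map,
      Matrix.fromBlocks_multiply]
    simp [g5, Matrix.map_one]
  refine ⟨K1.clsF V₁, K1.clsF V₂, ?_⟩
  rw [map_clsF, map_clsF, ← clsF_mul, hV, clsF_block U 1 0 _ rfl, clsF_one, add_zero]
  exact (clsF_of (Equiv.refl _) U).symm

end Pool.Agent.Lib.MPb6f35e.Z0
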