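import Pool.Agent.Lib.MP_b6f35e_al.Z0.FIN0B

/-!
# Z0, module FIN0: the theorem from the modules (MP_b6f35e_al)
-/

set_option autoImplicit false

noncomputable section

namespace Pool.Agent.Lib.MPb6f35e.Z0

open Pool.Agent.Lib.MPb6f35e.WH (FinSub conjHom K1)
open Pool.Agent.Lib.MPb6f35e.ZK
open Pool.Agent.Lib.MPb6f35e.ZK.FinMod (dB dB_spec satur mem_satur satur_of_nsmul exists_lam rg
  rat_smul_int)
open Pool.Agent.Lib.MPb6f35e.W2 (IsCoc DK)
open EVZ

universe u v w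

namespace FIN0

/-! ### the rank -/

/-- The augmentation. -/
def eps (G : Type u) [Group G] : MonoidAlgebra ℤ G →+* ℤ :=
  MonoidAlgebra.liftNCRingHom (RingHom.id ℤ) 1 (fun _ _ => Commute.one_right _)

lemma eps_single {G : Type u} [Group G] (g : G) (r : ℤ) : eps G (MonoidAlgebra.single g r) = r := by
  unfold eps
  rw [MonoidAlgebra.liftNCRingHom_single, RingHom.id_apply, MonoidHom.one_apply, mul_one]

lemma eps_map {C G : Type u} [Group C] [Group G] (φ : C →* G) (x : MonoidAlgebra ℤ C) :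
    eps G (MonoidAlgebra.mapDomainRingHom ℤ φ x) = eps C x := by
  induction x using MonoidAlgebra.induction_linear with
  | zero => simp
  | add a b ha hb => rw [map_add, map_add, map_add, ha, hb]
  | single c r =>
    rw [MonoidAlgebra.mapDomainRingHom_apply, MonoidAlgebra.mapDomain_single, eps_single,
      eps_single]

lemma eps_evz {C G : Type u} [Group C] [Group G] (φ : C →* G) (z : G)
    (hz : ∀ c, z * φ c = φ c * z) :
    (eps G).comp (evz ℤ φ z hz) = (eps G).comp (evz ℤ φ 1 (one_comm φ)) := by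
  refine lau_ext _ _ fun n a => ?_
  rw [RingHom.comp_apply, RingHom.comp_apply, evz_single, evz_single, map_mul, map_mul,
    eps_single, eps_single]

/-- The rank of the augmentation. -/
def rk0 (G : Type u) [Group G] : K0 (MonoidAlgebra ℤ G) →+ ℤ :=
  K0.lift (fun _ e _ => Matrix.trace (e.map (eps G))) (by
    rintro x (⟨m, n, e, f, a, b, h1, h2⟩ | ⟨m, n, e, f, g, h⟩)
    · rw [map_sub, FreeAbelianGroup.lift_apply_of, FreeAbelianGroup.lift_apply_of, ← h1, ← h2,
        Matrix.map_mul, Matrix.map_mul, Matrix.trace_mul_comm, sub_self]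
    · rw [map_sub, map_sub, FreeAbelianGroup.lift_apply_of, FreeAbelianGroup.lift_apply_of,
        FreeAbelianGroup.lift_apply_of, h]
      simp only [Matrix.trace, Matrix.diag_apply, Matrix.map_apply, ← finSumFinEquiv.sum_comp,
        Fintype.sum_sum_type, Matrix.reindex_apply, Matrix.submatrix_apply,
        Equiv.symm_apply_apply, Matrix.fromBlocks_apply₁₁, Matrix.fromBlocks_apply₂₂]
      ring)

lemma rk0_cls {G : Type u} [Group G] {n : ℕ} (e : Matrix (Fin n) (Fin n) (MonoidAlgebra ℤ G))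
    (he : e * e = e) : rk0 G (K0.cls e he) = Matrix.trace (e.map (eps G)) :=
  K0.lift_cls _ _ e he

lemma rk0_map {A : Type u} [Ring A] {G : Type u} [Group G] (F F' : A →+* MonoidAlgebra ℤ G)
    (h : (eps G).comp F = (eps G).comp F') (x : K0 A) :
    rk0 G (K0.map F x) = rk0 G (K0.map F' x) := by
  have : (rk0 G).comp (K0.map F) = (rk0 G).comp (K0.map F') := by
    apply K0.ext
    intro n e he
    rw [AddMonoidHom.comp_apply, AddMonoidHom.comp_apply, K0.map_cls, K0.map_cls, rk0_cls,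
      rk0_cls, Matrix.map_map, Matrix.map_map]
    have h2 : (eps G : MonoidAlgebra ℤ G → ℤ) ∘ F = (eps G : MonoidAlgebra ℤ G → ℤ) ∘ F' :=
      funext fun a => DFunLike.congr_fun h a
    rw [h2]
  exact DFunLike.congr_fun this x

lemma rk0_img {G : Type u} [Group G] (a : FreeAbelianGroup (Lft G)) :
    rk0 G (FreeAbelianGroup.lift Lft.img a) = 0 := by
  have h : (rk0 G).comp (FreeAbelianGroup.lift Lft.img) = 0 := by
    apply FreeAbelianGroup.lift_ext
    rintro ⟨H, z, hz, x⟩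
    rw [AddMonoidHom.comp_apply, FreeAbelianGroup.lift_apply_of, AddMonoidHom.zero_apply]
    show rk0 G (K0.map _ x - K0.map _ x) = 0
    rw [map_sub, rk0_map _ _ (eps_evz H.1.subtype z fun h => hz h h.2), sub_self]
  exact DFunLike.congr_fun h a

lemma rk0_one (G : Type u) [Group G] : rk0 G (K0.one (MonoidAlgebra ℤ G)) = 1 := by
  unfold K0.one
  rw [rk0_cls]
  simp [Matrix.trace, MonoidAlgebra.one_def, eps_single]

lemma zero_of_rank {G : Type u} [Group G] (m : ℤ) (x : K0 (MonoidAlgebra ℤ G)) (hx : rk0 G x = 0)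
    (h : IsOfFinAddOrder (m • K0.one (MonoidAlgebra ℤ G) + x)) : m = 0 := by
  obtain ⟨n, hn, h1⟩ := isOfFinAddOrder_iff_nsmul_eq_zero.1 h
  have h2 := congrArg (rk0 G) h1
  rw [map_nsmul, map_add, map_zsmul, rk0_one, hx, map_zero, add_zero, smul_eq_mul, mul_one,
    nsmul_eq_mul, mul_eq_zero] at h2
  exact h2.resolve_left (by exact_mod_cast hn.ne')

/-! ### the value of the Dennis trace -/

/-- VAL -/
def SpecVAL : Prop :=
  ∀ (S : Finset Nat.Primes) (G : Type u) [Group G] (C : Type u) [CommGroup C] [Fintype C]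
    (φ : C →* G) (z : G) (hz : ∀ c, z * φ c = φ c * z) (f : MonoidAlgebra (Qp S) C)
    (hf : f * f = f) (p : S) (θ : G → G → ℚ_[((p : Nat.Primes) : ℕ)]) (hθ : IsCoc θ),
    DK hθ (K1.map (prp S G p) (K1.map (evz (Qp S) φ z hz) (K1.unit (btU f hf)))) =
      ∑ c, f.coeff c p * θ z (φ c)

/-! ### the Dennis trace as a finite linear form -/

lemma lf_add {G : Type u} (L L' : (G × G) →₀ ℚ) (θ : G → G → ℚ) :
    LIN0.lf (L + L') θ = LIN0.lf L θ + LIN0.lf L' θ := by
  unfold LIN0.lf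
  exact Finsupp.sum_add_index' (fun _ => zero_mul _) (fun _ _ _ => add_mul _ _ _)

lemma lf_zero {G : Type u} (θ : G → G → ℚ) : LIN0.lf (0 : (G × G) →₀ ℚ) θ = 0 :=
  Finsupp.sum_zero_index

lemma lf_single {G : Type u} (q : G × G) (r : ℚ) (θ : G → G → ℚ) :
    LIN0.lf (Finsupp.single q r) θ = r * θ q.1 q.2 := by
  unfold LIN0.lf
  exact Finsupp.sum_single_index (zero_mul _)

lemma ex_bil {G : Type u} [Group G] (a b : MonoidAlgebra ℚ G) :
    ∃ L : (G × G) →₀ ℚ, ∀ θ : G → G → ℚ, W2.bil (W2.cf θ) a b = LIN0.lf L θ := by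
  induction a using MonoidAlgebra.induction_linear with
  | zero => exact ⟨0, fun θ => by rw [map_zero, lf_zero]; rfl⟩
  | add a a' ha ha' =>
    obtain ⟨L, hL⟩ := ha
    obtain ⟨L', hL'⟩ := ha'
    exact ⟨L + L', fun θ => by rw [map_add, AddMonoidHom.add_apply, hL, hL', lf_add]⟩
  | single x r =>
    induction b using MonoidAlgebra.induction_linear with
    | zero => exact ⟨0, fun θ => by rw [map_zero, lf_zero]⟩
    | add b b' hb hb' =>
      obtain ⟨L, hL⟩ := hb
      obtain ⟨L', hL'⟩ := hb'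
      exact ⟨L + L', fun θ => by rw [map_add, hL, hL', lf_add]⟩
    | single y t =>
      refine ⟨Finsupp.single (y, x * y) (r * t), fun θ => ?_⟩
      rw [W2.bil_single, lf_single]
      rfl

lemma ex_sum {G : Type u} {ι : Type} (s : Finset ι) (F : ι → (G → G → ℚ) → ℚ)
    (h : ∀ i, ∃ L : (G × G) →₀ ℚ, ∀ θ, F i θ = LIN0.lf L θ) :
    ∃ L : (G × G) →₀ ℚ, ∀ θ, ∑ i ∈ s, F i θ = LIN0.lf L θ := by
  classical
  induction s using Finset.induction_on with
  | empty => exact ⟨0, fun θ => by rw [Finset.sum_empty, lf_zero]⟩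
  | insert i s hi ih =>
    obtain ⟨L, hL⟩ := ih
    obtain ⟨L', hL'⟩ := h i
    exact ⟨L' + L, fun θ => by rw [Finset.sum_insert hi, hL, hL', lf_add]⟩

/-- The Dennis trace of an element of `K_1(ℚ[G])`, as a linear form on cocycles. -/
lemma ex_lf {G : Type u} [Group G] (B : K1 (MonoidAlgebra ℚ G)) :
    ∃ L : (G × G) →₀ ℚ, ∀ (θ : G → G → ℚ) (hθ : IsCoc θ), DK hθ B = LIN0.lf L θ := by
  obtain ⟨B, rfl⟩ := QuotientAddGroup.mk_surjective B
  induction B using FreeAbelianGroup.induction_on with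
  | zero => exact ⟨0, fun θ hθ => by rw [lf_zero]; exact map_zero (DK hθ)⟩
  | of x =>
    obtain ⟨n, u⟩ := x
    have h1 : ∃ L : (G × G) →₀ ℚ, ∀ θ : G → G → ℚ, W2.dn θ u = LIN0.lf L θ := by
      unfold W2.dn W2.mb
      refine ex_sum _ _ fun i => ex_sum _ _ fun j => ex_bil _ _
    obtain ⟨L, hL⟩ := h1
    exact ⟨L, fun θ hθ => (W2.DK_cls hθ u).trans (hL θ)⟩
  | neg x hx =>
    obtain ⟨L, hL⟩ := hx
    refine ⟨(-1 : ℚ) • L, fun θ hθ => ?_⟩
    rw [LIN0.lf_smul, ← hL θ hθ, neg_one_mul]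
    exact ((DK hθ).comp (QuotientAddGroup.mk' _)).map_neg (FreeAbelianGroup.of x)
  | add x y hx hy =>
    obtain ⟨L, hL⟩ := hx
    obtain ⟨L', hL'⟩ := hy
    refine ⟨L + L', fun θ hθ => ?_⟩
    rw [lf_add, ← hL θ hθ, ← hL' θ hθ]
    exact ((DK hθ).comp (QuotientAddGroup.mk' _)).map_add x y

/-- The idempotent, as an element of the rational span. -/
def bz0 (S : Finset Nat.Primes) {G : Type u} [Group G] (ε : ℤ) (δ : Dat S G) :
    RV (MonoidAlgebra (Qp S) δ.C) :=
  ⟨(ε : ℚ) • δ.f, Submodule.smul_mem _ _ (Submodule.subset_span δ.hf)⟩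

lemma bz0_val (S : Finset Nat.Primes) {G : Type u} [Group G] (ε : ℤ) (δ : Dat S G) :
    (bz0 S ε δ : MonoidAlgebra (Qp S) δ.C) = ε • δ.f := rat_smul_int ε δ.f

lemma ThL_bz0 (hV : SpecVB.{u}) (S : Finset Nat.Primes) {G : Type u} [Group G] (ε : ℤ)
    (δ : Dat S G) (l : Km1 (MonoidAlgebra ℤ δ.C) →+ ℚ) :
    ThL hV S l (bz0 S ε δ) = ε • l (ek S δ.f δ.hf) := by
  have h : bz0 S ε δ = (ε : ℚ) • ⟨δ.f, Submodule.subset_span δ.hf⟩ := rfl
  rw [h, map_smul, ThL_idem, rat_smul_int]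

/-! ### the linear functions, for all `z` -/

section Theta

variable (hV : SpecVB.{u}) (hRes : SpecRES.{u}) (S : Finset Nat.Primes) {G : Type u} [Group G]
  (l : S0 G →+ ℚ)

open Classical in
/-- The linear function of `l : S0 G → ℚ`, `φ : C → G` and `z`. -/
def Th0 (C : Type u) [CommGroup C] [Finite C] (φ : C →* G) (z : G) :
    RV (MonoidAlgebra (Qp S) C) →ₗ[ℚ] ℚ :=
  if hz : ∀ c, z * φ c = φ c * z then ThL hV S (l.comp (gam0 φ z hz)) else 0

lemma Th0_of (C : Type u) [CommGroup C] [Finite C] (φ : C →* G) (z : G)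
    (hz : ∀ c, z * φ c = φ c * z) : Th0 hV S l C φ z = ThL hV S (l.comp (gam0 φ z hz)) :=
  dif_pos hz

lemma Th0_nat (C C' : Type u) [CommGroup C] [Finite C] [CommGroup C'] [Finite C'] (φ : C →* G)
    (φ' : C' →* G) (f : C →* C') (g : G) (h : ∀ c, φ' (f c) = g * φ c * g⁻¹) (z : G)
    (hz : ∀ c, z * φ' c = φ' c * z) (b : RV (MonoidAlgebra (Qp S) C))
    (b' : RV (MonoidAlgebra (Qp S) C')) (hb : (b' : MonoidAlgebra (Qp S) C') =
      MonoidAlgebra.mapDomainRingHom (Qp S) f (b : MonoidAlgebra (Qp S) C)) :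
    Th0 hV S l C' φ' z b' = Th0 hV S l C φ (g⁻¹ * z * g) b := by
  have hz' : ∀ c, g⁻¹ * z * g * φ c = φ c * (g⁻¹ * z * g) := by
    intro c
    have h1 := hz (f c)
    rw [h c] at h1
    have h2 : g⁻¹ * (z * (g * φ c * g⁻¹)) * g = g⁻¹ * (g * φ c * g⁻¹ * z) * g := by rw [h1]
    simpa [mul_assoc] using h2
  rw [Th0_of hV S l C' φ' z hz, Th0_of hV S l C φ _ hz']
  refine ThL_nat hV S f _ _ (fun k => ?_) b b' hb
  rw [AddMonoidHom.comp_apply, AddMonoidHom.comp_apply, gam0_rel φ φ' f g h z hz hz']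

lemma Th0_add (C : Type u) [CommGroup C] [Finite C] (φ : C →* G) (z z' : G)
    (hz : ∀ c, z * φ c = φ c * z) (hz' : ∀ c, z' * φ c = φ c * z')
    (b : RV (MonoidAlgebra (Qp S) C)) :
    Th0 hV S l C φ (z * z') b = Th0 hV S l C φ z b + Th0 hV S l C φ z' b := by
  have hzz : ∀ c, z * z' * φ c = φ c * (z * z') := by
    intro c
    rw [mul_assoc, hz' c, ← mul_assoc, hz c, mul_assoc]
  rw [Th0_of hV S l C φ z hz, Th0_of hV S l C φ z' hz', Th0_of hV S l C φ _ hzz]
  refine ThL_add hV S _ _ _ (fun k => ?_) b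
  rw [AddMonoidHom.comp_apply, AddMonoidHom.comp_apply, AddMonoidHom.comp_apply,
    gam0_mul φ z z' hz hz' hzz, map_add]

lemma ThL_zero {C : Type u} [CommGroup C] [Finite C] (l : Km1 (MonoidAlgebra ℤ C) →+ ℚ)
    (h : ∀ k, l k = 0) (b : RV (MonoidAlgebra (Qp S) C)) : ThL hV S l b = 0 := by
  have h1 := ThL_add hV S l l l (fun k => by rw [h k, add_zero]) b
  exact (left_eq_add.1 h1)

lemma Th0_dv (hl : ∀ d ∈ DSub G, l d = 0) (C : Type u) [CommGroup C] [Finite C] (φ : C →* G)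
    (hφ : Function.Injective φ) (hc : IsCyclic C) (hn : ¬ IsPrimePow (Nat.card C)) (p : ℕ)
    (hp : p.Prime) (hpn : p ∣ Nat.card C) (z : G) (hz : ∀ c, z * φ c = φ c * z)
    (hk : PKill φ.range p z) (b : RV (MonoidAlgebra (Qp S) C)) : Th0 hV S l C φ z b = 0 := by
  rw [Th0_of hV S l C φ z hz]
  refine ThL_zero hV S _ (fun k => ?_) b
  have hcard : Nat.card (rg φ).1 = Nat.card C :=
    Nat.card_congr (MonoidHom.ofInjective hφ).toEquiv.symm
  have hcyc : IsCyclic (rg φ).1 := isCyclic_of_surjective φ.rangeRestrict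
    φ.rangeRestrict_surjective
  exact hl _ (AddSubgroup.subset_closure ⟨_, p, hcyc, by rw [hcard]; exact hn, hp,
    by rw [hcard]; exact hpn, hk, rfl⟩)

end Theta

open Classical in
/-- Functionals which vanish on `DSub G` vanish on the elements with torsion image. -/
theorem main_l (hSec : SpecSEC.{u}) (hArt : SpecART.{u}) (hGen : SpecGEN.{u})
    (hDet : SpecDET0.{u}) (hVal : SpecVAL.{u}) (G : Type u) [Group G] (l : S0 G →+ ℚ)
    (hl0 : ∀ d ∈ DSub G, l d = 0) (a : FreeAbelianGroup (Lft G))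
    (himg : IsOfFinAddOrder (FreeAbelianGroup.lift Lft.img a)) :
    l (FreeAbelianGroup.lift Lft.src a) = 0 := by
  obtain ⟨S₀, hS₀⟩ := mem_T0 hArt hGen (FreeAbelianGroup.lift Lft.src a)
  obtain ⟨m, hm, hmx⟩ := hS₀ S₀ (Finset.Subset.refl _)
  generalize S₀ = S at hmx
  obtain ⟨n, δ, ε, ht⟩ := exists_family0 S _ hmx
  suffices h : l (m • FreeAbelianGroup.lift Lft.src a) = 0 by
    rw [map_nsmul, nsmul_eq_mul, mul_eq_zero] at h
    exact h.resolve_left (by exact_mod_cast hm.ne')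
  -- the element of `K_0(ℤ[G])`
  let w : K0 (MonoidAlgebra ℤ G) := ∑ i, ε i • jz (δ i).φ (δ i).z (δ i).comm
    (dB S (δ i).C (K1.unit (btU (δ i).f (δ i).hf)))
  have hw : IsOfFinAddOrder w := by
    by_contra hcon'
    obtain ⟨l', hl'⟩ := exists_lam _ hcon'
    apply hl'
    have h1 : l' w = Phi l' hSec hArt hGen (m • FreeAbelianGroup.lift Lft.src a) := by
      rw [ht, map_sum, map_sum]
      refine Finset.sum_congr rfl fun i _ => ?_
      rw [map_zsmul, map_zsmul, elt0, Phi_gam0]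
      rfl
    rw [h1, map_nsmul, Phi_src]
    obtain ⟨k, hk, h2⟩ := isOfFinAddOrder_iff_nsmul_eq_zero.1 (l'.isOfFinAddOrder himg)
    rw [nsmul_eq_mul, mul_eq_zero] at h2
    rw [h2.resolve_left (by exact_mod_cast hk.ne'), smul_zero]
  -- the element of `K_1(∏ ℚ_p[G])`
  let y : K1 (MonoidAlgebra (Qp S) G) :=
    ∑ i, ε i • K1.map (evz (Qp S) (δ i).φ (δ i).z (δ i).comm) (K1.unit (btU (δ i).f (δ i).hf))
  have hy : dB S G (K1.map (cst _) y) = K0.map (cst _) w := by
    rw [map_sum, map_sum, map_sum]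
    refine Finset.sum_congr rfl fun i _ => ?_
    rw [map_zsmul, map_zsmul, map_zsmul, cst_jz]
  have htor : IsOfFinAddOrder (dB S G (K1.map (cst _) y)) := by
    rw [hy]
    exact (K0.map (cst _)).isOfFinAddOrder hw
  obtain ⟨k, hk, B, hB⟩ := hDet S G (dB S G) (dB_spec S G) y htor
  have hkq : (k : ℚ) ≠ 0 := by exact_mod_cast hk.ne'
  obtain ⟨L, hL⟩ := ex_lf B
  have hfin : ∑ i, Th0 specVB S l (δ i).C (δ i).φ (δ i).z (bz0 S (ε i) (δ i)) = 0 := by
    refine specLIN0 S G (fun C _ _ φ z => Th0 specVB S l C φ z)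
      (fun C C' _ _ _ _ φ φ' f g h _ _ _ z hz b b' hb =>
        Th0_nat specVB S l C C' φ φ' f g h z hz b b' hb)
      (fun C _ _ φ _ _ z z' hz hz' b => Th0_add specVB S l C φ z z' hz hz' b)
      (fun C _ _ φ _ pr z hz r hr b hb => by
        rw [Th0_of specVB S l C φ z hz]
        exact ThL_rat specVB specRES S _ pr r hr b hb)
      (fun C _ _ φ _ _ z hz b hb => by
        rw [Th0_of specVB S l C φ z hz]
        exact ThL_int specVB specRES S _ b hb)
      (fun C _ _ φ hφ _ hc hn p hp hpn z hz hk b =>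
        Th0_dv specVB S l hl0 C φ hφ hc hn p hp hpn z hz hk b) n (fun i => (δ i).C)
      (fun i => (δ i).φ) (fun i => (δ i).inj) (fun i => (δ i).pr) (fun i => (δ i).z)
      (fun i => (δ i).comm) (fun i => bz0 S (ε i) (δ i)) ((k : ℚ)⁻¹ • L) ?_
    intro θ hθ p h1 h2
    have hθp : IsCoc fun a h => ((θ a h : ℚ) : ℚ_[((p : Nat.Primes) : ℕ)]) := by
      intro a b h
      show ((θ (a * b) h : ℚ) : ℚ_[((p : Nat.Primes) : ℕ)]) = _
      rw [hθ a b h, Rat.cast_add]
    have h3 := hB θ hθ p hθp h1 h2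
    have h4 : DK hθp (K1.map (prp S G p) y) = ∑ i, ∑ c : (δ i).C,
        (bz0 S (ε i) (δ i) : MonoidAlgebra (Qp S) (δ i).C).coeff c p *
          ((θ (δ i).z ((δ i).φ c) : ℚ) : ℚ_[((p : Nat.Primes) : ℕ)]) := by
      rw [map_sum, map_sum]
      refine Finset.sum_congr rfl fun i _ => ?_
      rw [map_zsmul, map_zsmul, hVal, Finset.smul_sum]
      refine Finset.sum_congr rfl fun c _ => ?_
      rw [bz0_val, MonoidAlgebra.coeff_smul, Finsupp.smul_apply, Pi.smul_apply, smul_mul_assoc]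
    have h5 : LIN0.lf ((k : ℚ)⁻¹ • L) θ = (k : ℚ)⁻¹ * DK hθ B := by rw [LIN0.lf_smul, hL θ hθ]
    refine h4.symm.trans ?_
    show _ = ((LIN0.lf ((k : ℚ)⁻¹ • L) θ : ℚ) : ℚ_[((p : Nat.Primes) : ℕ)])
    have hkp : (k : ℚ_[((p : Nat.Primes) : ℕ)]) ≠ 0 := by exact_mod_cast hk.ne'
    rw [h5, Rat.cast_mul, Rat.cast_inv, Rat.cast_natCast, ← h3, nsmul_eq_mul,
      inv_mul_cancel_left₀ hkp]
  rw [ht, map_sum, ← hfin]
  refine Finset.sum_congr rfl fun i _ => ?_
  rw [map_zsmul, Th0_of specVB S l _ _ _ (δ i).comm, ThL_bz0]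
  rfl

/-- Injectivity up to `DSub G`. -/
theorem inj_of (hSec : SpecSEC.{u}) (hArt : SpecART.{u}) (hGen : SpecGEN.{u})
    (hDet : SpecDET0.{u}) (hVal : SpecVAL.{u}) (G : Type u) [Group G]
    (a : FreeAbelianGroup (Lft G)) (himg : IsOfFinAddOrder (FreeAbelianGroup.lift Lft.img a)) :
    ∃ k : ℕ, 0 < k ∧ k • FreeAbelianGroup.lift Lft.src a ∈ DSub G := by
  by_cases h : IsOfFinAddOrder
      (QuotientAddGroup.mk' (DSub G) (FreeAbelianGroup.lift Lft.src a))
  · obtain ⟨k, hk, h1⟩ := isOfFinAddOrder_iff_nsmul_eq_zero.1 h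
    refine ⟨k, hk, ?_⟩
    rw [← map_nsmul] at h1
    exact (QuotientAddGroup.eq_zero_iff _).1 h1
  · obtain ⟨l, hl⟩ := exists_lam _ h
    refine absurd (main_l hSec hArt hGen hDet hVal G (l.comp (QuotientAddGroup.mk' (DSub G)))
      (fun d hd => ?_) a himg) hl
    have h2 : QuotientAddGroup.mk' (DSub G) d = 0 := (QuotientAddGroup.eq_zero_iff _).2 hd
    rw [AddMonoidHom.comp_apply, h2, map_zero]

/-- Under the condition `Cond G` the group `DSub G` is a torsion group. -/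
theorem tor_of (G : Type u) [Group G] (hcond : Cond G) (x : S0 G) (hx : x ∈ DSub G) :
    IsOfFinAddOrder x := by
  suffices h : DSub G ≤ AddCommGroup.torsion (S0 G) from h hx
  refine (AddSubgroup.closure_le _).2 ?_
  rintro s ⟨⟨H, z, hz, k⟩, p, hcyc, hn, hp, hpn, hk, rfl⟩
  show IsOfFinAddOrder _
  by_contra hcon
  obtain ⟨l, hl⟩ := exists_lam _ hcon
  apply hl
  have hmem : ∀ y : Subgroup.centralizer (H.1 : Set G), ∀ h ∈ H.1, (y : G) * h = h * y :=
    fun y h hh => ((Subgroup.mem_centralizer_iff.1 y.2) h hh).symm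
  let f : Subgroup.centralizer (H.1 : Set G) → ℚ := fun y => l (S0.cls ⟨H, y, hmem y, k⟩)
  have hf : ∀ y y', f (y * y') = f y + f y' := by
    intro y y'
    show l (S0.cls ⟨H, (y : G) * (y' : G), _, k⟩) = _
    rw [cls_mul H y y' (hmem y) (hmem y') k, map_add]
  let g : Subgroup.centralizer (H.1 : Set G) →* Multiplicative ℚ :=
    MonoidHom.mk' (fun y => Multiplicative.ofAdd (f y)) (fun y y' => by rw [hf y y', ofAdd_add])
  have hzc : z ∈ Subgroup.centralizer (H.1 : Set G) :=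
    Subgroup.mem_centralizer_iff.2 fun h hh => (hz h hh).symm
  have h1 : g ⟨z, hzc⟩ = 1 := hcond H.1 p H.2 hcyc hn hp hpn z hk g ⟨z, hzc⟩ rfl
  exact h1

end FIN0

open FIN0 in
theorem specFinal0_of (hSec : SpecSEC.{u}) (hArt : SpecART.{u}) (hGen : SpecGEN.{u})
    (hDet : SpecDET0.{u}) (hVal : SpecVAL.{u}) : SpecFinal0.{u} where
  wd G _ a h := wd_of hSec hArt hGen G a h
  inj G _ m a h := by
    have h0 : m = 0 := zero_of_rank m _ (rk0_img a) h
    subst h0
    rw [zero_smul, zero_add] at h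
    exact ⟨rfl, inj_of hSec hArt hGen hDet hVal G a h⟩
  tor G _ hcond x hx := tor_of G hcond x hx

end Pool.Agent.Lib.MPb6f35e.Z0
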