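import Pool.Agent.Lib.MP_b6f35e_al.Z0.LINB

/-!
# Z0, module LIN0: `specLIN0` (MP_b6f35e_al)
-/

set_option autoImplicit false

noncomputable section

namespace Pool.Agent.Lib.MPb6f35e.Z0

open Pool.Agent.Lib.MPb6f35e.WH (FinSub conjHom K1)
open Pool.Agent.Lib.MPb6f35e.ZK
open Pool.Agent.Lib.MPb6f35e.ZK.LINMod (Pr mR cR sysR NR key)
open Pool.Agent.Lib.MPb6f35e.W2 (IsCoc DK)

universe u v w t

namespace LIN0

variable {S : Finset Nat.Primes} {G : Type u} [Group G]

lemma val_add {C : Type u} [CommGroup C] [Fintype C] (φ : C →* G) (z : G)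
    (x y : RV (MonoidAlgebra (Qp S) C)) (θ : G → G → ℚ) :
    val φ z (x + y) θ = val φ z x θ + val φ z y θ := by
  unfold val
  rw [← Finset.sum_add_distrib]
  refine Finset.sum_congr rfl fun c _ => ?_
  rw [← smul_add]
  rfl

/-- the value as an additive map -/
def valH {C : Type u} [CommGroup C] [Fintype C] (φ : C →* G) (z : G) (θ : G → G → ℚ) :
    RV (MonoidAlgebra (Qp S) C) →+ Qp S :=
  AddMonoidHom.mk' (fun x => val φ z x θ) (fun x y => val_add φ z x y θ)

lemma val_map {C D : Type u} [CommGroup C] [Fintype C] [CommGroup D] [Fintype D]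
    (hC : Pr S (Nat.card C)) (hD : Pr S (Nat.card D)) (φ : C →* G) (f : D →* C)
    (hf : Function.Injective f) (z : G) (x : RV (MonoidAlgebra (Qp S) D)) (θ : G → G → ℚ) :
    val (φ.comp f) z x θ = val φ z (mR S f x) θ := by
  unfold val
  apply Finset.sum_of_injOn f
  · exact hf.injOn
  · intro d _
    exact Finset.mem_coe.2 (Finset.mem_univ _)
  · intro c _ hc
    have h := (sysR.{u} S).map_not D C hD hC f hf x c (by
      rintro ⟨d, hd⟩
      exact hc ⟨d, Finset.mem_coe.2 (Finset.mem_univ _), hd⟩)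
    have h' : cR S C (mR S f x) c = 0 := h
    rw [h', smul_zero]
  · intro d _
    have h := (sysR.{u} S).map D C hD hC f hf x d
    have h' : cR S C (mR S f x) (f d) = cR S D x d := h
    rw [h']
    rfl

omit [Group G] in
lemma lf_smul (N : ℚ) (L : (G × G) →₀ ℚ) (θ : G → G → ℚ) : lf (N • L) θ = N * lf L θ := by
  unfold lf
  rw [Finsupp.sum_smul_index (fun _ => zero_mul _), Finsupp.sum, Finsupp.sum, Finset.mul_sum]
  exact Finset.sum_congr rfl fun q _ => mul_assoc _ _ _

open Classical in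
theorem main0 (D : Dat.{u} S G) {m : ℕ} (C : Fin m → Type u)
    [∀ j, CommGroup (C j)] [∀ j, Fintype (C j)] (hC : ∀ j, Pr S (Nat.card (C j)))
    (φ : ∀ j, C j →* G) (hφ : ∀ j, Function.Injective (φ j)) (z : Fin m → G)
    (hz : ∀ j c, z j * φ j c = φ j c * z j) (b : ∀ j, RV (MonoidAlgebra (Qp S) (C j)))
    (L : (G × G) →₀ ℚ) (hb : Hyp C φ z b Finset.univ L) :
    ∑ j, D.Θ (C j) (φ j) (z j) (b j) = 0 := by
  have : ∀ j, Fintype (Subgroup (C j)) := fun j => Fintype.ofFinite _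
  have hP : ∀ m n : ℕ, m ∣ n → Pr S n → Pr S m := fun m n hmn h p hp => h p (hp.trans hmn)
  choose M hM zz hzz hdec using fun j => WH.LIN.dec (sysR.{u} S) hP (C j) (hC j) (b j)
  set N := ∏ j, M j with hN
  have hNpos : 0 < N := Finset.prod_pos fun j _ => hM j
  have hdiv : ∀ j, N / M j * M j = N := fun j =>
    Nat.div_mul_cancel (Finset.dvd_prod_of_mem _ (Finset.mem_univ j))
  let C' : (Σ j, Subgroup (C j)) → Type u := fun a => a.2
  let iG : ∀ a, CommGroup (C' a) := fun a => inferInstanceAs (CommGroup a.2)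
  let iF : ∀ a, Fintype (C' a) := fun a => Fintype.ofFinite _
  let φ' : ∀ a, C' a →* G := fun a => (φ a.1).comp a.2.subtype
  let x' : ∀ a, RV (MonoidAlgebra (Qp S) (C' a)) := fun a => (N / M a.1) •
    (zz a.1 a.2 : RV (MonoidAlgebra (Qp S) (a.2 : Subgroup (C a.1))))
  have hC' : ∀ a, Pr S (Nat.card (C' a)) := fun a =>
    hP _ _ (Subgroup.card_subgroup_dvd_card a.2) (hC a.1)
  have hφ' : ∀ a, Function.Injective (φ' a) := fun a => (hφ a.1).comp a.2.subtype_injective
  have hsum : ∀ j, ∑ E : Subgroup (C j), mR S E.subtype (x' ⟨j, E⟩) = N • b j := by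
    intro j
    have h1 : ∀ E ∈ (Finset.univ : Finset (Subgroup (C j))),
        mR S E.subtype (x' ⟨j, E⟩) = (N / M j) • mR S E.subtype (zz j E) := by
      intro E _
      exact map_nsmul (mR S E.subtype) (N / M j) (zz j E)
    rw [Finset.sum_congr rfl h1, Finset.sum_nsmul]
    have h2 : M j • b j = ∑ E : Subgroup (C j), mR S E.subtype (zz j E) := hdec j
    rw [← h2, ← mul_nsmul', hdiv]
  have h := orb0 D C' hC' φ' hφ' (fun a => z a.1)
    (fun a c => hz a.1 (c : C a.1)) x' (by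
      rintro ⟨j, E⟩ d hd
      show cR S E ((N / M j) • (zz j E : RV (MonoidAlgebra (Qp S) E))) d = 0
      have h1 : cR S E (zz j E) d = if Subgroup.zpowers d = ⊤ then M j • cR S (C j) (b j) d else 0 :=
        hzz j E d
      rw [if_neg hd] at h1
      refine (congrFun (map_nsmul (cR S E) (N / M j) (zz j E)) d).trans ?_
      rw [Pi.smul_apply]
      exact (congrArg (fun v => (N / M j) • v) h1).trans (smul_zero _)) Finset.univ
    ((N : ℚ) • L) (by
      intro θ hθ p h1 h2
      have h3 := hb θ hθ p h1 h2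
      have h4 : ∑ a, val (φ' a) (z a.1) (x' a) θ = N • ∑ j, val (φ j) (z j) (b j) θ := by
        rw [Fintype.sum_sigma, Finset.smul_sum]
        refine Finset.sum_congr rfl fun j _ => ?_
        have h5 : N • val (φ j) (z j) (b j) θ = valH (φ j) (z j) θ (N • b j) :=
          (map_nsmul (valH (φ j) (z j) θ) N (b j)).symm
        rw [h5, ← hsum j, map_sum]
        refine Finset.sum_congr rfl fun E _ => ?_
        let _ : Fintype E := iF ⟨j, E⟩
        exact val_map (hC j) (hC' ⟨j, E⟩) (φ j) E.subtype E.subtype_injective (z j) (x' ⟨j, E⟩) θ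
      show (∑ a, val (φ' a) (z a.1) (x' a) θ) p = _
      rw [h4, Pi.smul_apply, h3, lf_smul, Rat.cast_mul, Rat.cast_natCast, nsmul_eq_mul])
  have h5 : ∑ a, D.Θ (C' a) (φ' a) (z a.1) (x' a) =
      N • ∑ j, D.Θ (C j) (φ j) (z j) (b j) := by
    rw [Fintype.sum_sigma, Finset.smul_sum]
    refine Finset.sum_congr rfl fun j _ => ?_
    rw [← map_nsmul, ← hsum j, map_sum]
    refine Finset.sum_congr rfl fun E _ => ?_
    have h6 := D.nat E (C j) (φ' ⟨j, E⟩) (φ j) E.subtype 1 (fun c => by simp [φ'])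
      (hφ' ⟨j, E⟩) (hφ j) (hC j) (z j) (hz j) (x' ⟨j, E⟩) (mR S E.subtype (x' ⟨j, E⟩)) rfl
    rw [h6]
    simp only [inv_one, one_mul, mul_one]
    rfl
  rw [h5, nsmul_eq_mul, mul_eq_zero] at h
  exact h.resolve_left (by exact_mod_cast hNpos.ne')

end LIN0

open LIN0 in
theorem specLIN0 : SpecLIN0.{u} := by
  intro S G _ Θ hnat hadd hrat hvan hdv m C _ _ φ hφ hC z hz b L hb
  let D : Dat S G := ⟨Θ, hnat, hadd, hrat, hvan, hdv⟩
  refine main0 D C hC φ hφ z hz b L ?_
  intro θ hθ p h1 h2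
  refine Eq.trans ?_ (hb θ hθ p h1 h2)
  rw [Finset.sum_apply]
  refine Finset.sum_congr rfl fun i _ => ?_
  unfold val
  rw [Finset.sum_apply]
  refine Finset.sum_congr rfl fun c _ => ?_
  rw [Pi.smul_apply, Rat.smul_def, mul_comm]
  rfl

end Pool.Agent.Lib.MPb6f35e.Z0
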