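import Pool.Agent.Lib.MP_b6f35e_al.Z0.EVZ
import Pool.Agent.Lib.MP_b6f35e_al.Z0.LIN0

/-!
# Z0, module FIN0: the functionals on `S0 G` and generation (MP_b6f35e_al)
-/

set_option autoImplicit false

noncomputable section

namespace Pool.Agent.Lib.MPb6f35e.Z0

open Pool.Agent.Lib.MPb6f35e.WH (FinSub conjHom K1)
open Pool.Agent.Lib.MPb6f35e.ZK
open Pool.Agent.Lib.MPb6f35e.ZK.FinMod (dB dB_spec dB_nat unit_mul satur mem_satur
  satur_of_nsmul exists_lam rg Km1_md_comp map_unit_btU)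
open Pool.Agent.Lib.MPb6f35e.W2 (IsCoc DK)
open EVZ

universe u v w

namespace FIN0

/-! ### functionals on `K_{-1}(ℤ[C])` -/

section phi

variable {G : Type u} [Group G] (l : K0 (MonoidAlgebra ℤ G) →+ ℚ)

lemma ker_phi (hSec : SpecSEC.{u}) {C : Type u} [Group C] [Finite C] (φ : C →* G) (z : G)
    (hz : ∀ c, z * φ c = φ c * z) :
    extSub (MonoidAlgebra ℤ C) ≤ (l.comp (jz φ z hz)).ker := by
  intro x hx
  have h0 : Km1.mk (MonoidAlgebra ℤ C) x = 0 := (QuotientAddGroup.eq_zero_iff x).2 hx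
  obtain ⟨n, hn, h1⟩ := isOfFinAddOrder_iff_nsmul_eq_zero.1 (hSec C x h0)
  rw [← map_nsmul] at h1
  have h2 : n • x ∈ cSub (MonoidAlgebra ℤ C) := (QuotientAddGroup.eq_zero_iff _).1 h1
  have h3 := jz_const φ z hz _ h2
  rw [map_nsmul] at h3
  have h4 : n • l (jz φ z hz x) = 0 := by rw [← map_nsmul, h3, map_zero]
  rw [nsmul_eq_mul, mul_eq_zero] at h4
  exact h4.resolve_left (by exact_mod_cast hn.ne')

/-- `Km1.mk x ↦ l (x(z) - x(1))` -/
def phi (hSec : SpecSEC.{u}) {C : Type u} [Group C] [Finite C] (φ : C →* G) (z : G)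
    (hz : ∀ c, z * φ c = φ c * z) : Km1 (MonoidAlgebra ℤ C) →+ ℚ :=
  QuotientAddGroup.lift (extSub (MonoidAlgebra ℤ C)) (l.comp (jz φ z hz)) (ker_phi l hSec φ z hz)

lemma phi_mk (hSec : SpecSEC.{u}) {C : Type u} [Group C] [Finite C] (φ : C →* G) (z : G)
    (hz : ∀ c, z * φ c = φ c * z) (x : K0 (Lau (MonoidAlgebra ℤ C))) :
    phi l hSec φ z hz (Km1.mk _ x) = l (jz φ z hz x) := rfl

lemma phi_group (hSec : SpecSEC.{u}) {C C' : Type u} [Group C] [Finite C] [Group C'] [Finite C']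
    (φ : C →* G) (φ' : C' →* G) (f : C →* C') (hf : ∀ c, φ' (f c) = φ c)
    (z : G) (hz : ∀ c, z * φ c = φ c * z) (hz' : ∀ c, z * φ' c = φ' c * z)
    (k : Km1 (MonoidAlgebra ℤ C)) :
    phi l hSec φ' z hz' (Km1.map (MonoidAlgebra.mapDomainRingHom ℤ f) k) =
      phi l hSec φ z hz k := by
  obtain ⟨x, rfl⟩ := Km1.mk_surjective _ k
  rw [Km1.map_mk, phi_mk, phi_mk, jz_group φ φ' f hf z hz hz']

lemma phi_conj (hSec : SpecSEC.{u}) {C C' : Type u} [Group C] [Finite C] [Group C'] [Finite C']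
    (φ : C →* G) (φ' : C' →* G) (f : C →* C') (g : G) (hf : ∀ c, φ' (f c) = g * φ c * g⁻¹)
    (z : G) (hz : ∀ c, z * φ' c = φ' c * z)
    (hz' : ∀ c, g⁻¹ * z * g * φ c = φ c * (g⁻¹ * z * g)) (k : Km1 (MonoidAlgebra ℤ C)) :
    phi l hSec φ' z hz (Km1.map (MonoidAlgebra.mapDomainRingHom ℤ f) k) =
      phi l hSec φ (g⁻¹ * z * g) hz' k := by
  obtain ⟨x, rfl⟩ := Km1.mk_surjective _ k
  rw [Km1.map_mk, phi_mk, phi_mk, jz_conj φ φ' f g hf z hz hz']

/-- Additivity in `z`, `C` commutative. -/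
lemma phi_mul_comm (hSec : SpecSEC.{u}) (hGen : SpecGEN.{u}) {C : Type u} [CommGroup C] [Finite C]
    (φ : C →* G) (z z' : G) (hz : ∀ c, z * φ c = φ c * z) (hz' : ∀ c, z' * φ c = φ c * z')
    (hzz : ∀ c, z * z' * φ c = φ c * (z * z')) (k : Km1 (MonoidAlgebra ℤ C)) :
    phi l hSec φ (z * z') hzz k = phi l hSec φ z hz k + phi l hSec φ z' hz' k := by
  let S : Finset Nat.Primes := Finset.subtype Nat.Prime (Nat.primeFactors (Nat.card C))
  have pr : ∀ p : Nat.Primes, (p : ℕ) ∣ Nat.card C → p ∈ S := fun p hp =>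
    Finset.mem_subtype.2 (Nat.mem_primeFactors.2 ⟨p.2, hp, Nat.card_pos.ne'⟩)
  obtain ⟨m, hm, a, ε, f, hf, e⟩ := hGen C S pr (dB S C) (dB_spec S C) k
  have h1 : m • phi l hSec φ (z * z') hzz k =
      m • (phi l hSec φ z hz k + phi l hSec φ z' hz' k) := by
    rw [smul_add, ← map_nsmul, ← map_nsmul, ← map_nsmul, e, map_sum, map_sum, map_sum,
      ← Finset.sum_add_distrib]
    refine Finset.sum_congr rfl fun j _ => ?_
    rw [map_zsmul, map_zsmul, map_zsmul, phi_mk, phi_mk, phi_mk,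
      jz_mul S φ z z' hz hz' hzz (f j) (hf j), map_add, smul_add]
  rw [nsmul_eq_mul, nsmul_eq_mul] at h1
  exact mul_left_cancel₀ (by exact_mod_cast hm.ne') h1

/-- Additivity in `z`. -/
lemma phi_mul (hSec : SpecSEC.{u}) (hArt : SpecART.{u}) (hGen : SpecGEN.{u}) {C : Type u}
    [Group C] [Finite C] (φ : C →* G) (z z' : G) (hz : ∀ c, z * φ c = φ c * z)
    (hz' : ∀ c, z' * φ c = φ c * z') (hzz : ∀ c, z * z' * φ c = φ c * (z * z'))
    (k : Km1 (MonoidAlgebra ℤ C)) :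
    phi l hSec φ (z * z') hzz k = phi l hSec φ z hz k + phi l hSec φ z' hz' k := by
  obtain ⟨m, hm, a, D, hD, y, e⟩ := hArt C k
  have h1 : m • phi l hSec φ (z * z') hzz k =
      m • (phi l hSec φ z hz k + phi l hSec φ z' hz' k) := by
    rw [smul_add, ← map_nsmul, ← map_nsmul, ← map_nsmul, e, map_sum, map_sum, map_sum,
      ← Finset.sum_add_distrib]
    refine Finset.sum_congr rfl fun i _ => ?_
    have _ := hD i
    let _ : CommGroup (D i) := IsCyclic.commGroup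
    rw [phi_group l hSec (φ.comp (D i).subtype) φ (D i).subtype (fun c => rfl) (z * z')
        (fun c => hzz c) hzz,
      phi_group l hSec (φ.comp (D i).subtype) φ (D i).subtype (fun c => rfl) z
        (fun c => hz c) hz,
      phi_group l hSec (φ.comp (D i).subtype) φ (D i).subtype (fun c => rfl) z'
        (fun c => hz' c) hz']
    exact phi_mul_comm l hSec hGen (φ.comp (D i).subtype) z z' (fun c => hz c) (fun c => hz' c)
      (fun c => hzz c) (y i)
  rw [nsmul_eq_mul, nsmul_eq_mul] at h1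
  exact mul_left_cancel₀ (by exact_mod_cast hm.ne') h1

/-- The functional on the free abelian group. -/
def Phi0 (hSec : SpecSEC.{u}) : FreeAbelianGroup (Gen G) →+ ℚ :=
  FreeAbelianGroup.lift fun x => by
    have := x.H.2
    exact phi l hSec x.H.1.subtype x.z (fun h => x.comm h h.2) x.k

lemma Phi0_of (hSec : SpecSEC.{u}) (H : FinSub G) [Finite H.1] (z : G)
    (hz : ∀ h ∈ H.1, z * h = h * z) (k : Km1 (MonoidAlgebra ℤ H.1)) :
    Phi0 l hSec (FreeAbelianGroup.of ⟨H, z, hz, k⟩) =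
      phi l hSec H.1.subtype z (fun h => hz h h.2) k := by
  unfold Phi0
  rw [FreeAbelianGroup.lift_apply_of]

lemma Phi0_rel (hSec : SpecSEC.{u}) (hArt : SpecART.{u}) (hGen : SpecGEN.{u}) :
    AddSubgroup.closure {x | Rel G x} ≤ (Phi0 l hSec).ker := by
  rw [AddSubgroup.closure_le]
  rintro x (⟨H, z, hz, k, k'⟩ | ⟨H, z, z', hz, hz', k⟩ | ⟨H, K, g, h, z, hz, k⟩)
  · have _ := H.2
    show Phi0 l hSec _ = 0
    rw [map_sub, map_sub, Phi0_of, Phi0_of, Phi0_of, map_add]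
    ring
  · have _ := H.2
    show Phi0 l hSec _ = 0
    rw [map_sub, map_sub, Phi0_of, Phi0_of, Phi0_of, sub_sub]
    exact sub_eq_zero.2 (phi_mul l hSec hArt hGen H.1.subtype z z' (fun h => hz h h.2)
      (fun h => hz' h h.2) (fun h => comm_mul hz hz' h h.2) k)
  · have _ := H.2
    have _ := K.2
    show Phi0 l hSec _ = 0
    rw [map_sub, Phi0_of, Phi0_of, phi_conj l hSec H.1.subtype K.1.subtype
      (conjHom g H.1 K.1 h) g (fun c => rfl) z (fun c => hz c c.2)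
      (fun c => comm_conj h hz c c.2), sub_self]

/-- The functional on `S0 G`. -/
def Phi (hSec : SpecSEC.{u}) (hArt : SpecART.{u}) (hGen : SpecGEN.{u}) : S0 G →+ ℚ :=
  QuotientAddGroup.lift _ (Phi0 l hSec) (Phi0_rel l hSec hArt hGen)

lemma Phi_cls (hSec : SpecSEC.{u}) (hArt : SpecART.{u}) (hGen : SpecGEN.{u}) (H : FinSub G)
    [Finite H.1] (z : G) (hz : ∀ h ∈ H.1, z * h = h * z) (k : Km1 (MonoidAlgebra ℤ H.1)) :
    Phi l hSec hArt hGen (S0.cls ⟨H, z, hz, k⟩) =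
      phi l hSec H.1.subtype z (fun h => hz h h.2) k :=
  Phi0_of l hSec H z hz k

lemma Phi_src (hSec : SpecSEC.{u}) (hArt : SpecART.{u}) (hGen : SpecGEN.{u})
    (a : FreeAbelianGroup (Lft G)) :
    Phi l hSec hArt hGen (FreeAbelianGroup.lift Lft.src a) =
      l (FreeAbelianGroup.lift Lft.img a) := by
  have h : (Phi l hSec hArt hGen).comp (FreeAbelianGroup.lift Lft.src) =
      l.comp (FreeAbelianGroup.lift Lft.img) := by
    apply FreeAbelianGroup.lift_ext
    rintro ⟨H, z, hz, x⟩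
    have _ := H.2
    rw [AddMonoidHom.comp_apply, AddMonoidHom.comp_apply, FreeAbelianGroup.lift_apply_of,
      FreeAbelianGroup.lift_apply_of]
    exact (Phi_cls l hSec hArt hGen H z hz _).trans (phi_mk l hSec _ _ _ _)
  exact DFunLike.congr_fun h a

end phi

/-- The relations hold up to torsion. -/
theorem wd_of (hSec : SpecSEC.{u}) (hArt : SpecART.{u}) (hGen : SpecGEN.{u}) (G : Type u) [Group G]
    (a : FreeAbelianGroup (Lft G)) (h : IsOfFinAddOrder (FreeAbelianGroup.lift Lft.src a)) :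
    IsOfFinAddOrder (FreeAbelianGroup.lift Lft.img a) := by
  by_contra hcon
  obtain ⟨l, hl⟩ := exists_lam _ hcon
  apply hl
  rw [← Phi_src l hSec hArt hGen]
  have h1 := (Phi l hSec hArt hGen).isOfFinAddOrder h
  obtain ⟨n, hn, h2⟩ := isOfFinAddOrder_iff_nsmul_eq_zero.1 h1
  rw [nsmul_eq_mul, mul_eq_zero] at h2
  exact h2.resolve_left (by exact_mod_cast hn.ne')

end FIN0

end Pool.Agent.Lib.MPb6f35e.Z0
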