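import Pool.Agent.Lib.MP_b6f35e_al.Z0.FIN0A

/-!
# Z0, module FIN0: generation of `S0 G` and the linear functions (MP_b6f35e_al)
-/

set_option autoImplicit false

noncomputable section

namespace Pool.Agent.Lib.MPb6f35e.Z0

open Pool.Agent.Lib.MPb6f35e.WH (FinSub conjHom K1)
open Pool.Agent.Lib.MPb6f35e.ZK
open Pool.Agent.Lib.MPb6f35e.ZK.FinMod (dB dB_spec dB_nat unit_mul satur mem_satur
  satur_of_nsmul exists_lam rg Km1_md_comp map_unit_btU RV_ext gam elt elt_add elt_rat elt_int wS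
  wS_apply assembly_gam rat_smul_int)
open Pool.Agent.Lib.MPb6f35e.W2 (IsCoc DK)
open EVZ

universe u v w

namespace FIN0

section rel

variable {G : Type u} [Group G]

lemma cls_congr {H : FinSub G} {z z' : G} (h : z = z') (hz : ∀ h ∈ H.1, z * h = h * z)
    (hz' : ∀ h ∈ H.1, z' * h = h * z') {k k' : Km1 (MonoidAlgebra ℤ H.1)} (hk : k = k') :
    S0.cls ⟨H, z, hz, k⟩ = S0.cls ⟨H, z', hz', k'⟩ := by
  subst h
  subst hk
  rfl

lemma cls_add (H : FinSub G) (z : G) (hz : ∀ h ∈ H.1, z * h = h * z)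
    (k k' : Km1 (MonoidAlgebra ℤ H.1)) :
    S0.cls ⟨H, z, hz, k + k'⟩ = S0.cls ⟨H, z, hz, k⟩ + S0.cls ⟨H, z, hz, k'⟩ := by
  have h1 := (QuotientAddGroup.eq_zero_iff _).2 (AddSubgroup.subset_closure
    (Rel.add H z hz k k') : _ ∈ AddSubgroup.closure {x | Rel G x})
  have h2 : S0.cls ⟨H, z, hz, k + k'⟩ - S0.cls ⟨H, z, hz, k⟩ - S0.cls ⟨H, z, hz, k'⟩ = 0 := h1
  rw [sub_sub, sub_eq_zero] at h2
  exact h2

lemma cls_mul (H : FinSub G) (z z' : G) (hz : ∀ h ∈ H.1, z * h = h * z)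
    (hz' : ∀ h ∈ H.1, z' * h = h * z') (k : Km1 (MonoidAlgebra ℤ H.1)) :
    S0.cls ⟨H, z * z', comm_mul hz hz', k⟩ = S0.cls ⟨H, z, hz, k⟩ + S0.cls ⟨H, z', hz', k⟩ := by
  have h1 := (QuotientAddGroup.eq_zero_iff _).2 (AddSubgroup.subset_closure
    (Rel.mul H z z' hz hz' k) : _ ∈ AddSubgroup.closure {x | Rel G x})
  have h2 : S0.cls ⟨H, z * z', comm_mul hz hz', k⟩ - S0.cls ⟨H, z, hz, k⟩ -
    S0.cls ⟨H, z', hz', k⟩ = 0 := h1
  rw [sub_sub, sub_eq_zero] at h2
  exact h2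

lemma cls_conj (H K : FinSub G) (g : G) (h : ∀ x ∈ H.1, g * x * g⁻¹ ∈ K.1) (z : G)
    (hz : ∀ x ∈ K.1, z * x = x * z) (k : Km1 (MonoidAlgebra ℤ H.1)) :
    S0.cls ⟨K, z, hz, Km1.map (MonoidAlgebra.mapDomainRingHom ℤ (conjHom g H.1 K.1 h)) k⟩ =
      S0.cls ⟨H, g⁻¹ * z * g, comm_conj h hz, k⟩ := by
  have h1 := (QuotientAddGroup.eq_zero_iff _).2 (AddSubgroup.subset_closure
    (Rel.conj H K g h z hz k) : _ ∈ AddSubgroup.closure {x | Rel G x})
  have h2 : S0.cls ⟨K, z, hz, Km1.map (MonoidAlgebra.mapDomainRingHom ℤ (conjHom g H.1 K.1 h)) k⟩ -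
      S0.cls ⟨H, g⁻¹ * z * g, comm_conj h hz, k⟩ = 0 := h1
  exact sub_eq_zero.1 h2

lemma comm_rg {C : Type u} [Group C] [Finite C] (φ : C →* G) {z : G}
    (hz : ∀ c, z * φ c = φ c * z) : ∀ h ∈ (rg φ).1, z * h = h * z := by
  rintro h ⟨c, rfl⟩
  exact hz c

/-- `C → φ(C)` -/
def rr {C : Type u} [Group C] [Finite C] (φ : C →* G) : C →* (rg φ).1 := φ.rangeRestrict

/-- `(φ, z, k)` as an element of `S0 G`. -/
def gam0 {C : Type u} [Group C] [Finite C] (φ : C →* G) (z : G) (hz : ∀ c, z * φ c = φ c * z) :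
    Km1 (MonoidAlgebra ℤ C) →+ S0 G :=
  AddMonoidHom.mk' (fun k => S0.cls ⟨rg φ, z, comm_rg φ hz,
    Km1.map (MonoidAlgebra.mapDomainRingHom ℤ (rr φ)) k⟩) (fun k k' =>
    (cls_congr rfl _ _ (map_add _ k k')).trans (cls_add _ _ _ _ _))

lemma gam0_apply {C : Type u} [Group C] [Finite C] (φ : C →* G) (z : G)
    (hz : ∀ c, z * φ c = φ c * z) (k : Km1 (MonoidAlgebra ℤ C)) :
    gam0 φ z hz k = S0.cls ⟨rg φ, z, comm_rg φ hz,
      Km1.map (MonoidAlgebra.mapDomainRingHom ℤ (rr φ)) k⟩ := rfl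

lemma gam0_mul {C : Type u} [Group C] [Finite C] (φ : C →* G) (z z' : G)
    (hz : ∀ c, z * φ c = φ c * z) (hz' : ∀ c, z' * φ c = φ c * z')
    (hzz : ∀ c, z * z' * φ c = φ c * (z * z')) (k : Km1 (MonoidAlgebra ℤ C)) :
    gam0 φ (z * z') hzz k = gam0 φ z hz k + gam0 φ z' hz' k :=
  cls_mul (rg φ) z z' (comm_rg φ hz) (comm_rg φ hz') _

lemma gam0_rel {C C' : Type u} [Group C] [Finite C] [Group C'] [Finite C'] (φ : C →* G)
    (φ' : C' →* G) (f : C →* C') (g : G) (h : ∀ c, φ' (f c) = g * φ c * g⁻¹) (z : G)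
    (hz : ∀ c, z * φ' c = φ' c * z) (hz' : ∀ c, g⁻¹ * z * g * φ c = φ c * (g⁻¹ * z * g))
    (k : Km1 (MonoidAlgebra ℤ C)) :
    gam0 φ' z hz (Km1.map (MonoidAlgebra.mapDomainRingHom ℤ f) k) =
      gam0 φ (g⁻¹ * z * g) hz' k := by
  have hmem : ∀ x ∈ (rg φ).1, g * x * g⁻¹ ∈ (rg φ').1 := by
    rintro x ⟨c, rfl⟩
    exact ⟨f c, h c⟩
  have h1 := Km1_md_comp f (rr φ') k
  have h2 := Km1_md_comp (rr φ) (conjHom g (rg φ).1 (rg φ').1 hmem) k
  have h3 : (rr φ').comp f = (conjHom g (rg φ).1 (rg φ').1 hmem).comp (rr φ) := by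
    refine MonoidHom.ext fun c => Subtype.ext ?_
    exact h c
  rw [h3] at h1
  have h4 := cls_conj (rg φ) (rg φ') g hmem z (comm_rg φ' hz)
    (Km1.map (MonoidAlgebra.mapDomainRingHom ℤ (rr φ)) k)
  exact (cls_congr rfl _ _ (h1.trans h2.symm)).trans h4

lemma gam0_congr {C : Type u} [Group C] [Finite C] (φ : C →* G) {z z' : G} (h : z = z')
    (hz : ∀ c, z * φ c = φ c * z) (hz' : ∀ c, z' * φ c = φ c * z')
    (k : Km1 (MonoidAlgebra ℤ C)) : gam0 φ z hz k = gam0 φ z' hz' k := by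
  subst h
  rfl

lemma cls_eq_gam0 (H : FinSub G) [Finite H.1] (z : G) (hz : ∀ h ∈ H.1, z * h = h * z)
    (k : Km1 (MonoidAlgebra ℤ H.1)) :
    S0.cls ⟨H, z, hz, k⟩ = gam0 H.1.subtype z (fun h => hz h h.2) k := by
  have hmem : ∀ x ∈ H.1, (1 : G) * x * (1 : G)⁻¹ ∈ (rg H.1.subtype).1 := by
    intro x hx
    exact ⟨⟨x, hx⟩, by simp⟩
  have h3 : conjHom 1 H.1 (rg H.1.subtype).1 hmem = rr H.1.subtype := by
    refine MonoidHom.ext fun c => Subtype.ext ?_
    show (1 : G) * c * (1 : G)⁻¹ = c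
    simp
  have h4 := cls_conj H (rg H.1.subtype) 1 hmem z
    (comm_rg H.1.subtype (fun h => hz h h.2)) k
  rw [h3] at h4
  refine Eq.trans ?_ h4.symm
  exact cls_congr (by simp) _ _ rfl

/-- Compatibility with the functional of `l : K_0(ℤ[G]) → ℚ`. -/
lemma Phi_gam0 (l : K0 (MonoidAlgebra ℤ G) →+ ℚ) (hSec : SpecSEC.{u}) (hArt : SpecART.{u})
    (hGen : SpecGEN.{u}) {C : Type u} [Group C] [Finite C] (φ : C →* G) (z : G)
    (hz : ∀ c, z * φ c = φ c * z) (k : Km1 (MonoidAlgebra ℤ C)) :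
    Phi l hSec hArt hGen (gam0 φ z hz k) = phi l hSec φ z hz k := by
  have _ : Finite (rg φ).1 := (rg φ).2
  exact (Phi_cls l hSec hArt hGen (rg φ) z (comm_rg φ hz) _).trans
    (phi_group l hSec φ (rg φ).1.subtype (rr φ) (fun c => rfl) z hz
      (fun h => comm_rg φ hz h h.2) k)

end rel

/-! ### generation -/

/-- Data of a generator. -/
structure Dat (S : Finset Nat.Primes) (G : Type u) [Group G] : Type (u + 1) where
  C : Type u
  cg : CommGroup C
  fin : Fintype C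
  φ : C →* G
  inj : Function.Injective φ
  pr : ∀ p : Nat.Primes, (p : ℕ) ∣ Nat.card C → p ∈ S
  z : G
  comm : ∀ c, z * φ c = φ c * z
  f : MonoidAlgebra (Qp S) C
  hf : f * f = f

attribute [instance] Dat.cg Dat.fin

/-- The element of `K_{-1}(ℤ[C])` of an idempotent. -/
def ek (S : Finset Nat.Primes) {C : Type u} [CommGroup C] (f : MonoidAlgebra (Qp S) C)
    (hf : f * f = f) : Km1 (MonoidAlgebra ℤ C) :=
  Km1.mk (MonoidAlgebra ℤ C) (dB S C (K1.unit (btU f hf)))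

/-- The element of `S0 G` of an idempotent. -/
def elt0 (S : Finset Nat.Primes) {G : Type u} [Group G] {C : Type u} [CommGroup C] [Finite C]
    (φ : C →* G) (z : G) (hz : ∀ c, z * φ c = φ c * z) (f : MonoidAlgebra (Qp S) C)
    (hf : f * f = f) : S0 G :=
  gam0 φ z hz (ek S f hf)

/-- The subgroup generated by these elements. -/
def T0 (S : Finset Nat.Primes) (G : Type u) [Group G] : AddSubgroup (S0 G) :=
  AddSubgroup.closure (Set.range fun δ : Dat S G => elt0 S δ.φ δ.z δ.comm δ.f δ.hf)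

lemma gam0_mem (hGen : SpecGEN.{u}) (S : Finset Nat.Primes) {G : Type u} [Group G] {C : Type u}
    [CommGroup C] [Finite C] (φ : C →* G) (inj : Function.Injective φ)
    (pr : ∀ p : Nat.Primes, (p : ℕ) ∣ Nat.card C → p ∈ S) (z : G)
    (hz : ∀ c, z * φ c = φ c * z) (y : Km1 (MonoidAlgebra ℤ C)) :
    gam0 φ z hz y ∈ satur (T0 S G) := by
  obtain ⟨m, hm, a, ε, f, hf, e⟩ := hGen C S pr (dB S C) (dB_spec S C) y
  refine ⟨m, hm, ?_⟩
  rw [← map_nsmul, e, map_sum]
  refine AddSubgroup.sum_mem _ fun j _ => ?_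
  rw [map_zsmul]
  refine AddSubgroup.zsmul_mem _ (AddSubgroup.subset_closure ?_) _
  exact ⟨⟨C, inferInstance, Fintype.ofFinite C, φ, inj, pr, z, hz, f j, hf j⟩, rfl⟩

lemma cls_mem (hArt : SpecART.{u}) (hGen : SpecGEN.{u}) {G : Type u} [Group G] (x : Gen G) :
    ∃ S₀ : Finset Nat.Primes, ∀ S, S₀ ⊆ S → S0.cls x ∈ satur (T0 S G) := by
  obtain ⟨H, z, hz, k⟩ := x
  have _ := H.2
  obtain ⟨m, hm, a, C, hC, y, e⟩ := hArt H.1 k
  refine ⟨Finset.subtype Nat.Prime (Nat.primeFactors (Nat.card H.1)), fun S hS => ?_⟩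
  apply satur_of_nsmul hm
  rw [cls_eq_gam0, ← map_nsmul, e, map_sum]
  refine AddSubgroup.sum_mem _ fun i _ => ?_
  rw [gam0_rel (H.1.subtype.comp (C i).subtype) H.1.subtype (C i).subtype 1
    (fun c => by simp) z (fun h => hz h h.2)
    (fun c => by
      rw [inv_one, one_mul, mul_one]
      exact hz _ (c : H.1).2)]
  have _ := hC i
  let _ : CommGroup (C i) := IsCyclic.commGroup
  refine gam0_mem hGen S (C := C i) _ ?_ ?_ _ _ (y i)
  · exact H.1.subtype_injective.comp (C i).subtype_injective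
  · intro p hp
    apply hS
    exact Finset.mem_subtype.2 (Nat.mem_primeFactors.2
      ⟨p.2, hp.trans (Subgroup.card_subgroup_dvd_card (C i)), Nat.card_pos.ne'⟩)

lemma mem_T0 (hArt : SpecART.{u}) (hGen : SpecGEN.{u}) {G : Type u} [Group G] (x : S0 G) :
    ∃ S₀ : Finset Nat.Primes, ∀ S, S₀ ⊆ S → x ∈ satur (T0 S G) := by
  classical
  obtain ⟨x, rfl⟩ := QuotientAddGroup.mk_surjective x
  induction x using FreeAbelianGroup.induction_on with
  | zero => exact ⟨∅, fun S _ => (satur (T0 S G)).zero_mem⟩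
  | of x => exact cls_mem hArt hGen x
  | neg x hx =>
    obtain ⟨S₀, h⟩ := hx
    exact ⟨S₀, fun S hS => (satur (T0 S G)).neg_mem (h S hS)⟩
  | add x y hx hy =>
    obtain ⟨S₁, h₁⟩ := hx
    obtain ⟨S₂, h₂⟩ := hy
    exact ⟨S₁ ∪ S₂, fun S hS => (satur (T0 S G)).add_mem
      (h₁ S (Finset.union_subset_left hS)) (h₂ S (Finset.union_subset_right hS))⟩

lemma exists_family0 (S : Finset Nat.Primes) {G : Type u} [Group G] (t : S0 G)
    (ht : t ∈ T0 S G) : ∃ (n : ℕ) (δ : Fin n → Dat S G) (ε : Fin n → ℤ),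
      t = ∑ i, ε i • elt0 S (δ i).φ (δ i).z (δ i).comm (δ i).f (δ i).hf := by
  obtain ⟨a, rfl⟩ := (AddSubgroup.mem_closure_range_iff
    (f := fun δ : Dat S G => elt0 S δ.φ δ.z δ.comm δ.f δ.hf)).1 ht
  let e := a.support.equivFin
  refine ⟨a.support.card, fun i => (e.symm i).1, fun i => a (e.symm i).1, ?_⟩
  rw [Finsupp.sum, ← Finset.sum_coe_sort]
  exact (Equiv.sum_comp e.symm
    (fun x : a.support => a x.1 • elt0 S x.1.φ x.1.z x.1.comm x.1.f x.1.hf)).symm

/-! ### the elements `ek` -/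

section ek

variable (S : Finset Nat.Primes)

lemma ek_congr {C : Type u} [CommGroup C] {e f : MonoidAlgebra (Qp S) C} (he : e * e = e)
    (hf : f * f = f) (h : e = f) : ek S e he = ek S f hf := by
  subst h; rfl

lemma ek_elt {C : Type u} [CommGroup C] [Finite C] (f : MonoidAlgebra (Qp S) C) (hf : f * f = f) :
    assembly C (elt S (MonoidHom.id C) f hf) = ek S f hf := by
  unfold elt
  rw [assembly_gam]
  show Km1.map _ (ek S f hf) = ek S f hf
  obtain ⟨x, hx⟩ := Km1.mk_surjective _ (ek S f hf)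
  rw [← hx, Km1.map_mk]
  congr 1
  refine K0_map_id _ (fun a => ?_) x
  induction a using AddMonoidAlgebra.induction_linear with
  | zero => simp
  | add a b ha hb => rw [map_add, ha, hb]
  | single n a =>
    have h1 : lauMap (MonoidAlgebra.mapDomainRingHom ℤ (MonoidHom.id C))
        (AddMonoidAlgebra.single n a) = AddMonoidAlgebra.single n
          (MonoidAlgebra.mapDomainRingHom ℤ (MonoidHom.id C) a) := by
      simp only [lauMap, AddMonoidAlgebra.mapRingHom_single]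
    rw [h1]
    congr 1
    clear h1
    induction a using MonoidAlgebra.induction_linear with
    | zero => simp
    | add a b ha hb => rw [map_add, ha, hb]
    | single c r => simp

lemma ek_add {C : Type u} [CommGroup C] [Finite C] (e f : MonoidAlgebra (Qp S) C)
    (he : e * e = e) (hf : f * f = f) (hef : e * f = 0) (h : (e + f) * (e + f) = e + f) :
    ek S (e + f) h = ek S e he + ek S f hf := by
  rw [← ek_elt, ← ek_elt, ← ek_elt, elt_add S (MonoidHom.id C) e f he hf hef h, map_add]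

lemma ek_rat (hRes : SpecRES.{u}) {C : Type u} [CommGroup C] [Finite C]
    (pr : ∀ p : Nat.Primes, (p : ℕ) ∣ Nat.card C → p ∈ S) (e : MonoidAlgebra ℚ C)
    (he : e * e = e)
    (he' : MonoidAlgebra.mapRingHom C (algebraMap ℚ (Qp S)) e *
      MonoidAlgebra.mapRingHom C (algebraMap ℚ (Qp S)) e =
      MonoidAlgebra.mapRingHom C (algebraMap ℚ (Qp S)) e) :
    ek S (MonoidAlgebra.mapRingHom C (algebraMap ℚ (Qp S)) e) he' = 0 := by
  rw [← ek_elt, elt_rat S hRes (MonoidHom.id C) pr e he he', map_zero]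

lemma ek_int (hRes : SpecRES.{u}) {C : Type u} [CommGroup C] [Finite C]
    (e : MonoidAlgebra (Qp S) C) (he : e * e = e)
    (he' : MonoidAlgebra.single 1 (wS S (Nat.card C)) * e *
      (MonoidAlgebra.single 1 (wS S (Nat.card C)) * e) =
      MonoidAlgebra.single 1 (wS S (Nat.card C)) * e) :
    ek S (MonoidAlgebra.single 1 (wS S (Nat.card C)) * e) he' = 0 := by
  rw [← ek_elt, elt_int S hRes (MonoidHom.id C) e he he', map_zero]

lemma ek_map {C C' : Type u} [CommGroup C] [Finite C] [CommGroup C'] [Finite C'] (f : C →* C')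
    (e : MonoidAlgebra (Qp S) C) (he : e * e = e)
    (he' : MonoidAlgebra.mapDomainRingHom (Qp S) f e * MonoidAlgebra.mapDomainRingHom (Qp S) f e =
      MonoidAlgebra.mapDomainRingHom (Qp S) f e) :
    ek S (MonoidAlgebra.mapDomainRingHom (Qp S) f e) he' =
      Km1.map (MonoidAlgebra.mapDomainRingHom ℤ f) (ek S e he) := by
  unfold ek
  rw [← map_unit_btU (MonoidAlgebra.mapDomainRingHom (Qp S) f) e he he']
  have h1 := dB_nat S f (K1.unit (btU e he))
  have h2 : K1.map (lauMap (MonoidAlgebra.mapDomainRingHom (Qp S) f)) (K1.unit (btU e he)) =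
    K1.map (gMap (Qp S) f) (K1.unit (btU e he)) := rfl
  rw [h2, h1]
  rfl

end ek

/-! ### the linear functions -/

section Theta

lemma exists_ThL (hV : SpecVB.{u}) (S : Finset Nat.Primes) {C : Type u} [CommGroup C] [Finite C]
    (l : Km1 (MonoidAlgebra ℤ C) →+ ℚ) :
    ∃ Θ : RV (MonoidAlgebra (Qp S) C) →ₗ[ℚ] ℚ, ∀ (e : MonoidAlgebra (Qp S) C) (he : e * e = e),
      Θ ⟨e, Submodule.subset_span he⟩ = l (ek S e he) := by
  classical
  obtain ⟨Θ, hΘ⟩ := hV.ext (MonoidAlgebra (Qp S) C)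
    (fun e => if he : e * e = e then l (ek S e he) else 0) (by
      intro e f he hf hef
      have hfe : f * e = 0 := by rw [mul_comm]; exact hef
      have h : (e + f) * (e + f) = e + f := by
        rw [add_mul, mul_add, mul_add, he, hf, hef, hfe, add_zero, zero_add]
      rw [dif_pos he, dif_pos hf, dif_pos h, ek_add S e f he hf hef h, map_add])
  exact ⟨Θ, fun e he => by rw [hΘ e he, dif_pos he]⟩

variable (hV : SpecVB.{u}) (hRes : SpecRES.{u}) (S : Finset Nat.Primes)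

/-- The linear function of `l`. -/
def ThL {C : Type u} [CommGroup C] [Finite C] (l : Km1 (MonoidAlgebra ℤ C) →+ ℚ) :
    RV (MonoidAlgebra (Qp S) C) →ₗ[ℚ] ℚ := Classical.choose (exists_ThL hV S l)

lemma ThL_idem {C : Type u} [CommGroup C] [Finite C] (l : Km1 (MonoidAlgebra ℤ C) →+ ℚ)
    (e : MonoidAlgebra (Qp S) C) (he : e * e = e) :
    ThL hV S l ⟨e, Submodule.subset_span he⟩ = l (ek S e he) :=
  Classical.choose_spec (exists_ThL hV S l) e he

lemma ThL_nat {C C' : Type u} [CommGroup C] [Finite C] [CommGroup C'] [Finite C'] (f : C →* C')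
    (l : Km1 (MonoidAlgebra ℤ C) →+ ℚ) (l' : Km1 (MonoidAlgebra ℤ C') →+ ℚ)
    (hl : ∀ k, l' (Km1.map (MonoidAlgebra.mapDomainRingHom ℤ f) k) = l k)
    (b : RV (MonoidAlgebra (Qp S) C)) (b' : RV (MonoidAlgebra (Qp S) C'))
    (hb : (b' : MonoidAlgebra (Qp S) C') =
      MonoidAlgebra.mapDomainRingHom (Qp S) f (b : MonoidAlgebra (Qp S) C)) :
    ThL hV S l' b' = ThL hV S l b := by
  have hF : ∀ e : MonoidAlgebra (Qp S) C, e * e = e →
      (MonoidAlgebra.mapDomainRingHom (Qp S) f).toAddMonoidHom e *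
        (MonoidAlgebra.mapDomainRingHom (Qp S) f).toAddMonoidHom e =
      (MonoidAlgebra.mapDomainRingHom (Qp S) f).toAddMonoidHom e := by
    intro e he
    show MonoidAlgebra.mapDomainRingHom (Qp S) f e * MonoidAlgebra.mapDomainRingHom (Qp S) f e =
      MonoidAlgebra.mapDomainRingHom (Qp S) f e
    rw [← map_mul, he]
  refine RV_ext (MonoidAlgebra.mapDomainRingHom (Qp S) f).toAddMonoidHom hF _ _ ?_ b b' hb
  intro e he
  refine (ThL_idem hV S l' _ (hF e he)).trans ?_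
  rw [ThL_idem hV S l e he, ← hl]
  exact congrArg l' (ek_map S f e he (hF e he))

lemma ThL_add {C : Type u} [CommGroup C] [Finite C] (l l₁ l₂ : Km1 (MonoidAlgebra ℤ C) →+ ℚ)
    (h : ∀ k, l k = l₁ k + l₂ k) (b : RV (MonoidAlgebra (Qp S) C)) :
    ThL hV S l b = ThL hV S l₁ b + ThL hV S l₂ b := by
  have h1 := RV_ext (AddMonoidHom.id (MonoidAlgebra (Qp S) C)) (fun e he => he)
    (ThL hV S l₁ + ThL hV S l₂) (ThL hV S l) (by
      intro e he
      refine (ThL_idem hV S l e he).trans ?_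
      rw [LinearMap.add_apply, ThL_idem hV S l₁ e he, ThL_idem hV S l₂ e he, h]) b b rfl
  rw [h1, LinearMap.add_apply]

include hRes in
lemma ThL_rat {C : Type u} [CommGroup C] [Finite C] (l : Km1 (MonoidAlgebra ℤ C) →+ ℚ)
    (pr : ∀ p : Nat.Primes, (p : ℕ) ∣ Nat.card C → p ∈ S) (r : MonoidAlgebra ℚ C)
    (hr : r ∈ RV (MonoidAlgebra ℚ C)) (b : RV (MonoidAlgebra (Qp S) C))
    (hb : (b : MonoidAlgebra (Qp S) C) = MonoidAlgebra.mapRingHom C (algebraMap ℚ (Qp S)) r) :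
    ThL hV S l b = 0 := by
  have hF : ∀ e : MonoidAlgebra ℚ C, e * e = e →
      (MonoidAlgebra.mapRingHom C (algebraMap ℚ (Qp S))).toAddMonoidHom e *
        (MonoidAlgebra.mapRingHom C (algebraMap ℚ (Qp S))).toAddMonoidHom e =
      (MonoidAlgebra.mapRingHom C (algebraMap ℚ (Qp S))).toAddMonoidHom e := by
    intro e he
    show MonoidAlgebra.mapRingHom C (algebraMap ℚ (Qp S)) e *
      MonoidAlgebra.mapRingHom C (algebraMap ℚ (Qp S)) e =
      MonoidAlgebra.mapRingHom C (algebraMap ℚ (Qp S)) e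
    rw [← map_mul, he]
  have h := RV_ext (MonoidAlgebra.mapRingHom C (algebraMap ℚ (Qp S))).toAddMonoidHom hF
    (0 : RV (MonoidAlgebra ℚ C) →ₗ[ℚ] ℚ) (ThL hV S l) (by
      intro e he
      rw [LinearMap.zero_apply]
      refine (ThL_idem hV S l _ (hF e he)).trans ?_
      have h1 := ek_rat S hRes pr e he (hF e he)
      exact (congrArg l h1).trans (map_zero l)) ⟨r, hr⟩ b hb
  rw [h, LinearMap.zero_apply]

include hRes in
lemma ThL_int {C : Type u} [CommGroup C] [Finite C] (l : Km1 (MonoidAlgebra ℤ C) →+ ℚ)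
    (b : RV (MonoidAlgebra (Qp S) C))
    (hb : ∀ (p : S) (_ : ((p : Nat.Primes) : ℕ) ∣ Nat.card C) (c : C),
      (b : MonoidAlgebra (Qp S) C).coeff c p = 0) :
    ThL hV S l b = 0 := by
  classical
  have hw : (MonoidAlgebra.single 1 (wS S (Nat.card C)) : MonoidAlgebra (Qp S) C) *
      MonoidAlgebra.single 1 (wS S (Nat.card C)) =
      MonoidAlgebra.single 1 (wS S (Nat.card C)) := by
    rw [MonoidAlgebra.single_mul_single, mul_one]
    congr 1
    funext p
    rw [Pi.mul_apply, wS_apply]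
    split_ifs <;> simp
  have hF : ∀ e : MonoidAlgebra (Qp S) C, e * e = e →
      AddMonoidHom.mulLeft (MonoidAlgebra.single 1 (wS S (Nat.card C))) e *
        AddMonoidHom.mulLeft (MonoidAlgebra.single 1 (wS S (Nat.card C))) e =
      AddMonoidHom.mulLeft (MonoidAlgebra.single 1 (wS S (Nat.card C))) e := by
    intro e he
    show MonoidAlgebra.single 1 (wS S (Nat.card C)) * e *
      (MonoidAlgebra.single 1 (wS S (Nat.card C)) * e) =
      MonoidAlgebra.single 1 (wS S (Nat.card C)) * e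
    rw [mul_mul_mul_comm, hw, he]
  have hb2 : (b : MonoidAlgebra (Qp S) C) =
      AddMonoidHom.mulLeft (MonoidAlgebra.single 1 (wS S (Nat.card C)))
        (b : MonoidAlgebra (Qp S) C) := by
    show (b : MonoidAlgebra (Qp S) C) = MonoidAlgebra.single 1 (wS S (Nat.card C)) *
      (b : MonoidAlgebra (Qp S) C)
    apply MonoidAlgebra.ext
    apply Finsupp.ext
    intro c
    rw [MonoidAlgebra.coeff_single_one_mul]
    funext p
    rw [Pi.mul_apply, wS_apply]
    split_ifs with hp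
    · rw [hb p hp c, zero_mul]
    · rw [one_mul]
  have h := RV_ext (AddMonoidHom.mulLeft
      (MonoidAlgebra.single 1 (wS S (Nat.card C)) : MonoidAlgebra (Qp S) C)) hF
    (0 : RV (MonoidAlgebra (Qp S) C) →ₗ[ℚ] ℚ) (ThL hV S l) (by
      intro e he
      rw [LinearMap.zero_apply]
      refine (ThL_idem hV S l _ (hF e he)).trans ?_
      have h1 := ek_int S hRes e he (hF e he)
      exact (congrArg l h1).trans (map_zero l)) b b hb2
  rw [h, LinearMap.zero_apply]

end Theta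

end FIN0

end Pool.Agent.Lib.MPb6f35e.Z0
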