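import Pool.Agent.Lib.MP_b6f35e_al.WH.T
import Pool.Agent.Lib.MP_b6f35e_al.W2.Trace

/-!
# Cyclic words and cocycles of the conjugation groupoid (MP_b6f35e_al, Z0)
-/

set_option autoImplicit false

noncomputable section

namespace Pool.Agent.Lib.MPb6f35e.Z0

open Function
open Pool.Agent.Lib.MPb6f35e.WH
open Pool.Agent.Lib.MPb6f35e.W2 (IsCoc)

universe u v

namespace Fro

variable {k : Type u} [CommRing k] {G : Type v} [Group G]

/-- the cyclic product of the word `u` which ends with the letter `u j` -/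
def cp {N : ℕ} (u : ZMod N → G) (j : ZMod N) : G :=
  ((List.range N).map fun m : ℕ => u (j + 1 + (m : ZMod N))).prod

lemma list_shift (f : ℕ → G) (n : ℕ) :
    f 0 * ((List.range n).map fun m => f (m + 1)).prod = ((List.range n).map f).prod * f n := by
  induction n with
  | zero => simp
  | succ n ih =>
    rw [List.range_succ, List.map_append, List.prod_append, ← mul_assoc, ih, List.map_append,
      List.prod_append]
    simp

lemma cp_step {N : ℕ} (u : ZMod N → G) (j : ZMod N) : u j * cp u j * (u j)⁻¹ = cp u (j - 1) := by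
  rw [mul_inv_eq_iff_eq_mul]
  have h := list_shift (fun m : ℕ => u (j + (m : ZMod N))) N
  simp only [Nat.cast_zero, add_zero, ZMod.natCast_self] at h
  have e1 : cp u j = ((List.range N).map fun m : ℕ => u (j + ((m + 1 : ℕ) : ZMod N))).prod := by
    unfold cp
    congr 1
    apply List.map_congr_left
    intro m _
    congr 1
    push_cast
    ring
  have e2 : cp u (j - 1) = ((List.range N).map fun m : ℕ => u (j + (m : ZMod N))).prod := by
    unfold cp
    congr 1
    apply List.map_congr_left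
    intro m _
    congr 1
    ring
  rw [e1, e2, h]

lemma cp_sh {N : ℕ} (u : ZMod N → G) (j : ZMod N) : cp (sh u) j = cp u (j + 1) := by
  unfold cp sh
  congr 1
  apply List.map_congr_left
  intro m _
  congr 1
  ring

/-- letterwise product -/
def d0 {N : ℕ} (w : ZMod N → G × G) : ZMod N → G := fun j => (w j).1 * (w j).2

/-- product of the second letter with the next first letter -/
def d1 {N : ℕ} (w : ZMod N → G × G) : ZMod N → G := fun j => (w j).2 * (w (j + 1)).1

lemma list_shift2 (g h : ℕ → G) (n : ℕ) :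
    ((List.range n).map fun m => h m * g (m + 1)).prod * h n =
      h 0 * ((List.range n).map fun m => g (m + 1) * h (m + 1)).prod := by
  induction n with
  | zero => simp
  | succ n ih =>
    rw [List.range_succ, List.map_append, List.prod_append, List.map_append,
      List.prod_append, ← mul_assoc (h 0), ← ih]
    simp [mul_assoc]

lemma cp_d1 {N : ℕ} (w : ZMod N → G × G) (j : ZMod N) :
    cp (d1 w) j = (w (j + 1)).2 * cp (d0 w) (j + 1) * ((w (j + 1)).2)⁻¹ := by
  rw [eq_mul_inv_iff_mul_eq]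
  have h := list_shift2 (fun m : ℕ => (w (j + 1 + (m : ZMod N))).1)
    (fun m : ℕ => (w (j + 1 + (m : ZMod N))).2) N
  simp only [Nat.cast_zero, add_zero, ZMod.natCast_self] at h
  have e1 : cp (d1 w) j = ((List.range N).map fun m : ℕ => (w (j + 1 + (m : ZMod N))).2 *
      (w (j + 1 + ((m + 1 : ℕ) : ZMod N))).1).prod := by
    unfold cp d1
    congr 1
    apply List.map_congr_left
    intro m _
    congr 3
    push_cast
    ring
  have e2 : cp (d0 w) (j + 1) = ((List.range N).map fun m : ℕ =>
      (w (j + 1 + ((m + 1 : ℕ) : ZMod N))).1 * (w (j + 1 + ((m + 1 : ℕ) : ZMod N))).2).prod := by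
    unfold cp d0
    congr 1
    apply List.map_congr_left
    intro m _
    have e3 : j + 1 + 1 + (m : ZMod N) = j + 1 + ((m + 1 : ℕ) : ZMod N) := by
      push_cast
      ring
    rw [e3]
  rw [e1, e2, h]

/-! ### sums over cyclic words -/

lemma sum_zmod {A : Type*} [AddCommMonoid A] (N : ℕ) [NeZero N] (g : ZMod N → A) :
    ∑ j, g j = ∑ j ∈ Finset.range N, g (j : ZMod N) := by
  symm
  refine Finset.sum_bij' (fun j _ => (j : ZMod N)) (fun j _ => j.val) (fun _ _ => Finset.mem_univ _)
    (fun j _ => Finset.mem_range.2 (ZMod.val_lt j)) (fun j hj => ?_) (fun j _ => ?_)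
    (fun _ _ => rfl)
  · exact ZMod.val_cast_of_lt (Finset.mem_range.1 hj)
  · exact ZMod.natCast_zmod_val j

lemma sum_shift {A : Type*} [AddCommMonoid A] {N : ℕ} [NeZero N] (g : ZMod N → A) :
    ∑ j, g (j + 1) = ∑ j, g j := Equiv.sum_comp (Equiv.addRight (1 : ZMod N)) g

/-- the contribution of the letter `u j` -/
def gam (θ : G → G → k) {N : ℕ} (u : ZMod N → G) (j : ZMod N) : k := θ (u j) (cp u j)

lemma gam_part {θ : G → G → k} (hθ : IsCoc θ) {N : ℕ} (u : ZMod N → G) (n : ℕ) :
    θ (((List.range n).map fun m : ℕ => u (m : ZMod N)).prod) (cp u ((n : ZMod N) - 1)) =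
      ∑ m ∈ Finset.range n, gam θ u (m : ZMod N) := by
  induction n with
  | zero =>
    simp only [List.range_zero, List.map_nil, List.prod_nil, Finset.range_zero, Finset.sum_empty]
    exact W2.coc_one hθ _
  | succ n ih =>
    rw [Finset.sum_range_succ, ← ih, List.range_succ, List.map_append, List.prod_append]
    simp only [List.map_cons, List.map_nil, List.prod_cons, List.prod_nil, mul_one]
    have e1 : ((n + 1 : ℕ) : ZMod N) - 1 = (n : ZMod N) := by push_cast; ring
    rw [e1, hθ, cp_step, gam]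

/-- the total contribution of the letters -/
lemma gam_sum {θ : G → G → k} (hθ : IsCoc θ) (h0 : ∀ y, θ y y = 0) {N : ℕ} [NeZero N]
    (u : ZMod N → G) : ∑ j, gam θ u j = 0 := by
  rw [sum_zmod, ← gam_part hθ]
  have e1 : cp u ((N : ZMod N) - 1) = ((List.range N).map fun m : ℕ => u (m : ZMod N)).prod := by
    unfold cp
    congr 1
    apply List.map_congr_left
    intro m _
    congr 1
    rw [ZMod.natCast_self]
    ring
  rw [e1, h0]

/-- the contribution of the second letter of the pair `w j` -/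
def ga (θ : G → G → k) {N : ℕ} (w : ZMod N → G × G) (j : ZMod N) : k :=
  θ (w j).2 (cp (d0 w) j)

/-- the contribution of the first letter of the pair `w j` -/
def gb (θ : G → G → k) {N : ℕ} (w : ZMod N → G × G) (j : ZMod N) : k :=
  θ (w j).1 ((w j).2 * cp (d0 w) j * ((w j).2)⁻¹)

lemma gam_d0 {θ : G → G → k} (hθ : IsCoc θ) {N : ℕ} (w : ZMod N → G × G) (j : ZMod N) :
    gam θ (d0 w) j = gb θ w j + ga θ w j := hθ _ _ _

lemma gam_d1 {θ : G → G → k} (hθ : IsCoc θ) {N : ℕ} (w : ZMod N → G × G) (j : ZMod N) :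
    gam θ (d1 w) j = ga θ w j + gb θ w (j + 1) := by
  have e1 : gam θ (d1 w) j = θ ((w j).2 * (w (j + 1)).1) (cp (d1 w) j) := rfl
  rw [e1, cp_d1, hθ, gb]
  congr 1
  rw [ga]
  congr 1
  have e2 := cp_step (d0 w) (j + 1)
  rw [add_sub_cancel_right] at e2
  rw [← e2]
  show (w (j + 1)).1 * ((w (j + 1)).2 * cp (d0 w) (j + 1) * ((w (j + 1)).2)⁻¹) *
    ((w (j + 1)).1)⁻¹ = ((w (j + 1)).1 * (w (j + 1)).2) * cp (d0 w) (j + 1) *
    ((w (j + 1)).1 * (w (j + 1)).2)⁻¹
  group

/-! ### the weighted sum modulo `N` -/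

/-- `k / N` -/
abbrev RN (k : Type u) [CommRing k] (N : ℕ) : Type u := k ⧸ Ideal.span {(N : k)}

/-- The quotient map. -/
abbrev qN (k : Type u) [CommRing k] (N : ℕ) : k →+* RN k N := Ideal.Quotient.mk _

lemma qN_self (N : ℕ) : (N : RN k N) = 0 := by
  have : ((N : k) : RN k N) = 0 := Ideal.Quotient.eq_zero_iff_mem.2
    (Ideal.subset_span (Set.mem_singleton _))
  rw [← map_natCast (qN k N)]
  exact this

lemma chi_aux (k : Type u) [CommRing k] (N : ℕ) : Int.castAddHom (RN k N) (N : ℤ) = 0 := by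
  show (((N : ℤ)) : RN k N) = 0
  rw [Int.cast_natCast]
  exact qN_self N

/-- `ℤ/N → k/N` -/
def chi (k : Type u) [CommRing k] (N : ℕ) : ZMod N →+ RN k N :=
  ZMod.lift N ⟨Int.castAddHom (RN k N), chi_aux k N⟩

lemma chi_one (N : ℕ) : chi k N 1 = 1 := by
  have := ZMod.lift_coe N (A := RN k N) ⟨Int.castAddHom (RN k N), chi_aux k N⟩ 1
  rw [Int.cast_one] at this
  rw [chi, this]
  simp

/-- the weighted sum -/
def HH (θ : G → G → k) {N : ℕ} [NeZero N] (u : ZMod N → G) : RN k N :=
  -∑ j, chi k N j * qN k N (gam θ u j)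

lemma HH_sh {θ : G → G → k} (hθ : IsCoc θ) (h0 : ∀ y, θ y y = 0) {N : ℕ} [NeZero N]
    (u : ZMod N → G) : HH θ (sh u) = HH θ u := by
  have e1 : ∑ j, chi k N j * qN k N (gam θ (sh u) j) =
      ∑ j, (chi k N j - 1) * qN k N (gam θ u j) := by
    rw [← sum_shift (fun j => (chi k N j - 1) * qN k N (gam θ u j))]
    refine Finset.sum_congr rfl fun j _ => ?_
    have e2 : gam θ (sh u) j = gam θ u (j + 1) := by
      unfold gam
      rw [cp_sh]
      rfl
    rw [e2, map_add, chi_one, add_sub_cancel_right]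
  unfold HH
  rw [e1]
  simp only [sub_mul, one_mul, Finset.sum_sub_distrib]
  rw [← map_sum, gam_sum hθ h0, map_zero, sub_zero]

lemma HH_diff {θ : G → G → k} (hθ : IsCoc θ) (h0 : ∀ y, θ y y = 0) {N : ℕ} [NeZero N]
    (w : ZMod N → G × G) : HH θ (d0 w) - HH θ (d1 w) = qN k N (∑ j, ga θ w j) := by
  have e1 : ∑ j, chi k N j * qN k N (gb θ w (j + 1)) =
      ∑ j, (chi k N j - 1) * qN k N (gb θ w j) := by
    rw [← sum_shift (fun j => (chi k N j - 1) * qN k N (gb θ w j))]
    refine Finset.sum_congr rfl fun j _ => ?_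
    rw [map_add, chi_one, add_sub_cancel_right]
  have e2 : ∑ j, ga θ w j + ∑ j, gb θ w j = 0 := by
    rw [← Finset.sum_add_distrib, ← gam_sum hθ h0 (d0 w)]
    refine Finset.sum_congr rfl fun j _ => ?_
    rw [gam_d0 hθ, add_comm]
  have e3 : ∑ j, ga θ w j = -∑ j, gb θ w j := eq_neg_of_add_eq_zero_left e2
  unfold HH
  simp only [gam_d0 hθ, gam_d1 hθ, map_add, mul_add, Finset.sum_add_distrib, e1, sub_mul, one_mul,
    Finset.sum_sub_distrib]
  rw [e3, map_neg, map_sum]
  abel

/-! ### repetition of words -/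

section rep

variable (p e : ℕ)

lemma cp_rep (u : ZMod (p ^ e) → G) (j : ZMod (p ^ (e + 1))) :
    cp (fun i => u (prj p e i)) j = cp u (prj p e j) ^ p := by
  have h : ∀ (f : ℕ → G) (t : ℕ) (_ : ∀ j, f (t + j) = f j) (n : ℕ),
      ((List.range (n * t)).map f).prod = (((List.range t).map f).prod) ^ n := by
    intro f t hf n
    induction n with
    | zero => simp
    | succ n ih =>
      rw [show (n + 1) * t = t + n * t by ring, List.range_add, List.map_append, List.prod_append,
        List.map_map, pow_succ', ← ih]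
      congr 2
      apply List.map_congr_left
      intro j _
      exact hf j
  unfold cp
  rw [← h _ _ _ p]
  · rw [show p * p ^ e = p ^ (e + 1) by ring]
    congr 1
    apply List.map_congr_left
    intro m _
    show u (prj p e (j + 1 + (m : ZMod (p ^ (e + 1))))) = u (prj p e j + 1 + (m : ZMod (p ^ e)))
    rw [prj, map_add, map_add, map_one, map_natCast]
  · intro m
    congr 1
    push_cast
    rw [← Nat.cast_pow, ZMod.natCast_self]
    ring

lemma d0_rep (w : ZMod (p ^ e) → G × G) :
    d0 (fun i => w (prj p e i)) = fun i => d0 w (prj p e i) := rfl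

lemma d1_rep (w : ZMod (p ^ e) → G × G) :
    d1 (fun i => w (prj p e i)) = fun i => d1 w (prj p e i) := by
  funext j
  show (w (prj p e j)).2 * (w (prj p e (j + 1))).1 = (w (prj p e j)).2 * (w (prj p e j + 1)).1
  rw [NN.prj_add_one]

end rep

end Fro

end Pool.Agent.Lib.MPb6f35e.Z0
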