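import Pool.Agent.Lib.MP_b6f35e_al.Z0.FroA

/-!
# The twisted trace of tensor powers (MP_b6f35e_al, Z0)
-/

set_option autoImplicit false

noncomputable section

namespace Pool.Agent.Lib.MPb6f35e.Z0

open Function
open Pool.Agent.Lib.MPb6f35e.WH
open Pool.Agent.Lib.MPb6f35e.W2 (IsCoc lin lin_single ext1 ext1_single)

universe u v w

namespace Fro

variable {k : Type u} [CommRing k]

/-- push forward along a function -/
def ps {X : Type v} {Y : Type w} (f : X → Y) : MonoidAlgebra k X →+ MonoidAlgebra k Y where
  toFun := MonoidAlgebra.mapDomain f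
  map_zero' := MonoidAlgebra.mapDomain_zero f
  map_add' := MonoidAlgebra.mapDomain_add f

@[simp] lemma ps_single {X : Type v} {Y : Type w} (f : X → Y) (x : X) (r : k) :
    ps f (MonoidAlgebra.single x r) = MonoidAlgebra.single (f x) r :=
  MonoidAlgebra.mapDomain_single

lemma ps_ps {X Y Z : Type*} (f : X → Y) (g : Y → Z) (a : MonoidAlgebra k X) :
    ps g (ps f a) = ps (fun x => g (f x)) a := by
  induction a using MonoidAlgebra.induction_linear with
  | zero => simp
  | add x y hx hy => simp only [map_add, hx, hy]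
  | single x r => simp

lemma lin_ps {X Y : Type*} {V : Type*} [AddCommMonoid V] (f : X → Y) (h : Y → k →+ V)
    (a : MonoidAlgebra k X) : lin h (ps f a) = lin (fun x => h (f x)) a := by
  induction a using MonoidAlgebra.induction_linear with
  | zero => simp
  | add x y hx hy => simp only [map_add, hx, hy]
  | single x r => simp

lemma lin_sub {X : Type*} {V : Type*} [AddCommGroup V] (h h' : X → k →+ V)
    (a : MonoidAlgebra k X) : lin (fun x => h x - h' x) a = lin h a - lin h' a := by
  induction a using MonoidAlgebra.induction_linear with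
  | zero => simp
  | add x y hx hy => simp only [map_add, hx, hy]; abel
  | single x r => simp

lemma lin_sum {X : Type*} {V : Type*} [AddCommMonoid V] {α : Type*} (s : Finset α)
    (h : α → X → k →+ V) (a : MonoidAlgebra k X) :
    lin (fun x => ∑ i ∈ s, h i x) a = ∑ i ∈ s, lin (h i) a := by
  induction a using MonoidAlgebra.induction_linear with
  | zero => simp
  | add x y hx hy => simp only [map_add, hx, hy, Finset.sum_add_distrib]
  | single x r => simp

lemma lin_comp {X : Type*} {V W : Type*} [AddCommMonoid V] [AddCommMonoid W] (f : V →+ W)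
    (h : X → k →+ V) (a : MonoidAlgebra k X) : f (lin h a) = lin (fun x => f.comp (h x)) a := by
  induction a using MonoidAlgebra.induction_linear with
  | zero => simp
  | add x y hx hy => simp only [map_add, hx, hy]
  | single x r => simp

lemma ps_coeff {X Y : Type*} [DecidableEq Y] (f : X → Y) (a : MonoidAlgebra k X) (y : Y) :
    (ps f a).coeff y = ∑ x ∈ a.coeff.support, if f x = y then a.coeff x else 0 := by
  show (Finsupp.mapDomain f a.coeff) y = _
  rw [Finsupp.mapDomain, Finsupp.sum_apply, Finsupp.sum]
  refine Finset.sum_congr rfl fun x _ => ?_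
  rw [Finsupp.single_apply]

/-- Letterwise push forward of a tensor product. -/
lemma ps_tt {X Y : Type v} [Group X] [Group Y] {N : ℕ} [NeZero N] (f : ZMod N → X → Y)
    (c : ZMod N → MonoidAlgebra k X) :
    ps (fun (γ : ZMod N → X) (j : ZMod N) => f j (γ j)) (TT.tt c) =
      TT.tt fun j => ps (f j) (c j) := by
  classical
  apply MonoidAlgebra.ext
  apply Finsupp.ext
  intro δ
  rw [TT.tt_coeff]
  simp only [ps_coeff]
  rw [Finset.prod_univ_sum]
  have h1 : ∑ x ∈ (TT.tt c).coeff.support,
      (if (fun j => f j (x j)) = δ then (TT.tt c).coeff x else 0) =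
      ∑ x ∈ Fintype.piFinset fun j => (c j).coeff.support,
        (if (fun j => f j (x j)) = δ then (TT.tt c).coeff x else 0) := by
    refine Finset.sum_subset ?_ ?_
    · intro η hη
      rw [Fintype.mem_piFinset]
      intro j
      rw [Finsupp.mem_support_iff] at hη ⊢
      intro h0
      exact hη (Finset.prod_eq_zero (Finset.mem_univ j) h0)
    · intro η _ hη
      rw [Finsupp.notMem_support_iff.1 hη, ite_self]
  rw [h1]
  refine Finset.sum_congr rfl fun η _ => ?_
  by_cases h : (fun j => f j (η j)) = δ
  · rw [if_pos h, TT.tt_coeff]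
    refine Finset.prod_congr rfl fun j _ => ?_
    rw [if_pos (congrFun h j)]
  · rw [if_neg h]
    symm
    have : ∃ j, f j (η j) ≠ δ j := by
      by_contra hh
      push Not at hh
      exact h (funext hh)
    obtain ⟨j, hj⟩ := this
    exact Finset.prod_eq_zero (Finset.mem_univ j) (if_neg hj)

variable {G : Type v} [Group G] {ι : Type} [Fintype ι] [DecidableEq ι]

lemma ps_hom {X Y : Type v} [Group X] [Group Y] (f : X →* Y) (a : MonoidAlgebra k X) :
    ps f a = MonoidAlgebra.mapDomainRingHom k f a := rfl

/-! ### the twisted trace with values in words -/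

/-- `b ↦ Σ_I b(I, I ∘ s)` -/
def tc {N : ℕ} [NeZero N] : TR k G ι N →+ MonoidAlgebra k (ZMod N → G) where
  toFun b := ∑ I : ZMod N → ι, b I (sh I)
  map_zero' := by simp
  map_add' a b := by simp [Finset.sum_add_distrib]

omit [DecidableEq ι] in
lemma tc_apply {N : ℕ} [NeZero N] (b : TR k G ι N) :
    tc b = ∑ I : ZMod N → ι, b I (sh I) := rfl

lemma sh_bij {N : ℕ} {X : Type*} : Bijective (sh (N := N) (X := X)) := by
  constructor
  · intro I J h
    funext j
    have := congrFun h (j - 1)
    have h2 : I (j - 1 + 1) = J (j - 1 + 1) := this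
    rwa [sub_add_cancel] at h2
  · intro I
    refine ⟨fun j => I (j - 1), ?_⟩
    funext j
    show I (j + 1 - 1) = I j
    rw [add_sub_cancel_right]

lemma tc_rot {N : ℕ} [NeZero N] (b : TR k G ι N) :
    tc (rot k G ι N b) = ps (rotG N G) (tc b) := by
  rw [tc_apply, tc_apply, map_sum,
    ← Function.Bijective.sum_comp sh_bij (fun I => ps (rotG N G) (b I (sh I)))]
  rfl

lemma tc_iter {N : ℕ} [NeZero N] (j : ℕ) (b : TR k G ι N) :
    tc ((rot k G ι N)^[j] b) = ps ((rotG N G)^[j]) (tc b) := by
  induction j with
  | zero =>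
    rw [iterate_zero, id]
    generalize tc b = y
    induction y using MonoidAlgebra.induction_linear with
    | zero => simp
    | add x y hx hy => rw [map_add, ← hx, ← hy]
    | single x r => simp
  | succ j ih =>
    rw [iterate_succ_apply', tc_rot, ih, ps_ps]
    have h : (fun x : ZMod N → G => rotG N G ((rotG N G)^[j] x)) = (rotG N G)^[j + 1] := by
      funext x
      rw [iterate_succ_apply']
    rw [h]

lemma tc_nm {N : ℕ} [NeZero N] (n : ℕ) (b : TR k G ι N) :
    tc (nm (rot k G ι N) n b) = ∑ j ∈ Finset.range n, ps ((rotG N G)^[j]) (tc b) := by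
  rw [nm, map_sum]
  exact Finset.sum_congr rfl fun j _ => tc_iter j b

lemma const_of_sh {N : ℕ} [NeZero N] {X : Type*} {I : ZMod N → X} (h : sh I = I) :
    I = fun _ => I 0 := by
  have h1 : ∀ m : ℕ, I (m : ZMod N) = I 0 := by
    intro m
    induction m with
    | zero => simp
    | succ m ih =>
      rw [← ih]
      have := congrFun h (m : ZMod N)
      rw [← this]
      show I _ = I _
      push_cast
      rfl
  funext j
  rw [← h1 j.val, ZMod.natCast_zmod_val]

/-- sums over closed walks which reduce to constant walks -/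
lemma sum_const {N : ℕ} [NeZero N] {A : Type*} [AddCommMonoid A] (F : (ZMod N → ι) → A)
    (h : ∀ I, (¬ ∃ i, I = fun _ => i) → F I = 0) :
    ∑ I, F I = ∑ i, F (fun _ => i) := by
  have hinj : Injective fun (i : ι) (_ : ZMod N) => i := fun i j h => congrFun h 0
  rw [← Finset.sum_subset (Finset.subset_univ (Finset.univ.image
    fun (i : ι) (_ : ZMod N) => i)), Finset.sum_image fun _ _ _ _ h => hinj h]
  intro I _ hI
  apply h
  rintro ⟨i, rfl⟩
  exact hI (Finset.mem_image.2 ⟨i, Finset.mem_univ _, rfl⟩)

lemma tc_one {N : ℕ} [NeZero N] : tc (1 : TR k G ι N) =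
    Fintype.card ι • MonoidAlgebra.single 1 1 := by
  rw [tc_apply, sum_const]
  · have h : ∀ i : ι, (1 : TR k G ι N) (fun _ => i) (sh fun _ => i) = MonoidAlgebra.single 1 1 := by
      intro i
      show (1 : TR k G ι N) (fun _ => i) (fun _ => i) = _
      rw [Matrix.one_apply_eq, MonoidAlgebra.one_def]
    rw [Finset.sum_congr rfl fun i _ => h i, Finset.sum_const, Finset.card_univ]
  · intro I hI
    rw [Matrix.one_apply_ne]
    intro h
    exact hI ⟨_, const_of_sh h.symm⟩

section rep

variable (p e : ℕ) [NeZero (p ^ e)] [NeZero (p ^ (e + 1))]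

lemma tc_dlt (b : TR k G ι (p ^ e)) :
    tc (dlt k G ι p e b) = ps (repG p e G) (tc b) := by
  classical
  rw [tc_apply, tc_apply, map_sum]
  have hinj : Injective fun (I : ZMod (p ^ e) → ι) (j : ZMod (p ^ (e + 1))) => I (prj p e j) :=
    fun _ _ h => NN.rep_inj p e h
  rw [← Finset.sum_subset (Finset.subset_univ (Finset.univ.image
    fun (I : ZMod (p ^ e) → ι) (j : ZMod (p ^ (e + 1))) => I (prj p e j))),
    Finset.sum_image fun _ _ _ _ h => hinj h]
  · refine Finset.sum_congr rfl fun I _ => ?_
    have h : (sh fun j => I (prj p e j)) = fun j => (sh I) (prj p e j) := by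
      funext j
      show I (prj p e (j + 1)) = I (prj p e j + 1)
      rw [NN.prj_add_one]
    rw [h, NN.dlt_rep]
    rfl
  · intro I _ hI
    exact NN.dlt_left p e b I _ fun I' hI' => hI (Finset.mem_image.2 ⟨I', Finset.mem_univ _,
      hI'.symm⟩)

lemma tc_dhat (x : Matrix ι ι (MonoidAlgebra k G)) :
    tc (dhat k G ι p e x) = ps (repG p e G) (tc (tens k G ι (p ^ e) x)) := by
  rw [dhat, map_add, map_sub, tc_dlt, tc_dlt, tc_one, tc_one, map_nsmul, ps_single]
  have : repG p e G 1 = 1 := map_one _
  rw [this, sub_self, add_zero]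

end rep

end Fro

end Pool.Agent.Lib.MPb6f35e.Z0
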