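import Pool.Agent.Lib.MP_b6f35e_al.Z0.FroB

/-!
# Contractions of the words of `u⁻¹`, `u` (MP_b6f35e_al, Z0)
-/

set_option autoImplicit false
set_option linter.unusedSectionVars false

noncomputable section

namespace Pool.Agent.Lib.MPb6f35e.Z0

open Function
open Pool.Agent.Lib.MPb6f35e.WH
open Pool.Agent.Lib.MPb6f35e.W2 (IsCoc lin lin_single ext1 ext1_single bil bil_single mb)

universe u v w

namespace Fro

variable {k : Type u} [CommRing k] {G : Type v} [Group G] {ι : Type} [Fintype ι] [DecidableEq ι]

/-- first factor -/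
def i1 : MonoidAlgebra k G →+* MonoidAlgebra k (G × G) :=
  MonoidAlgebra.mapDomainRingHom k (MonoidHom.inl G G)

/-- second factor -/
def i2 : MonoidAlgebra k G →+* MonoidAlgebra k (G × G) :=
  MonoidAlgebra.mapDomainRingHom k (MonoidHom.inr G G)

@[simp] lemma i1_single (g : G) (r : k) :
    i1 (MonoidAlgebra.single g r) = MonoidAlgebra.single (g, 1) r := by
  simp [i1, MonoidAlgebra.mapDomain_single]

@[simp] lemma i2_single (g : G) (r : k) :
    i2 (MonoidAlgebra.single g r) = MonoidAlgebra.single (1, g) r := by
  simp [i2, MonoidAlgebra.mapDomain_single]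

/-- the matrix `Σ_j a_ij ⊗ b_ji'` -/
def xm (a b : Matrix ι ι (MonoidAlgebra k G)) : Matrix ι ι (MonoidAlgebra k (G × G)) :=
  a.map i1 * b.map i2

lemma ps_mul_i (a b : MonoidAlgebra k G) :
    ps (fun g : G × G => g.1 * g.2) (i1 a * i2 b) = a * b := by
  induction a using MonoidAlgebra.induction_linear with
  | zero => simp
  | add x y hx hy => simp only [map_add, add_mul, hx, hy]
  | single x r =>
    induction b using MonoidAlgebra.induction_linear with
    | zero => simp
    | add y y' hy hy' => simp only [map_add, mul_add, hy, hy']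
    | single y s => simp [MonoidAlgebra.single_mul_single]

omit [DecidableEq ι] in
lemma ps_xm (a b : Matrix ι ι (MonoidAlgebra k G)) (i j : ι) :
    ps (fun g : G × G => g.1 * g.2) (xm a b i j) = (a * b) i j := by
  rw [xm, Matrix.mul_apply, map_sum, Matrix.mul_apply]
  exact Finset.sum_congr rfl fun l _ => ps_mul_i _ _

/-- contraction with `d0` -/
lemma d0_tc {N : ℕ} [NeZero N] {a b : Matrix ι ι (MonoidAlgebra k G)} (h : a * b = 1) :
    ps d0 (tc (tens k (G × G) ι N (xm a b))) =
      Fintype.card ι • (MonoidAlgebra.single 1 1 : MonoidAlgebra k (ZMod N → G)) := by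
  rw [← tc_one (k := k) (G := G) (ι := ι) (N := N), ← TT.tensOne, ← h, tc_apply, tc_apply, map_sum]
  refine Finset.sum_congr rfl fun I _ => ?_
  rw [TT.tens_apply, TT.tens_apply]
  have h1 := ps_tt (fun (_ : ZMod N) (g : G × G) => g.1 * g.2)
    (fun j => xm a b (I j) (sh I j))
  simp only [ps_xm] at h1
  exact h1

/-- inclusion of words -/
def w1 {N : ℕ} (γ : ZMod N → G) : ZMod N → G × G := fun j => (γ j, 1)

/-- inclusion of words -/
def w2 {N : ℕ} (γ : ZMod N → G) : ZMod N → G × G := fun j => (1, γ j)

lemma tens_map1 {N : ℕ} [NeZero N] (a : Matrix ι ι (MonoidAlgebra k G)) (I J : ZMod N → ι) :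
    tens k (G × G) ι N (a.map i1) I J = ps w1 (tens k G ι N a I J) := by
  rw [TT.tens_apply, TT.tens_apply]
  have h1 := ps_tt (fun (_ : ZMod N) (g : G) => ((g, 1) : G × G)) (fun j => a (I j) (J j))
  exact h1.symm

lemma tens_map2 {N : ℕ} [NeZero N] (a : Matrix ι ι (MonoidAlgebra k G)) (I J : ZMod N → ι) :
    tens k (G × G) ι N (a.map i2) I J = ps w2 (tens k G ι N a I J) := by
  rw [TT.tens_apply, TT.tens_apply]
  have h1 := ps_tt (fun (_ : ZMod N) (g : G) => ((1, g) : G × G)) (fun j => a (I j) (J j))
  exact h1.symm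

lemma ps_d1 {N : ℕ} (α β : MonoidAlgebra k (ZMod N → G)) :
    ps d1 (ps w1 α * ps w2 β) = β * ps sh α := by
  induction α using MonoidAlgebra.induction_linear with
  | zero => simp
  | add x y hx hy => simp only [map_add, add_mul, mul_add, hx, hy]
  | single x r =>
    induction β using MonoidAlgebra.induction_linear with
    | zero => simp
    | add y y' hy hy' => simp only [map_add, add_mul, mul_add, hy, hy']
    | single y s =>
      simp only [ps_single, MonoidAlgebra.single_mul_single, mul_comm r s]
      congr 1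
      funext j
      simp [d1, w1, w2, sh]

lemma tens_sh {N : ℕ} [NeZero N] (a : Matrix ι ι (MonoidAlgebra k G)) (I J : ZMod N → ι) :
    ps sh (tens k G ι N a I J) = tens k G ι N a (sh I) (sh J) := by
  have h1 : rot k G ι N (tens k G ι N a) = tens k G ι N a := specT.rotTens _ _ _ _ _
  have h2 : tens k G ι N a I J = ps (rotG N G) (tens k G ι N a (sh I) (sh J)) := by
    conv_lhs => rw [← h1]
    rfl
  rw [h2, ps_ps]
  have h3 : (fun x : ZMod N → G => sh (rotG N G x)) = id := by
    funext x j
    show x (j + 1 - 1) = x j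
    rw [add_sub_cancel_right]
  rw [h3]
  generalize tens k G ι N a (sh I) (sh J) = y
  induction y using MonoidAlgebra.induction_linear with
  | zero => simp
  | add x y hx hy => rw [map_add, hx, hy]
  | single x r => simp

/-- contraction with `d1` -/
lemma d1_tc {N : ℕ} [NeZero N] {a b : Matrix ι ι (MonoidAlgebra k G)} (h : b * a = 1) :
    ps d1 (tc (tens k (G × G) ι N (xm a b))) =
      Fintype.card ι • (MonoidAlgebra.single 1 1 : MonoidAlgebra k (ZMod N → G)) := by
  rw [← tc_one (k := k) (G := G) (ι := ι) (N := N), ← TT.tensOne, ← h, xm, TT.tensMul, TT.tensMul,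
    tc_apply, tc_apply, map_sum]
  simp only [Matrix.mul_apply, map_sum, tens_map1, tens_map2, ps_d1, tens_sh]
  rw [Finset.sum_comm]
  refine Finset.sum_congr rfl fun J _ => ?_
  exact Function.Bijective.sum_comp sh_bij
    (fun K => tens k G ι N b J K * tens k G ι N a K (sh J))

/-! ### the functional -/

/-- the contribution of the last second letter -/
def Psi (θ : G → G → k) {N : ℕ} (w : ZMod N → G × G) : k := ga θ w (-1)

lemma cp_neg_one {N : ℕ} (u : ZMod N → G) :
    cp u (-1) = ((List.range N).map fun m : ℕ => u (m : ZMod N)).prod := by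
  unfold cp
  congr 1
  apply List.map_congr_left
  intro m _
  congr 1
  ring

/-- multiply the pairs at the places `≠ -1` -/
def fl {N : ℕ} (j : ZMod N) (g : G × G) : G × G := if j = -1 then g else (g.1 * g.2, 1)

lemma Psi_fl (θ : G → G → k) {N : ℕ} (w : ZMod N → G × G) :
    Psi θ (fun j => fl j (w j)) = Psi θ w := by
  unfold Psi ga
  have e1 : (fun j => fl j (w j)) (-1) = w (-1) := by simp [fl]
  have e2 : d0 (fun j => fl j (w j)) = d0 w := by
    funext j
    unfold d0 fl
    by_cases h : j = -1
    · simp [h]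
    · simp [h]
  rw [e1, e2]

lemma prod_update {N : ℕ} [NeZero N] (g : G) :
    ((List.range N).map fun m : ℕ => if (m : ZMod N) = -1 then g else 1).prod = g := by
  obtain ⟨n, rfl⟩ : ∃ n, N = n + 1 := ⟨N - 1, (Nat.succ_pred (NeZero.ne N)).symm⟩
  rw [List.range_succ, List.map_append, List.prod_append]
  have h1 : ((List.range n).map fun m : ℕ => if (m : ZMod (n + 1)) = -1 then g else 1).prod = 1 := by
    apply List.prod_eq_one
    intro x hx
    obtain ⟨m, hm, rfl⟩ := List.mem_map.1 hx
    rw [if_neg]
    intro h
    have h2 : ((m + 1 : ℕ) : ZMod (n + 1)) = 0 := by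
      rw [Nat.cast_add, h, Nat.cast_one, neg_add_cancel]
    rw [ZMod.natCast_eq_zero_iff] at h2
    have h3 := Nat.le_of_dvd (Nat.succ_pos m) h2
    have h4 := List.mem_range.1 hm
    omega
  have h2 : (n : ZMod (n + 1)) = -1 := by
    rw [eq_neg_iff_add_eq_zero]
    exact_mod_cast ZMod.natCast_self (n + 1)
  rw [h1, one_mul]
  simp [h2]

/-- the word with the letter `y` at the place `-1` -/
def wy (N : ℕ) (y : G × G) : ZMod N → G × G := fun j => if j = -1 then y else 1

lemma Psi_wy (θ : G → G → k) (N : ℕ) [NeZero N] (y : G × G) :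
    Psi θ (wy N y) = θ y.2 (y.1 * y.2) := by
  unfold Psi ga
  rw [cp_neg_one]
  have e1 : ((List.range N).map fun m : ℕ => d0 (wy N y) (m : ZMod N)).prod = y.1 * y.2 := by
    rw [← prod_update (N := N) (y.1 * y.2)]
    congr 1
    apply List.map_congr_left
    intro m _
    unfold d0 wy
    by_cases h : (m : ZMod N) = -1
    · simp [h]
    · simp [h]
  rw [e1]
  simp [wy]

open Classical in
lemma tt_update {N : ℕ} [NeZero N] (y : MonoidAlgebra k (G × G)) :
    TT.tt (fun j : ZMod N => if j = -1 then y else 1) = ps (wy N) y := by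
  have h1 : ∀ y' : MonoidAlgebra k (G × G), TT.tt (fun j : ZMod N => if j = -1 then y' else 1) =
      ps (wy N) y' := by
    intro y'
    have h2 : (fun j : ZMod N => if j = -1 then y' else 1) = fun j : ZMod N =>
        (if j = -1 then y' else MonoidAlgebra.single 1 1) := by
      funext j
      rw [MonoidAlgebra.one_def]
    apply MonoidAlgebra.ext
    apply Finsupp.ext
    intro δ
    rw [TT.tt_coeff, ← Finset.mul_prod_erase Finset.univ _ (Finset.mem_univ (-1 : ZMod N)),
      if_pos rfl, ps_coeff]
    by_cases hδ : ∀ j : ZMod N, j ≠ -1 → δ j = 1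
    · have h3 : ∏ x ∈ Finset.univ.erase (-1 : ZMod N),
          ((if x = -1 then y' else 1 : MonoidAlgebra k (G × G)).coeff (δ x)) = 1 := by
        refine Finset.prod_eq_one fun j hj => ?_
        rw [if_neg (Finset.ne_of_mem_erase hj), hδ j (Finset.ne_of_mem_erase hj),
          MonoidAlgebra.one_def, MonoidAlgebra.coeff_single, Finsupp.single_eq_same]
      rw [h3, mul_one]
      have h4 : ∀ x : G × G, wy N x = δ ↔ x = δ (-1) := by
        intro x
        constructor
        · intro h
          rw [← h]
          simp [wy]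
        · rintro rfl
          funext j
          unfold wy
          split_ifs with hj
          · rw [hj]
          · exact (hδ j hj).symm
      simp only [h4]
      rw [Finset.sum_ite_eq']
      split_ifs with h5
      · rfl
      · exact Finsupp.notMem_support_iff.1 h5
    · push Not at hδ
      obtain ⟨j, hj, hj2⟩ := hδ
      have h3 : ∏ x ∈ Finset.univ.erase (-1 : ZMod N),
          ((if x = -1 then y' else 1 : MonoidAlgebra k (G × G)).coeff (δ x)) = 0 := by
        refine Finset.prod_eq_zero (Finset.mem_erase.2 ⟨hj, Finset.mem_univ j⟩) ?_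
        rw [if_neg hj, MonoidAlgebra.one_def, MonoidAlgebra.coeff_single, Finsupp.single_apply,
          if_neg]
        exact fun h => hj2 h.symm
      rw [h3, mul_zero]
      symm
      refine Finset.sum_eq_zero fun x _ => ?_
      rw [if_neg]
      intro h
      apply hj2
      rw [← h]
      simp [wy, hj]
  exact h1 y

lemma ps_one_pair (i j : ι) (a b : Matrix ι ι (MonoidAlgebra k G)) (h : a * b = 1) :
    ps (fun g : G × G => ((g.1 * g.2, 1) : G × G)) (xm a b i j) =
      (1 : Matrix ι ι (MonoidAlgebra k (G × G))) i j := by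
  have h1 : ps (fun g : G × G => ((g.1 * g.2, 1) : G × G)) (xm a b i j) =
      ps (fun g : G => ((g, 1) : G × G)) (ps (fun g : G × G => g.1 * g.2) (xm a b i j)) :=
    (ps_ps (fun g : G × G => g.1 * g.2) (fun g : G => ((g, 1) : G × G)) (xm a b i j)).symm
  rw [h1, ps_xm, h, Matrix.one_apply, Matrix.one_apply]
  split_ifs
  · rw [MonoidAlgebra.one_def, ps_single, MonoidAlgebra.one_def]
    rfl
  · exact map_zero _

lemma ext1_ps {X Y : Type*} (f : X → Y) (h : Y → k) (a : MonoidAlgebra k X) :
    ext1 h (ps f a) = ext1 (fun x => h (f x)) a := lin_ps _ _ _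

/-- The value of the functional. -/
lemma Psi_tc {N : ℕ} [NeZero N] (θ : G → G → k) {a b : Matrix ι ι (MonoidAlgebra k G)}
    (h : a * b = 1) :
    ext1 (Psi θ) (tc (tens k (G × G) ι N (xm a b))) =
      ∑ i, ext1 (fun y : G × G => θ y.2 (y.1 * y.2)) (xm a b i i) := by
  classical
  have h1 : ∀ y : MonoidAlgebra k (ZMod N → G × G), ext1 (Psi θ) y =
      ext1 (Psi θ) (ps (fun w j => fl j (w j)) y) := by
    intro y
    rw [ext1_ps]
    simp only [Psi_fl]
  rw [h1, tc_apply, map_sum, map_sum]
  have h2 : ∀ I : ZMod N → ι, ps (fun (w : ZMod N → G × G) j => fl j (w j))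
      (tens k (G × G) ι N (xm a b) I (sh I)) =
      TT.tt fun j => if j = -1 then xm a b (I j) (sh I j) else
        (1 : Matrix ι ι (MonoidAlgebra k (G × G))) (I j) (sh I j) := by
    intro I
    rw [TT.tens_apply, ps_tt]
    congr 1
    funext j
    by_cases hj : j = -1
    · have e1 : fl (G := G) j = id := by
        funext g
        simp [fl, hj]
      rw [if_pos hj, e1]
      generalize xm a b (I j) (sh I j) = y
      induction y using MonoidAlgebra.induction_linear with
      | zero => simp
      | add x y hx hy => rw [map_add, hx, hy]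
      | single x r => simp
    · have e1 : fl (G := G) j = fun g : G × G => ((g.1 * g.2, 1) : G × G) := by
        funext g
        simp [fl, hj]
      rw [if_neg hj, e1, ps_one_pair _ _ a b h]
  simp only [h2]
  rw [sum_const]
  · refine Finset.sum_congr rfl fun i _ => ?_
    have e2 : (fun j : ZMod N => if j = -1 then xm a b i (sh (fun _ => i) j) else
        (1 : Matrix ι ι (MonoidAlgebra k (G × G))) i (sh (fun _ => i) j)) =
        fun j : ZMod N => if j = -1 then xm a b i i else 1 := by
      funext j
      show (if j = -1 then xm a b i i else (1 : Matrix ι ι (MonoidAlgebra k (G × G))) i i) = _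
      rw [Matrix.one_apply_eq]
    rw [e2, tt_update, ext1_ps]
    congr 2
    funext y
    exact Psi_wy θ N y
  · intro I hI
    have h3 : ∃ j : ZMod N, j ≠ -1 ∧ I j ≠ I (j + 1) := by
      by_contra hh
      push Not at hh
      apply hI
      refine ⟨I 0, ?_⟩
      have h4 : ∀ m : ℕ, m < N → I (m : ZMod N) = I 0 := by
        intro m
        induction m with
        | zero => intro _; simp
        | succ m ih =>
          intro hm
          rw [← ih (by omega), hh (m : ZMod N)]
          · push_cast
            rfl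
          · intro h5
            have h6 : ((m + 1 : ℕ) : ZMod N) = 0 := by
              rw [Nat.cast_add, h5, Nat.cast_one, neg_add_cancel]
            rw [ZMod.natCast_eq_zero_iff] at h6
            have := Nat.le_of_dvd (Nat.succ_pos m) h6
            omega
      funext j
      rw [← h4 j.val (ZMod.val_lt j), ZMod.natCast_zmod_val]
    obtain ⟨j, hj, hj2⟩ := h3
    have h4 : (TT.tt fun j => if j = -1 then xm a b (I j) (sh I j) else
        (1 : Matrix ι ι (MonoidAlgebra k (G × G))) (I j) (sh I j)) = 0 := by
      apply MonoidAlgebra.ext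
      apply Finsupp.ext
      intro δ
      rw [TT.tt_coeff]
      refine Finset.prod_eq_zero (Finset.mem_univ j) ?_
      rw [if_neg hj]
      show ((1 : Matrix ι ι (MonoidAlgebra k (G × G))) (I j) (I (j + 1))).coeff _ = 0
      rw [Matrix.one_apply_ne hj2]
      rfl
    rw [h4, map_zero]

lemma ext1_pair (θ : G → G → k) (a b : MonoidAlgebra k G) :
    ext1 (fun y : G × G => θ y.2 (y.1 * y.2)) (i1 a * i2 b) = bil (W2.cf θ) a b := by
  induction a using MonoidAlgebra.induction_linear with
  | zero => simp
  | add x y hx hy => simp only [map_add, add_mul, AddMonoidHom.add_apply, hx, hy]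
  | single x r =>
    induction b using MonoidAlgebra.induction_linear with
    | zero => simp
    | add y y' hy hy' => simp only [map_add, mul_add, hy, hy']
    | single y s => simp [MonoidAlgebra.single_mul_single, W2.cf]

lemma Psi_val {N : ℕ} [NeZero N] (θ : G → G → k) {a b : Matrix ι ι (MonoidAlgebra k G)}
    (h : a * b = 1) :
    ext1 (Psi θ) (tc (tens k (G × G) ι N (xm a b))) = mb (W2.cf θ) a b := by
  rw [Psi_tc θ h]
  unfold mb
  refine Finset.sum_congr rfl fun i _ => ?_
  rw [xm, Matrix.mul_apply, map_sum]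
  exact Finset.sum_congr rfl fun j _ => ext1_pair θ _ _

/-! ### the main congruence -/

/-- `(g, h) ↦ θ(g, h ^ p)` -/
def Ph (p : ℕ) (θ : G → G → k) : G → G → k := fun g h => θ g (h ^ p)

lemma Psi_rep (p e : ℕ) [NeZero (p ^ e)] [NeZero (p ^ (e + 1))] (θ : G → G → k)
    (y : MonoidAlgebra k (ZMod (p ^ e) → G × G)) :
    ext1 (Psi θ) (ps (repG p e (G × G)) y) = ext1 (Psi (Ph p θ)) y := by
  rw [ext1_ps]
  congr 2
  funext w
  have e1 : repG p e (G × G) w = fun i => w (prj p e i) := rfl
  rw [e1]
  unfold Psi ga Ph
  rw [d0_rep, cp_rep]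
  have e2 : prj p e (-1) = -1 := by rw [prj, map_neg, map_one]
  show θ (w (prj p e (-1))).2 (cp (d0 w) (prj p e (-1)) ^ p) = _
  rw [e2]

theorem main_cong (p e : ℕ) [Fact p.Prime]
    (hk : ∀ c : k, (p : k) ∣ c ^ p - c) (hk0 : ∀ c : k, (p : k) * c = 0 → c = 0)
    {θ : G → G → k} (hθ : IsCoc θ) (h0 : ∀ y, θ y y = 0)
    {a b : Matrix ι ι (MonoidAlgebra k G)} (hab : a * b = 1) (hba : b * a = 1) :
    ((p ^ (e + 1) : ℕ) : k) ∣ mb (W2.cf θ) a b - mb (W2.cf (Ph p θ)) a b := by
  have hp0 : p ≠ 0 := (Fact.out : p.Prime).ne_zero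
  have : NeZero (p ^ e) := ⟨pow_ne_zero _ hp0⟩
  have : NeZero (p ^ (e + 1)) := ⟨pow_ne_zero _ hp0⟩
  set N := p ^ (e + 1) with hN
  obtain ⟨z, hz⟩ := NN.norm p e hk (xm a b)
  -- the words
  set Y : MonoidAlgebra k (ZMod N → G × G) := tc z with hY
  have h1 : ∑ j ∈ Finset.range N, ps ((rotG N (G × G))^[j]) Y =
      tc (tens k (G × G) ι N (xm a b)) -
        ps (repG p e (G × G)) (tc (tens k (G × G) ι (p ^ e) (xm a b))) := by
    rw [hY, ← tc_nm, hz, map_sub, tc_dhat]
  -- the left side
  have hit : ∀ (j : ℕ) (w : ZMod N → G × G), (rotG N (G × G))^[j] w = fun i => w (i - j) := by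
    intro j
    induction j with
    | zero => intro w; funext i; simp
    | succ j ih =>
      intro w
      rw [iterate_succ_apply, ih]
      funext i
      show w (i - j - 1) = _
      congr 1
      push_cast
      ring
  have hcp : ∀ (j : ZMod N) (w : ZMod N → G × G) (i : ZMod N),
      ga θ (fun i => w (i - j)) i = ga θ w (i - j) := by
    intro j w i
    unfold ga
    congr 1
    unfold cp d0
    congr 1
    apply List.map_congr_left
    intro m _
    have : i + 1 + (m : ZMod N) - j = i - j + 1 + (m : ZMod N) := by ring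
    show (w (i + 1 + (m : ZMod N) - j)).1 * (w (i + 1 + (m : ZMod N) - j)).2 = _
    rw [this]
  have h2 : ext1 (Psi θ) (∑ j ∈ Finset.range N, ps ((rotG N (G × G))^[j]) Y) =
      ext1 (fun w => ∑ j : ZMod N, ga θ w j) Y := by
    have e1 : (fun w : ZMod N → G × G => ∑ j : ZMod N, ga θ w j) =
        fun w => ∑ j ∈ Finset.range N, Psi θ ((rotG N (G × G))^[j] w) := by
      funext w
      have e2 : ∑ j : ZMod N, ga θ w j = ∑ j : ZMod N, ga θ w (-1 - j) :=
        (Equiv.sum_comp (Equiv.subLeft (-1 : ZMod N)) (fun j => ga θ w j)).symm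
      rw [e2, sum_zmod]
      refine Finset.sum_congr rfl fun j _ => ?_
      rw [hit, Psi, hcp]
    rw [e1, map_sum]
    have e3 : ∀ y : MonoidAlgebra k (ZMod N → G × G),
        ext1 (fun w => ∑ j ∈ Finset.range N, Psi θ ((rotG N (G × G))^[j] w)) y =
        ∑ j ∈ Finset.range N, ext1 (fun w => Psi θ ((rotG N (G × G))^[j] w)) y := by
      intro y
      induction y using MonoidAlgebra.induction_linear with
      | zero => simp
      | add x y hx hy => simp only [map_add, hx, hy, Finset.sum_add_distrib]
      | single x r => simp only [ext1_single, Finset.mul_sum]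
    rw [e3]
    exact Finset.sum_congr rfl fun j _ => ext1_ps _ _ _
  have h3 : ext1 (fun w => ∑ j : ZMod N, ga θ w j) Y =
      mb (W2.cf θ) a b - mb (W2.cf (Ph p θ)) a b := by
    rw [← h2, h1, map_sub, Psi_val θ hab, Psi_rep, Psi_val (Ph p θ) hab]
  rw [← h3]
  -- modulo N
  have h4 : qN k N (ext1 (fun w => ∑ j : ZMod N, ga θ w j) Y) = 0 := by
    -- functional with values in k / N
    set L : MonoidAlgebra k (ZMod N → G) →+ RN k N :=
      lin (fun u => (AddMonoidHom.mulRight (HH θ u)).comp (qN k N).toAddMonoidHom) with hL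
    have hLs : ∀ (u : ZMod N → G) (r : k), L (MonoidAlgebra.single u r) = qN k N r * HH θ u := by
      intro u r
      rw [hL, lin_single]
      rfl
    have h5 : ∀ y : MonoidAlgebra k (ZMod N → G × G),
        qN k N (ext1 (fun w => ∑ j : ZMod N, ga θ w j) y) = L (ps d0 y) - L (ps d1 y) := by
      intro y
      induction y using MonoidAlgebra.induction_linear with
      | zero => simp
      | add x y hx hy => simp only [map_add, hx, hy]; abel
      | single x r =>
        rw [ext1_single, ps_single, ps_single, hLs, hLs, ← mul_sub, HH_diff hθ h0, map_mul]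
    rw [h5, ← map_sub]
    -- the difference of the contractions
    set Z : MonoidAlgebra k (ZMod N → G) := ps d0 Y - ps d1 Y with hZ
    have hcomm0 : ∀ (j : ℕ) (w : ZMod N → G × G),
        d0 ((rotG N (G × G))^[j] w) = (rotG N G)^[j] (d0 w) := by
      intro j
      induction j with
      | zero => intro w; rfl
      | succ j ih => intro w; rw [iterate_succ_apply', iterate_succ_apply', ← ih]; rfl
    have hcomm1 : ∀ (j : ℕ) (w : ZMod N → G × G),
        d1 ((rotG N (G × G))^[j] w) = (rotG N G)^[j] (d1 w) := by
      intro j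
      induction j with
      | zero => intro w; rfl
      | succ j ih =>
        intro w
        rw [iterate_succ_apply', iterate_succ_apply', ← ih]
        funext i
        show ((rotG N (G × G))^[j] w (i - 1)).2 * ((rotG N (G × G))^[j] w (i + 1 - 1)).1 =
          ((rotG N (G × G))^[j] w (i - 1)).2 * ((rotG N (G × G))^[j] w (i - 1 + 1)).1
        rw [add_sub_cancel_right, sub_add_cancel]
    have h6 : ∑ j ∈ Finset.range N, ps ((rotG N G)^[j]) Z = 0 := by
      have e1 : ∀ j, ps ((rotG N G)^[j]) Z =
          ps d0 (ps ((rotG N (G × G))^[j]) Y) - ps d1 (ps ((rotG N (G × G))^[j]) Y) := by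
        intro j
        rw [hZ, map_sub, ps_ps, ps_ps, ps_ps, ps_ps]
        simp only [hcomm0, hcomm1]
      simp only [e1]
      rw [Finset.sum_sub_distrib, ← map_sum, ← map_sum, h1, map_sub, map_sub, d0_tc hab,
        d1_tc hba]
      have e2 : ∀ y : MonoidAlgebra k (ZMod (p ^ e) → G × G),
          ps d0 (ps (repG p e (G × G)) y) = ps (repG p e G) (ps d0 y) := by
        intro y
        rw [ps_ps, ps_ps]
        rfl
      have e3 : ∀ y : MonoidAlgebra k (ZMod (p ^ e) → G × G),
          ps d1 (ps (repG p e (G × G)) y) = ps (repG p e G) (ps d1 y) := by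
        intro y
        rw [ps_ps, ps_ps]
        congr 2
        funext w
        exact d1_rep p e w
      rw [e2, e3, d0_tc hab, d1_tc hba, sub_self]
    -- the kernel of the norm
    have hco : ∀ (j : ℕ) (y : MonoidAlgebra k (ZMod N → G)) (u : ZMod N → G),
        (ps ((rotG N G)^[j]) y).coeff u = y.coeff (sh^[j] u) := by
      intro j y u
      have hinj : Injective ((rotG N G)^[j]) := (NN.rotG_inj N).iterate j
      have e1 : (rotG N G)^[j] (sh^[j] u) = u := by
        have : ∀ (j : ℕ) (u : ZMod N → G), (rotG N G)^[j] (sh^[j] u) = u := by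
          intro j
          induction j with
          | zero => intro u; rfl
          | succ j ih =>
            intro u
            rw [iterate_succ_apply, iterate_succ_apply']
            have e2 : rotG N G (sh (sh^[j] u)) = sh^[j] u := NN.rotG_sh _
            rw [e2, ih]
        exact this j u
      have e2 := Finsupp.mapDomain_apply hinj y.coeff (sh^[j] u)
      rw [e1] at e2
      exact e2
    obtain ⟨s, hs1, hs2⟩ := NAbs.ker_norm (k := k) (sh (N := N) (X := G)) N
      (Nat.pos_of_ne_zero (NeZero.ne _)) NN.sh_N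
      (fun c hc => NN.pow_torsion hk0 (e + 1) c hc)
      (fun u => Z.coeff u) (Z.coeff.support.finite_toSet.subset
        (fun u hu => Finset.mem_coe.2 (Finsupp.mem_support_iff.2 hu)))
      (fun u => by
        have := congrArg (fun y : MonoidAlgebra k (ZMod N → G) => y.coeff u) h6
        simp only [MonoidAlgebra.coeff_sum, Finsupp.finsetSum_apply, hco] at this
        exact this)
    set t : MonoidAlgebra k (ZMod N → G) := MonoidAlgebra.ofCoeff (Finsupp.ofSupportFinite s hs1)
      with ht
    have h7 : Z = t - ps (rotG N G) t := by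
      apply MonoidAlgebra.ext
      apply Finsupp.ext
      intro u
      rw [hs2 u, MonoidAlgebra.coeff_sub, Finsupp.sub_apply]
      have := hco 1 t u
      simp only [iterate_one] at this
      rw [this]
      rfl
    rw [h7, map_sub, sub_eq_zero]
    have h8 : ∀ y : MonoidAlgebra k (ZMod N → G), L (ps (rotG N G) y) = L y := by
      intro y
      induction y using MonoidAlgebra.induction_linear with
      | zero => simp
      | add x y hx hy => simp only [map_add, hx, hy]
      | single x r =>
        rw [ps_single, hLs, hLs]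
        have e4 : HH θ (rotG N G x) = HH θ x := by
          rw [← HH_sh hθ h0 (rotG N G x)]
          congr 1
          funext j
          show x (j + 1 - 1) = x j
          rw [add_sub_cancel_right]
        rw [e4]
    rw [h8]
  have h5 := Ideal.Quotient.eq_zero_iff_mem.1 h4
  exact Ideal.mem_span_singleton.1 h5

end Fro

end Pool.Agent.Lib.MPb6f35e.Z0
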