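import Pool.Agent.Lib.MP_b6f35e_al.ZK.GEN
import Pool.Agent.Lib.MP_b6f35e_al.Z0.Spec

/-!
# Module GENC of Z0 (MP_b6f35e_al): generators of `K_0(ℤ[C][t, t⁻¹])` modulo constants

As `ZK/GEN.lean`: only the vanishing of constants is used.
-/

set_option autoImplicit false

noncomputable section

namespace Pool.Agent.Lib.MPb6f35e.Z0

open Pool.Agent.Lib.MPb6f35e.WH (FinSub conjHom K1)
open Pool.Agent.Lib.MPb6f35e.ZK

universe u v w

namespace GENCMod

open Pool.Agent.Lib.MPb6f35e.ZK.GENMod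

/-- Constants vanish. -/
theorem mk_const (A : Type u) [Ring A] (ι : Type w) [Fintype ι] (e : Matrix ι ι (Lau A))
    (he : e * e = e) : Kc.mk A (K0.clsF (e.map (c1 A)) (map_idem (c1 A) he)) = 0 := by
  have h := Kc.mk_c1 A (K0.clsF e he)
  rwa [K0.map_clsF] at h

lemma mk_one (R : Type u) [Ring R] : Kc.mk R (K0.one (Lau R)) = 0 := by
  have h := mk_const R (Fin 1) (1 : Matrix (Fin 1) (Fin 1) (Lau R)) (Matrix.one_mul _)
  have h1 : K0.clsF ((1 : Matrix (Fin 1) (Fin 1) (Lau R)).map (c1 R))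
      (map_idem (c1 R) (Matrix.one_mul _)) = K0.one (Lau R) := by
    rw [K0.one, ← K0.clsF_fin]
    exact K0.clsF_congr _ _ (Matrix.map_one _ (map_zero _) (map_one _))
  rw [← h1]
  exact h

lemma mk_clsF_one (R : Type u) [Ring R] (k : ℕ) :
    Kc.mk R (K0.clsF (1 : Matrix (Fin k) (Fin k) (Lau R)) (Matrix.one_mul _)) = 0 := by
  rw [K0.clsF_one', map_nsmul, mk_one, nsmul_zero]

lemma mk_GG {R : Type u} [Ring R] {n : ℕ} {e : Matrix (Fin n) (Fin n) (Lau R)}
    (he : e * e = e) (k : ℕ) : Kc.mk R (K0.cls (GG e k) (GG_idem he k)) =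
      Kc.mk R (K0.cls e he) := by
  have h1 : K0.cls (GG e k) (GG_idem he k) = K0.clsF (FF e k) (FF_idem he k) := rfl
  have h2 : K0.clsF (FF e k) (FF_idem he k) = K0.clsF (EE e) (EE_idem he) +
      K0.clsF (1 : Matrix (Fin k) (Fin k) (Lau R)) (Matrix.one_mul _) :=
    K0.clsF_sum (EE_idem he) (Matrix.one_mul _)
  have h3 : K0.clsF (EE e) (EE_idem he) = K0.clsF e he +
      K0.clsF (1 - e.map (c1 R)) (compl_idem (map_idem (c1 R) he)) :=
    K0.clsF_sum he (compl_idem (map_idem (c1 R) he))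
  have h4 := congrArg (Kc.mk R) (K0.clsF_compl (map_idem (c1 R) he))
  rw [map_add, mk_const R (Fin n) e he, zero_add, mk_clsF_one] at h4
  rw [h1, h2, h3, map_add, map_add, h4, mk_clsF_one, add_zero, add_zero, K0.clsF_fin]

end GENCMod

open Pool.Agent.Lib.MPb6f35e.ZK.GENMod in
/-- GENC -/
theorem specGENC_of (hMIL : SpecMIL.{u}) (hORD : SpecORD.{u}) (hFIN : SpecFIN.{u})
    (hK1F : SpecK1F.{u}) (hLNK : SpecLNK.{u}) : SpecGENC.{u} := by
  intro C _ _ S hS d hd x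
  obtain ⟨M, h, hM, hord⟩ := hORD C
  have hsq : IsSq (conSq M h) := isSq_con h hM
  obtain ⟨d', hd'⟩ := hMIL.bd _ _ _ _ (conSq M h) hsq
  have fin1 := finite_quot h hM
  have fin2 := finite_quot' h hM
  obtain ⟨y, rfl⟩ := Kc.mk_surjective _ x
  obtain ⟨n, e, he, k₀, rfl⟩ := K0.exists_rep y
  -- over `M`
  have he1 := map_idem (lauMap (alphaM M h)) he
  have m1 : K0.clsF (EE (e.map (lauMap (alphaM M h)))) (EE_idem he1) =
      K0.clsF (1 : Matrix (Fin n) (Fin n) (Lau M)) (Matrix.one_mul _) := by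
    refine clsF_EE _ he1 ?_
    rw [K0.clsF_fin, K0.clsF_fin]
    exact hord n _ he1
  obtain ⟨k, hk⟩ := K0.exactF _ _ m1
  -- over the finite ring
  have he2 := map_idem (lauMap (Ideal.Quotient.mk ((conI M).comap (alphaM M h)))) he
  have m2 := exists_eqv hFIN he2
  have g1 : Eqv ((GG e k).map (conSq M h).i₁) (1 : Matrix (Fin (n + k)) (Fin (n + k)) (Lau M)) := by
    show Eqv ((GG e k).map (lauMap (alphaM M h))) _
    rw [GG_map]
    exact eqv_GG _ he1 hk
  have g2 : Eqv ((GG e k).map (conSq M h).i₂) (1 : Matrix (Fin (n + k)) (Fin (n + k))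
      (Lau (MonoidAlgebra ℤ C ⧸ (conI M).comap (alphaM M h)))) := by
    show Eqv ((GG e k).map (lauMap (Ideal.Quotient.mk ((conI M).comap (alphaM M h))))) _
    rw [GG_map]
    exact eqv_GG _ he2 (Eqv.sum (eqv_EE _ he2 m2) (Eqv.refl (Matrix.one_mul _)))
  obtain ⟨U, hU⟩ := exists_gl (conSq M h) hsq.comm (GG e k) g1 g2
  have hb := hd' _ _ (GG e k) (GG_idem he k) U hU
  -- generators
  obtain ⟨m, hm, a, ε, f, hf, hsum⟩ := hK1F (M ⧸ conI M) (K1.cls U)
  choose f' hf' hff using fun j => hLNK C M h hM S hS d hd d' hd' (f j) (hf j)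
  refine ⟨m, hm, a, ε, f', hf', ?_⟩
  have h5 : Kc.mk (MonoidAlgebra ℤ C) (K0.cls e he -
      K0.cls (1 : Matrix (Fin k₀) (Fin k₀) _) (Matrix.one_mul _)) =
      Kc.mk (MonoidAlgebra ℤ C) (d' (K1.cls U)) := by
    rw [hb, map_sub, map_sub, map_nsmul, GENCMod.mk_one, nsmul_zero, GENCMod.mk_GG he k,
      ← K0.clsF_fin
      (Matrix.one_mul (1 : Matrix (Fin k₀) (Fin k₀) (Lau (MonoidAlgebra ℤ C)))),
      GENCMod.mk_clsF_one]
  rw [h5, ← map_nsmul, ← map_nsmul, hsum, map_sum, map_sum]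
  refine Finset.sum_congr rfl fun j _ => ?_
  rw [map_zsmul, map_zsmul, hff]

end Pool.Agent.Lib.MPb6f35e.Z0
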