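import Pool.Agent.Lib.MP_b6f35e_al.Z0.Spec

/-!
# Z0, module LIN0: preliminaries (MP_b6f35e_al)
-/

set_option autoImplicit false

noncomputable section

namespace Pool.Agent.Lib.MPb6f35e.Z0

open Pool.Agent.Lib.MPb6f35e.WH (FinSub conjHom K1)
open Pool.Agent.Lib.MPb6f35e.ZK
open Pool.Agent.Lib.MPb6f35e.W2 (IsCoc DK)

universe u v w t

namespace LIN0

/-! ### linear algebra -/

/-- The value of a homomorphism to `ℚ` at a product of powers. -/
lemma toAdd_prod {A : Type u} [Group A] {K : Type v} [Fintype K] (a : K → A) (m : K → ℤ)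
    (g : A →* Multiplicative ℚ) :
    (g ((Finset.univ.toList.map fun k => a k ^ m k).prod)).toAdd = ∑ k, (m k : ℚ) * (g (a k)).toAdd := by
  have h : ∀ l : List K, (g ((l.map fun k => a k ^ m k).prod)).toAdd =
      (l.map fun k => (m k : ℚ) * (g (a k)).toAdd).sum := by
    intro l
    induction l with
    | nil => simp
    | cons k l ih =>
      rw [List.map_cons, List.prod_cons, map_mul, toAdd_mul, ih, map_zpow, toAdd_zpow,
        List.map_cons, List.sum_cons, zsmul_eq_mul]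
  rw [h, Finset.sum_map_toList]

/-- The vector of the values of a homomorphism. -/
def hv {A : Type u} [Group A] {K : Type v} (a : K → A) (g : A →* Multiplicative ℚ) : K → ℚ :=
  fun k => (g (a k)).toAdd

/-- If `f` kills what `Γ` kills, a vector orthogonal to the vectors of `Γ` is orthogonal to that
of `f`. -/
lemma perp {A : Type u} [Group A] {K : Type v} [Fintype K] (a : K → A)
    (Γ : Set (A →* Multiplicative ℚ)) (f : A →* Multiplicative ℚ)
    (hΓ : ∀ z : A, (∀ g ∈ Γ, g z = 1) → f z = 1) (q : K → ℚ)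
    (hq : ∀ u ∈ Submodule.span ℚ (hv a '' Γ), ∑ k, q k * u k = 0) :
    ∑ k, q k * hv a f k = 0 := by
  classical
  -- clear denominators
  let N : ℕ := ∏ k, (q k).den
  have hN : (N : ℚ) ≠ 0 := by
    have : N ≠ 0 := Finset.prod_ne_zero_iff.2 fun k _ => (q k).den_nz
    exact_mod_cast this
  have hm : ∀ k, ∃ m : ℤ, (m : ℚ) = N * q k := by
    intro k
    obtain ⟨r, hr⟩ : (q k).den ∣ N := Finset.dvd_prod_of_mem _ (Finset.mem_univ k)
    refine ⟨(q k).num * r, ?_⟩
    rw [hr]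
    push_cast
    rw [mul_right_comm, mul_comm ((q k).den : ℚ), Rat.mul_den_eq_num]
  choose m hm using hm
  have h2 : ∀ g : A →* Multiplicative ℚ,
      (g ((Finset.univ.toList.map fun k => a k ^ m k).prod)).toAdd =
        N * ∑ k, q k * hv a g k := by
    intro g
    rw [toAdd_prod, Finset.mul_sum]
    refine Finset.sum_congr rfl fun k _ => ?_
    rw [hm, mul_assoc]
    rfl
  have h3 : f ((Finset.univ.toList.map fun k => a k ^ m k).prod) = 1 := by
    refine hΓ _ fun g hg => ?_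
    have h4 := h2 g
    have h5 : ∑ k, q k * hv a g k = 0 := hq (hv a g) (Submodule.subset_span ⟨g, hg, rfl⟩)
    rw [h5, mul_zero] at h4
    exact Multiplicative.toAdd.injective h4
  have h4 := h2 f
  rw [h3, toAdd_one] at h4
  exact (mul_eq_zero.1 h4.symm).resolve_left hN

/-- A projection onto a space of vectors, by its matrix. -/
lemma exists_proj {K : Type v} [Fintype K] (U : Submodule ℚ (K → ℚ)) :
    ∃ P : K → K → ℚ, (∀ k, P k ∈ U) ∧ ∀ u ∈ U, ∀ l, u l = ∑ k, u k * P k l := by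
  classical
  obtain ⟨p, hp⟩ := U.subtype.exists_leftInverse_of_injective
    (LinearMap.ker_eq_bot.2 U.injective_subtype)
  have hp' : ∀ u ∈ U, ((p u : U) : K → ℚ) = u := by
    intro u hu
    have := LinearMap.congr_fun hp ⟨u, hu⟩
    exact congrArg Subtype.val this
  let E : K → (K → ℚ) := fun k => Pi.single k 1
  have hsum : ∀ (v : K → ℚ) (l : K), ((p v : U) : K → ℚ) l = ∑ k, v k * ((p (E k) : U) : K → ℚ) l := by
    intro v l
    have hv : v = ∑ k, v k • E k := by
      funext j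
      rw [Finset.sum_apply, Finset.sum_eq_single j]
      · simp [E]
      · intro k _ hk
        simp [E, hk.symm]
      · intro h
        exact absurd (Finset.mem_univ j) h
    conv_lhs => rw [hv]
    rw [map_sum, Submodule.coe_sum, Finset.sum_apply]
    refine Finset.sum_congr rfl fun k _ => ?_
    rw [map_smul, Submodule.coe_smul, Pi.smul_apply, smul_eq_mul]
  refine ⟨fun k => ((p (E k) : U) : K → ℚ), fun k => (p (E k)).2, fun u hu l => ?_⟩
  rw [← hsum u l, hp' u hu]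

open Classical in
/-- The vector of a homomorphism which kills what `Γ` kills is in the span of those of `Γ`. -/
lemma mem_span {A : Type u} [Group A] {K : Type v} [Fintype K] (a : K → A)
    (Γ : Set (A →* Multiplicative ℚ)) (f : A →* Multiplicative ℚ)
    (hΓ : ∀ z : A, (∀ g ∈ Γ, g z = 1) → f z = 1) :
    hv a f ∈ Submodule.span ℚ (hv a '' Γ) := by
  obtain ⟨P, hP, hP'⟩ := exists_proj (Submodule.span ℚ (hv a '' Γ))
  have h1 : hv a f = ∑ k, hv a f k • P k := by
    funext l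
    rw [Finset.sum_apply]
    have h2 := perp a Γ f hΓ (fun k => (if l = k then 1 else 0) - P k l) (by
      intro u hu
      simp only [sub_mul, Finset.sum_sub_distrib, ite_mul, one_mul, zero_mul,
        Finset.sum_ite_eq, Finset.mem_univ, if_true]
      rw [sub_eq_zero, hP' u hu l]
      exact Finset.sum_congr rfl fun k _ => mul_comm _ _)
    simp only [sub_mul, Finset.sum_sub_distrib, ite_mul, one_mul, zero_mul,
        Finset.sum_ite_eq, Finset.mem_univ, if_true] at h2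
    rw [sub_eq_zero] at h2
    rw [h2]
    refine Finset.sum_congr rfl fun k _ => ?_
    rw [Pi.smul_apply, smul_eq_mul, mul_comm]
  rw [h1]
  exact Submodule.sum_mem _ fun k _ => Submodule.smul_mem _ _ (hP k)

open Classical in
lemma LA {A : Type u} [Group A] {K : Type v} [Fintype K] (a : K → A) {V : Type w}
    [AddCommGroup V] [Module ℚ V] (B : K → V) (Ξ : A → V →ₗ[ℚ] ℚ)
    (hΞ : ∀ x y b, Ξ (x * y) b = Ξ x b + Ξ y b) (Φ : Set (A →* Multiplicative ℚ))
    (hΦ : ∀ (b : V) (g : A →* Multiplicative ℚ), (∀ x, (g x).toAdd = Ξ x b) → g ∈ Φ)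
    (h : ∀ g ∈ Φ, ∀ x : A, Ξ x (∑ k, (g (a k)).toAdd • B k) = 0) :
    ∑ k, Ξ (a k) (B k) = 0 := by
  -- the homomorphisms `Ξ(·)(b)`
  have hΞ1 : ∀ b, Ξ 1 b = 0 := by
    intro b
    have := hΞ 1 1 b
    rw [mul_one] at this
    linarith
  let F : V → (A →* Multiplicative ℚ) := fun b =>
    { toFun := fun x => Multiplicative.ofAdd (Ξ x b)
      map_one' := by rw [hΞ1]; rfl
      map_mul' := fun x y => by rw [hΞ]; rfl }
  obtain ⟨P, hP, hP'⟩ := exists_proj (Submodule.span ℚ (hv a '' Φ))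
  -- vectors in the span
  have h2 : ∀ u ∈ Submodule.span ℚ (hv a '' Φ), ∀ x, Ξ x (∑ k, u k • B k) = 0 := by
    intro u hu x
    induction hu using Submodule.span_induction with
    | mem u hu =>
      obtain ⟨g, hg, rfl⟩ := hu
      exact h g hg x
    | zero => simp
    | add u v _ _ hu hv =>
      have : ∑ k, (u + v) k • B k = (∑ k, u k • B k) + ∑ k, v k • B k := by
        rw [← Finset.sum_add_distrib]
        refine Finset.sum_congr rfl fun k _ => ?_
        rw [Pi.add_apply, add_smul]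
      rw [this, map_add, hu, hv, add_zero]
    | smul r u _ hu =>
      have : ∑ k, (r • u) k • B k = r • ∑ k, u k • B k := by
        rw [Finset.smul_sum]
        refine Finset.sum_congr rfl fun k _ => ?_
        rw [Pi.smul_apply, smul_eq_mul, mul_smul]
      rw [this, map_smul, hu, smul_zero]
  -- the values of `F (B l)`
  have h3 : ∀ l : K, Ξ (a l) (B l) = ∑ k, Ξ (a k) (B l) * P k l := by
    intro l
    exact hP' (hv a (F (B l))) (Submodule.subset_span ⟨F (B l), hΦ (B l) _ fun x => rfl, rfl⟩) l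
  have h4 : ∀ k : K, ∑ l, Ξ (a k) (B l) * P k l = 0 := by
    intro k
    have := h2 _ (hP k) (a k)
    rw [map_sum] at this
    rw [← this]
    refine Finset.sum_congr rfl fun l _ => ?_
    rw [map_smul, smul_eq_mul, mul_comm]
  rw [Finset.sum_congr rfl fun l _ => h3 l, Finset.sum_comm]
  exact Finset.sum_eq_zero fun k _ => h4 k

/-! ### cocycles supported on one conjugacy class -/

section thg

variable {G : Type u} [Group G]

open Classical in
/-- `t_h x₀ t_h⁻¹ = h` -/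
def tt (x₀ h : G) : G := if hc : ∃ g, g * x₀ * g⁻¹ = h then hc.choose else 1

lemma tt_spec (x₀ h : G) (hc : ∃ g, g * x₀ * g⁻¹ = h) : tt x₀ h * x₀ * (tt x₀ h)⁻¹ = h := by
  unfold tt
  rw [dif_pos hc]
  exact hc.choose_spec

open Classical in
/-- The cocycle with support the class of `x₀` with value `γ` at `x₀`. -/
def thg (x₀ : G) (γ : G → ℚ) (a h : G) : ℚ :=
  if ∃ g, g * x₀ * g⁻¹ = h then γ ((tt x₀ (a * h * a⁻¹))⁻¹ * a * tt x₀ h) else 0

lemma conj_conj {x₀ h : G} (a : G) (hc : ∃ g, g * x₀ * g⁻¹ = h) :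
    ∃ g, g * x₀ * g⁻¹ = a * h * a⁻¹ := by
  obtain ⟨g, rfl⟩ := hc
  exact ⟨a * g, by group⟩

lemma tt_comm {x₀ h : G} (a : G) (hc : ∃ g, g * x₀ * g⁻¹ = h) :
    (tt x₀ (a * h * a⁻¹))⁻¹ * a * tt x₀ h * x₀ = x₀ * ((tt x₀ (a * h * a⁻¹))⁻¹ * a * tt x₀ h) := by
  have h1 := tt_spec x₀ h hc
  have h2 := tt_spec x₀ _ (conj_conj a hc)
  have e1 : tt x₀ h * x₀ = h * tt x₀ h := mul_inv_eq_iff_eq_mul.1 h1
  have e2 : x₀ * (tt x₀ (a * h * a⁻¹))⁻¹ = (tt x₀ (a * h * a⁻¹))⁻¹ * (a * h * a⁻¹) :=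
    eq_inv_mul_of_mul_eq (by rw [← mul_assoc]; exact h2)
  calc (tt x₀ (a * h * a⁻¹))⁻¹ * a * tt x₀ h * x₀
      = (tt x₀ (a * h * a⁻¹))⁻¹ * a * (tt x₀ h * x₀) := by rw [mul_assoc]
    _ = (tt x₀ (a * h * a⁻¹))⁻¹ * a * (h * tt x₀ h) := by rw [e1]
    _ = (tt x₀ (a * h * a⁻¹))⁻¹ * (a * h * a⁻¹) * a * tt x₀ h := by group
    _ = x₀ * (tt x₀ (a * h * a⁻¹))⁻¹ * a * tt x₀ h := by rw [e2]
    _ = _ := by group

lemma thg_coc (x₀ : G) (γ : G → ℚ)
    (hγ : ∀ y y', y * x₀ = x₀ * y → y' * x₀ = x₀ * y' → γ (y * y') = γ y + γ y') :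
    IsCoc (thg x₀ γ) := by
  intro a b h
  unfold thg
  by_cases hc : ∃ g, g * x₀ * g⁻¹ = h
  · have hc' := conj_conj b hc
    rw [if_pos hc, if_pos hc', if_pos hc, ← hγ _ _ (tt_comm a hc') (tt_comm b hc)]
    congr 1
    rw [show a * b * h * (a * b)⁻¹ = a * (b * h * b⁻¹) * a⁻¹ by group]
    group
  · have hc' : ¬ ∃ g, g * x₀ * g⁻¹ = b * h * b⁻¹ := by
      intro h'
      apply hc
      obtain ⟨g, hg⟩ := conj_conj b⁻¹ h'
      exact ⟨g, by rw [hg]; group⟩
    rw [if_neg hc, if_neg hc', if_neg hc, add_zero]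

lemma thg_val (x₀ : G) (γ : G → ℚ)
    (hγ : ∀ y y', y * x₀ = x₀ * y → y' * x₀ = x₀ * y' → γ (y * y') = γ y + γ y')
    (z h g : G) (hg : g * h * g⁻¹ = x₀) (hz : z * h = h * z) :
    thg x₀ γ z h = γ (g * z * g⁻¹) := by
  have hc : ∃ g, g * x₀ * g⁻¹ = h := ⟨g⁻¹, by rw [← hg]; group⟩
  unfold thg
  rw [if_pos hc]
  have h1 := tt_spec x₀ h hc
  have hzh : z * h * z⁻¹ = h := by rw [hz]; group
  have hgt : g * tt x₀ h * x₀ = x₀ * (g * tt x₀ h) := by
    have e1 : tt x₀ h * x₀ = h * tt x₀ h := mul_inv_eq_iff_eq_mul.1 h1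
    have e2 : g * h = x₀ * g := by
      rw [← hg]
      group
    rw [mul_assoc, e1, ← mul_assoc, e2, mul_assoc]
  have hgti : (g * tt x₀ h)⁻¹ * x₀ = x₀ * (g * tt x₀ h)⁻¹ := by
    have := (show Commute (g * tt x₀ h) x₀ from hgt).inv_left
    exact this
  have h2 := tt_comm z hc
  rw [hzh] at h2 ⊢
  have h3 := hγ _ _ (show g * tt x₀ h * ((tt x₀ h)⁻¹ * z * tt x₀ h) * x₀ =
      x₀ * (g * tt x₀ h * ((tt x₀ h)⁻¹ * z * tt x₀ h)) from
      ((show Commute (g * tt x₀ h) x₀ from hgt).mul_left h2)) hgti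
  have h4 := hγ _ _ hgt h2
  have h5 := hγ _ _ hgt hgti
  have h6 : γ 1 = 0 := by
    have := hγ 1 1 (by rw [one_mul, mul_one]) (by rw [one_mul, mul_one])
    rw [mul_one] at this
    linarith
  rw [mul_inv_cancel, h6] at h5
  rw [show g * z * g⁻¹ = g * tt x₀ h * ((tt x₀ h)⁻¹ * z * tt x₀ h) * (g * tt x₀ h)⁻¹ by group, h3, h4]
  linarith

end thg

end LIN0

end Pool.Agent.Lib.MPb6f35e.Z0
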