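import Pool.Agent.Lib.MP_b6f35e_al.ZK.Spec

/-!
# Module PPW of Z0 (MP_b6f35e_al)

`C` cyclic of order `p ^ k`: every rational combination of idempotents of `ℚ_p[C]` has rational
coefficients.
-/

set_option autoImplicit false

noncomputable section

namespace Pool.Agent.Lib.MPb6f35e.Z0

open Pool.Agent.Lib.MPb6f35e.ZK
open Polynomial

universe u

namespace PPW

/-- The cyclotomic polynomial of order `p ^ (n + 1)`, shifted, is Eisenstein over `ℤ_p`. -/
lemma eis (p : ℕ) [Fact p.Prime] (n : ℕ) :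
    ((cyclotomic (p ^ (n + 1)) ℤ_[p]).comp (X + C 1)).IsEisensteinAt
      (Ideal.span {(p : ℤ_[p])}) := by
  have h := cyclotomic_prime_pow_comp_X_add_one_isEisensteinAt p n
  have hmap : (cyclotomic (p ^ (n + 1)) ℤ_[p]).comp (X + C 1) =
      ((cyclotomic (p ^ (n + 1)) ℤ).comp (X + 1)).map (Int.castRingHom ℤ_[p]) := by
    rw [Polynomial.map_comp, map_cyclotomic]
    simp
  have hmon : ((cyclotomic (p ^ (n + 1)) ℤ_[p]).comp (X + C 1)).Monic := by
    refine (cyclotomic.monic _ _).comp (monic_X_add_C 1) fun h => ?_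
    rw [natDegree_X_add_C] at h
    exact zero_ne_one h.symm
  have hmonZ : ((cyclotomic (p ^ (n + 1)) ℤ).comp (X + 1)).Monic := by
    rw [show (X + 1 : ℤ[X]) = X + C 1 by simp]
    refine (cyclotomic.monic _ _).comp (monic_X_add_C 1) fun h => ?_
    rw [natDegree_X_add_C] at h
    exact zero_ne_one h.symm
  have hpr : (Ideal.span {(p : ℤ_[p])}).IsPrime :=
    (Ideal.span_singleton_prime PadicInt.prime_p.ne_zero).2 PadicInt.prime_p
  refine Monic.isEisensteinAt_of_mem_of_notMem hmon hpr.ne_top (fun {i} hi => ?_) ?_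
  · rw [hmap, coeff_map]
    rw [hmap, hmonZ.natDegree_map] at hi
    have h1 := h.mem hi
    rw [Ideal.submodule_span_eq, Ideal.mem_span_singleton] at h1
    obtain ⟨c, hc⟩ := h1
    rw [hc, Ideal.mem_span_singleton]
    exact ⟨(c : ℤ_[p]), by simp⟩
  · rw [coeff_zero_eq_eval_zero, eval_comp]
    simp only [eval_add, eval_X, eval_C, zero_add]
    rw [eval_one_cyclotomic_prime_pow, Ideal.span_singleton_pow, Ideal.mem_span_singleton]
    rintro ⟨c, hc⟩
    have h1 : (p : ℤ_[p]) * (1 - p * c) = 0 := by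
      rw [mul_sub, mul_one, ← mul_assoc, ← pow_two, ← hc, sub_self]
    have h2 : (1 : ℤ_[p]) = p * c := by
      rcases mul_eq_zero.1 h1 with h3 | h3
      · exact absurd h3 PadicInt.prime_p.ne_zero
      · exact sub_eq_zero.1 h3
    exact PadicInt.prime_p.not_isUnit (IsUnit.of_mul_eq_one c h2.symm)

/-- The cyclotomic polynomial of order `p ^ j` is irreducible over `ℚ_p`. -/
lemma irr (p : ℕ) [Fact p.Prime] (j : ℕ) : Irreducible (cyclotomic (p ^ j) ℚ_[p]) := by
  rcases j with _ | n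
  · rw [pow_zero, cyclotomic_one]
    exact irreducible_X_sub_C (1 : ℚ_[p])
  · have h0 := eis p n
    have hpr : (Ideal.span {(p : ℤ_[p])}).IsPrime :=
      (Ideal.span_singleton_prime PadicInt.prime_p.ne_zero).2 PadicInt.prime_p
    have hmon : ((cyclotomic (p ^ (n + 1)) ℤ_[p]).comp (X + C 1)).Monic := by
      refine (cyclotomic.monic _ _).comp (monic_X_add_C 1) fun h => ?_
      rw [natDegree_X_add_C] at h
      exact zero_ne_one h.symm
    have hd : 0 < ((cyclotomic (p ^ (n + 1)) ℤ_[p]).comp (X + C 1)).natDegree := by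
      rw [natDegree_comp, natDegree_X_add_C, mul_one, natDegree_cyclotomic]
      exact Nat.totient_pos.2 (pow_pos (Fact.out : p.Prime).pos _)
    have h1 := h0.irreducible hpr hmon.isPrimitive hd
    have h2 : Irreducible (cyclotomic (p ^ (n + 1)) ℤ_[p]) := by
      have h3 : (cyclotomic (p ^ (n + 1)) ℤ_[p]).comp (X + C 1) =
          algEquivAevalXAddC (1 : ℤ_[p]) (cyclotomic (p ^ (n + 1)) ℤ_[p]) := by
        rw [algEquivAevalXAddC]
        rfl
      rw [h3] at h1
      exact (MulEquiv.irreducible_iff (algEquivAevalXAddC (1 : ℤ_[p]))).1 h1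
    have h4 := (Monic.irreducible_iff_irreducible_map_fraction_map (K := ℚ_[p])
      (cyclotomic.monic _ _)).1 h2
    rwa [map_cyclotomic] at h4

lemma natDegree_X_pow_sub (K : Type) [Field K] (n : ℕ) : (X ^ n - 1 : K[X]).natDegree = n := by
  have := natDegree_X_pow_sub_C (n := n) (r := (1 : K))
  rwa [C_1] at this

/-- Polynomials vanishing at a generator of a cyclic group of order `n` are multiples of
`X ^ n - 1`. -/
lemma dvd_of_aeval (K : Type) [Field K] (G : Type u) [CommGroup G] [Finite G] (g : G)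
    (f : K[X]) (hf : aeval (MonoidAlgebra.single g (1 : K)) f = 0) :
    X ^ orderOf g - 1 ∣ f := by
  classical
  have hn : 0 < orderOf g := orderOf_pos g
  have hmon : (X ^ orderOf g - 1 : K[X]).Monic := by
    have := monic_X_pow_sub_C (1 : K) hn.ne'
    simpa using this
  rw [← modByMonic_eq_zero_iff_dvd hmon]
  have h1 : aeval (MonoidAlgebra.single g (1 : K)) (f %ₘ (X ^ orderOf g - 1)) = 0 := by
    have h2 := modByMonic_add_div f (X ^ orderOf g - 1)
    have h3 : aeval (MonoidAlgebra.single g (1 : K)) (X ^ orderOf g - 1 : K[X]) = 0 := by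
      rw [map_sub, map_pow, aeval_X, MonoidAlgebra.single_pow, pow_orderOf_eq_one, one_pow,
        map_one, MonoidAlgebra.one_def, sub_self]
    rw [← h2, map_add, map_mul, h3, zero_mul, add_zero] at hf
    exact hf
  have hdeg : (f %ₘ (X ^ orderOf g - 1)).natDegree < orderOf g := by
    have := natDegree_modByMonic_lt f hmon (by
      intro h
      have h5 := congrArg natDegree h
      rw [natDegree_X_pow_sub, natDegree_one] at h5
      omega)
    rwa [natDegree_X_pow_sub] at this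
  rw [aeval_eq_sum_range' hdeg] at h1
  ext i
  rw [coeff_zero]
  by_cases hi : i < orderOf g
  · have h6 := congrArg (fun b : MonoidAlgebra K G => b.coeff (g ^ i)) h1
    simp only [MonoidAlgebra.single_pow, one_pow] at h6
    rw [MonoidAlgebra.coeff_sum, Finsupp.finsetSum_apply] at h6
    rw [Finset.sum_eq_single i] at h6
    · simpa using h6
    · intro j hj hji
      have h7 : g ^ j ≠ g ^ i := fun h8 =>
        hji (pow_injOn_Iio_orderOf (Set.mem_Iio.2 (Finset.mem_range.1 hj)) (Set.mem_Iio.2 hi) h8)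
      simp [h7]
    · intro h
      exact absurd (Finset.mem_range.2 hi) h
  · exact coeff_eq_zero_of_natDegree_lt (by omega)

lemma aeval_X_pow_sub (K : Type) [Field K] (G : Type u) [CommGroup G] (g : G) (n : ℕ)
    (hn : g ^ n = 1) : aeval (MonoidAlgebra.single g (1 : K)) (X ^ n - 1 : K[X]) = 0 := by
  rw [map_sub, map_pow, aeval_X, MonoidAlgebra.single_pow, hn, one_pow,
    map_one, MonoidAlgebra.one_def, sub_self]

/-- Every element of `K[C]`, `C` generated by `g`, is a polynomial in `g`. -/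
lemma exists_pol (K : Type) [Field K] (G : Type u) [CommGroup G] [Finite G] (g : G)
    (hg : ∀ c : G, c ∈ Submonoid.powers g) (e : MonoidAlgebra K G) :
    ∃ f : K[X], aeval (MonoidAlgebra.single g (1 : K)) f = e := by
  induction e using MonoidAlgebra.induction_linear with
  | zero => exact ⟨0, map_zero _⟩
  | add a b ha hb =>
    obtain ⟨f, rfl⟩ := ha
    obtain ⟨f', rfl⟩ := hb
    exact ⟨f + f', map_add _ _ _⟩
  | single c r =>
    obtain ⟨i, rfl⟩ := hg c
    refine ⟨C r * X ^ i, ?_⟩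
    rw [map_mul, map_pow, aeval_X, aeval_C, MonoidAlgebra.single_pow, one_pow]
    simp

/-- An idempotent of `ℚ_p[C]`, `C` cyclic of order `p ^ k`, comes from `ℚ[C]`. -/
lemma exists_rat (p : ℕ) [Fact p.Prime] (k : ℕ) (G : Type u) [CommGroup G] [Finite G]
    (g : G) (hg : ∀ c : G, c ∈ Submonoid.powers g) (hG : orderOf g = p ^ k)
    (e : MonoidAlgebra ℚ_[p] G) (he : e * e = e) :
    ∃ r : MonoidAlgebra ℚ G, MonoidAlgebra.mapRingHom G (algebraMap ℚ ℚ_[p]) r = e := by
  classical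
  obtain ⟨f, rfl⟩ := exists_pol ℚ_[p] G g hg e
  have hp : p.Prime := Fact.out
  -- the product of the cyclotomic polynomials
  have hprod : ∏ j ∈ Finset.range (k + 1), cyclotomic (p ^ j) ℚ_[p] = X ^ p ^ k - 1 := by
    rw [← prod_cyclotomic_eq_X_pow_sub_one (pow_pos hp.pos k) ℚ_[p], Nat.divisors_prime_pow hp,
      Finset.prod_map]
    rfl
  have hff : X ^ p ^ k - 1 ∣ f * (1 - f) := by
    rw [← hG]
    refine dvd_of_aeval ℚ_[p] G g _ ?_
    rw [map_mul, map_sub, map_one, mul_sub, mul_one, he, sub_self]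
  have hinj : ∀ i j : ℕ, i ≠ j → p ^ i ≠ p ^ j := fun i j h h' =>
    h (Nat.pow_right_injective hp.two_le h')
  have hcop : ∀ i j : ℕ, i ≠ j → IsCoprime (cyclotomic (p ^ i) ℚ_[p]) (cyclotomic (p ^ j) ℚ_[p]) := by
    intro i j h
    have h1 := (cyclotomic.isCoprime_rat (hinj i j h)).map (mapRingHom (algebraMap ℚ ℚ_[p]))
    simpa using h1
  let J : Finset ℕ := (Finset.range (k + 1)).filter fun j => cyclotomic (p ^ j) ℚ_[p] ∣ f
  let J' : Finset ℕ := (Finset.range (k + 1)).filter fun j => ¬ cyclotomic (p ^ j) ℚ_[p] ∣ f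
  have hPQ : IsCoprime (∏ j ∈ J, cyclotomic (p ^ j) ℚ) (∏ j ∈ J', cyclotomic (p ^ j) ℚ) := by
    refine IsCoprime.prod_left fun i hi => IsCoprime.prod_right fun j hj => ?_
    refine cyclotomic.isCoprime_rat (hinj i j ?_)
    rintro rfl
    exact (Finset.mem_filter.1 hj).2 (Finset.mem_filter.1 hi).2
  obtain ⟨u, v, huv⟩ := hPQ
  let r : ℚ[X] := u * ∏ j ∈ J, cyclotomic (p ^ j) ℚ
  have hr1 : 1 - r = v * ∏ j ∈ J', cyclotomic (p ^ j) ℚ := by
    rw [← huv]
    simp [r]
  have hdvd : X ^ p ^ k - 1 ∣ f - r.map (algebraMap ℚ ℚ_[p]) := by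
    rw [← hprod]
    refine Finset.prod_dvd_of_coprime (fun i _ j _ hij => hcop i j hij) fun j hj => ?_
    by_cases hjf : cyclotomic (p ^ j) ℚ_[p] ∣ f
    · refine dvd_sub hjf ?_
      have h1 : cyclotomic (p ^ j) ℚ ∣ r :=
        Dvd.dvd.mul_left (Finset.dvd_prod_of_mem _ (Finset.mem_filter.2 ⟨hj, hjf⟩)) u
      have h2 := map_dvd (mapRingHom (algebraMap ℚ ℚ_[p])) h1
      simpa using h2
    · have h1 : cyclotomic (p ^ j) ℚ_[p] ∣ 1 - f := by
        have h3 : cyclotomic (p ^ j) ℚ_[p] ∣ f * (1 - f) := by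
          refine dvd_trans ?_ hff
          rw [← hprod]
          exact Finset.dvd_prod_of_mem _ hj
        exact ((irr p j).prime.dvd_or_dvd h3).resolve_left hjf
      have h2 : cyclotomic (p ^ j) ℚ_[p] ∣ 1 - r.map (algebraMap ℚ ℚ_[p]) := by
        have h4 : cyclotomic (p ^ j) ℚ ∣ 1 - r := by
          rw [hr1]
          exact Dvd.dvd.mul_left (Finset.dvd_prod_of_mem _ (Finset.mem_filter.2 ⟨hj, hjf⟩)) v
        have h5 := map_dvd (mapRingHom (algebraMap ℚ ℚ_[p])) h4
        simpa using h5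
      have h6 : f - r.map (algebraMap ℚ ℚ_[p]) = (1 - r.map (algebraMap ℚ ℚ_[p])) - (1 - f) := by
        ring
      rw [h6]
      exact dvd_sub h2 h1
  refine ⟨aeval (MonoidAlgebra.single g (1 : ℚ)) r, ?_⟩
  have h7 : aeval (MonoidAlgebra.single g (1 : ℚ_[p])) (r.map (algebraMap ℚ ℚ_[p])) =
      MonoidAlgebra.mapRingHom G (algebraMap ℚ ℚ_[p])
        (aeval (MonoidAlgebra.single g (1 : ℚ)) r) := by
    rw [aeval_def, aeval_def, hom_eval₂, eval₂_map]
    congr 1
    · exact RingHom.ext_rat _ _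
    · simp
  rw [← h7]
  obtain ⟨q, hq⟩ := hdvd
  have h8 := congrArg (aeval (MonoidAlgebra.single g (1 : ℚ_[p]))) hq
  rw [map_mul, aeval_X_pow_sub ℚ_[p] G g (p ^ k) (by rw [← hG, pow_orderOf_eq_one]), zero_mul,
    map_sub] at h8
  exact (sub_eq_zero.1 h8).symm

end PPW

/-- PPW: for `C` cyclic of order `p ^ k` the rational combinations of idempotents of `ℚ_p[C]` have
rational coefficients. -/
theorem ppw (p : ℕ) [Fact p.Prime] (k : ℕ) (C : Type u) [CommGroup C] [Finite C]
    (hcyc : IsCyclic C) (hC : Nat.card C = p ^ k) (b : MonoidAlgebra ℚ_[p] C)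
    (hb : b ∈ RV (MonoidAlgebra ℚ_[p] C)) (c : C) :
    ∃ q : ℚ, b.coeff c = (q : ℚ_[p]) := by
  obtain ⟨g, hg⟩ := hcyc.exists_generator
  have hg' : ∀ c : C, c ∈ Submonoid.powers g := fun c => by
    have := hg c
    rwa [← mem_powers_iff_mem_zpowers] at this
  have hord : orderOf g = p ^ k := by
    rw [← hC]
    exact orderOf_eq_card_of_forall_mem_zpowers hg
  refine Submodule.span_induction (p := fun b _ => ∃ q : ℚ, b.coeff c = (q : ℚ_[p]))
    ?_ ?_ ?_ ?_ hb
  · intro e he
    obtain ⟨r, rfl⟩ := PPW.exists_rat p k C g hg' hord e he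
    exact ⟨r.coeff c, by simp⟩
  · exact ⟨0, by simp⟩
  · rintro x y - - ⟨q, hq⟩ ⟨q', hq'⟩
    exact ⟨q + q', by rw [MonoidAlgebra.coeff_add, Finsupp.add_apply, hq, hq']; simp⟩
  · rintro a x - ⟨q, hq⟩
    refine ⟨a * q, ?_⟩
    rw [MonoidAlgebra.coeff_smul, Finsupp.smul_apply, hq]
    simp [Algebra.smul_def]

end Pool.Agent.Lib.MPb6f35e.Z0
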