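import Pool.Agent.Lib.MP_b6f35e_al.Z0.LINA
import Pool.Agent.Lib.MP_b6f35e_al.Z0.PPW
import Pool.Agent.Lib.MP_b6f35e_al.ZK.LINS

/-!
# Z0, module LIN0: the orbit argument (MP_b6f35e_al)
-/

set_option autoImplicit false

noncomputable section

namespace Pool.Agent.Lib.MPb6f35e.Z0

open Pool.Agent.Lib.MPb6f35e.WH (FinSub conjHom K1)
open Pool.Agent.Lib.MPb6f35e.ZK
open Pool.Agent.Lib.MPb6f35e.ZK.LINMod (Pr mR cR sysR NR key)
open Pool.Agent.Lib.MPb6f35e.WH.F1 (Cj cj_ext cj_exists cj_card cj_mk zpowers_equiv zpowers_sub)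
open Pool.Agent.Lib.MPb6f35e.W2 (IsCoc DK)

universe u v w t

namespace LIN0

/-- The maps of `SpecLIN0`. -/
structure Dat (S : Finset Nat.Primes) (G : Type u) [Group G] where
  Θ : ∀ (C : Type u) [CommGroup C] [Finite C] (_ : C →* G) (_ : G),
      RV (MonoidAlgebra (Qp S) C) →ₗ[ℚ] ℚ
  nat : ∀ (C C' : Type u) [CommGroup C] [Finite C] [CommGroup C'] [Finite C'] (φ : C →* G)
      (φ' : C' →* G) (f : C →* C') (g : G) (_ : ∀ c, φ' (f c) = g * φ c * g⁻¹)
      (_ : Function.Injective φ) (_ : Function.Injective φ')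
      (_ : ∀ p : Nat.Primes, (p : ℕ) ∣ Nat.card C' → p ∈ S) (z : G)
      (_ : ∀ c, z * φ' c = φ' c * z) (b : RV (MonoidAlgebra (Qp S) C))
      (b' : RV (MonoidAlgebra (Qp S) C')) (_ : (b' : MonoidAlgebra (Qp S) C') =
        MonoidAlgebra.mapDomainRingHom (Qp S) f (b : MonoidAlgebra (Qp S) C)),
      Θ C' φ' z b' = Θ C φ (g⁻¹ * z * g) b
  add : ∀ (C : Type u) [CommGroup C] [Finite C] (φ : C →* G) (_ : Function.Injective φ)
      (_ : ∀ p : Nat.Primes, (p : ℕ) ∣ Nat.card C → p ∈ S) (z z' : G)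
      (_ : ∀ c, z * φ c = φ c * z) (_ : ∀ c, z' * φ c = φ c * z')
      (b : RV (MonoidAlgebra (Qp S) C)), Θ C φ (z * z') b = Θ C φ z b + Θ C φ z' b
  rat : ∀ (C : Type u) [CommGroup C] [Finite C] (φ : C →* G) (_ : Function.Injective φ)
      (_ : ∀ p : Nat.Primes, (p : ℕ) ∣ Nat.card C → p ∈ S) (z : G)
      (_ : ∀ c, z * φ c = φ c * z) (r : MonoidAlgebra ℚ C) (_ : r ∈ RV (MonoidAlgebra ℚ C))
      (b : RV (MonoidAlgebra (Qp S) C)) (_ : (b : MonoidAlgebra (Qp S) C) =
        MonoidAlgebra.mapRingHom C (algebraMap ℚ (Qp S)) r), Θ C φ z b = 0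
  van : ∀ (C : Type u) [CommGroup C] [Finite C] (φ : C →* G) (_ : Function.Injective φ)
      (_ : ∀ p : Nat.Primes, (p : ℕ) ∣ Nat.card C → p ∈ S) (z : G)
      (_ : ∀ c, z * φ c = φ c * z) (b : RV (MonoidAlgebra (Qp S) C))
      (_ : ∀ (p : S) (_ : ((p : Nat.Primes) : ℕ) ∣ Nat.card C) (c : C),
        (b : MonoidAlgebra (Qp S) C).coeff c p = 0), Θ C φ z b = 0
  dv : ∀ (C : Type u) [CommGroup C] [Finite C] (φ : C →* G) (_ : Function.Injective φ)
      (_ : ∀ p : Nat.Primes, (p : ℕ) ∣ Nat.card C → p ∈ S) (_ : IsCyclic C)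
      (_ : ¬ IsPrimePow (Nat.card C)) (p : ℕ) (_ : p.Prime) (_ : p ∣ Nat.card C) (z : G)
      (_ : ∀ c, z * φ c = φ c * z) (_ : PKill φ.range p z)
      (b : RV (MonoidAlgebra (Qp S) C)), Θ C φ z b = 0

variable {S : Finset Nat.Primes} {G : Type u} [Group G]

/-- The value of a cocycle. -/
def val {C : Type u} [CommGroup C] [Fintype C] (φ : C →* G) (z : G)
    (x : RV (MonoidAlgebra (Qp S) C)) (θ : G → G → ℚ) : Qp S :=
  ∑ c, θ z (φ c) • cR S C x c

lemma cR_smul {C : Type u} [CommGroup C] (q : ℚ) (b : RV (MonoidAlgebra (Qp S) C)) (c : C) :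
    cR S C (q • b) c = q • cR S C b c := rfl

/-- A finite linear form on cocycles. -/
def lf (L : (G × G) →₀ ℚ) (θ : G → G → ℚ) : ℚ := L.sum fun q r => r * θ q.1 q.2

/-- The hypothesis on the values. -/
def Hyp {J : Type t} (C : J → Type u) [∀ j, CommGroup (C j)] [∀ j, Fintype (C j)]
    (φ : ∀ j, C j →* G) (z : J → G) (x : ∀ j, RV (MonoidAlgebra (Qp S) (C j))) (s : Finset J)
    (L : (G × G) →₀ ℚ) : Prop :=
  ∀ (θ : G → G → ℚ) (_ : IsCoc θ) (p : S)
    (_ : ∀ a h, θ a h ≠ 0 → IsOfFinOrder h ∧ ((p : Nat.Primes) : ℕ) ∣ orderOf h)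
    (_ : ∀ a h, ¬ ((p : Nat.Primes) : ℕ) ∣ (θ a h).den),
    (∑ j ∈ s, val (φ j) (z j) (x j) θ) p = ((lf L θ : ℚ) : ℚ_[((p : Nat.Primes) : ℕ)])

open Classical in
/-- The cocycle cut off outside a set closed under conjugation. -/
def cut (P : G → Prop) (θ : G → G → ℚ) (a h : G) : ℚ := if P h then 0 else θ a h

omit [Group G] in
lemma cut_pos {P : G → Prop} {θ : G → G → ℚ} {a h : G} (hh : P h) : cut P θ a h = 0 := if_pos hh

omit [Group G] in
lemma cut_neg {P : G → Prop} {θ : G → G → ℚ} {a h : G} (hh : ¬ P h) : cut P θ a h = θ a h :=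
  if_neg hh

lemma cut_coc {θ : G → G → ℚ} (hθ : IsCoc θ) (P : G → Prop) (hP : ∀ b h, P (b * h * b⁻¹) ↔ P h) :
    IsCoc (cut P θ) := by
  intro a b h
  by_cases hh : P h
  · rw [cut_pos hh, cut_pos ((hP b h).2 hh), cut_pos hh, add_zero]
  · rw [cut_neg hh, cut_neg (fun h' => hh ((hP b h).1 h')), cut_neg hh]
    exact hθ a b h

lemma ndvd_den {p : ℕ} (hp : p.Prime) : ¬ p ∣ (0 : ℚ).den := by
  rw [Rat.den_zero]
  exact fun h => hp.one_lt.ne' (Nat.dvd_one.1 h)

omit [Group G] in
open Classical in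
/-- The linear form, cut off. -/
def cutL (P : G → Prop) (L : (G × G) →₀ ℚ) : (G × G) →₀ ℚ := L.filter fun q => ¬ P q.2

omit [Group G] in
lemma lf_cut (L : (G × G) →₀ ℚ) (P : G → Prop) (θ : G → G → ℚ) :
    lf L (cut P θ) = lf (cutL P L) θ := by
  unfold lf cutL
  rw [Finsupp.sum_filter_index, Finsupp.support_filter, Finset.sum_filter, Finsupp.sum]
  refine Finset.sum_congr rfl fun q _ => ?_
  by_cases h : P q.2
  · rw [cut_pos h, mul_zero, if_neg (fun h' => h' h)]
  · rw [cut_neg h, if_pos h]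

open Classical in
/-- The orbit argument, an element `j₀` whose group has no generator. -/
lemma val_zero {C : Type u} [CommGroup C] [Fintype C] (φ : C →* G) (z : G)
    (x : RV (MonoidAlgebra (Qp S) C)) (hx : ∀ c, cR S C x c = 0) (θ : G → G → ℚ) :
    val φ z x θ = 0 :=
  Finset.sum_eq_zero fun c _ => by rw [hx, smul_zero]

open Classical in
/-- The sum over the conjugations. -/
lemma sum_cj' {C D : Type u} [CommGroup C] [Fintype C] [CommGroup D] [Finite D] (φ : C →* G)
    (ψ : D →* G) [Fintype (Cj φ ψ)]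
    (hφ : Function.Injective φ) (hψ : Function.Injective ψ)
    (z : G) (hz : ∀ c, z * φ c = φ c * z)
    (x : RV (MonoidAlgebra (Qp S) C)) (hx : ∀ c, Subgroup.zpowers c ≠ ⊤ → cR S C x c = 0)
    (d : D) (hd : Subgroup.zpowers d = ⊤) (γ : G → ℚ)
    (hγ : ∀ y y', y * ψ d = ψ d * y → y' * ψ d = ψ d * y' → γ (y * y') = γ y + γ y')
    (g : Cj φ ψ → G) (hg : ∀ f : Cj φ ψ, ∀ c, ψ (f.1 c) = g f * φ c * (g f)⁻¹) :
    ∑ f : Cj φ ψ, γ (g f * z * (g f)⁻¹) • cR S C x (f.1.symm d) =
      val φ z x (thg (ψ d) γ) := by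
  unfold val
  apply Finset.sum_of_injOn (fun f : Cj φ ψ => f.1.symm d)
  · intro f _ f' _ h
    exact cj_ext φ ψ d hd f f' h
  · intro f _
    exact Finset.mem_coe.2 (Finset.mem_univ _)
  · intro c _ hc
    by_cases hgen : Subgroup.zpowers c = ⊤
    · have : thg (ψ d) γ z (φ c) = 0 := by
        unfold thg
        rw [if_neg]
        rintro ⟨k, hk⟩
        obtain ⟨f, hf⟩ := cj_exists φ ψ hφ hψ c d hgen hd (by
          rw [ConjClasses.mk_eq_mk_iff_isConj, isConj_iff]
          exact ⟨k⁻¹, by rw [← hk]; group⟩)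
        exact hc ⟨f, Finset.mem_coe.2 (Finset.mem_univ _), hf⟩
      rw [this, zero_smul]
    · rw [hx c hgen, smul_zero]
  · intro f _
    have h1 := hg f (f.1.symm d)
    rw [MulEquiv.apply_symm_apply] at h1
    rw [thg_val (ψ d) γ hγ z (φ (f.1.symm d)) (g f) h1.symm (hz _)]

/-- Cyclic groups of prime power order. -/
lemma Th_ppow (D : Dat.{u} S G) {C : Type u} [CommGroup C] [Finite C] (hC : Pr S (Nat.card C))
    (φ : C →* G) (hφ : Function.Injective φ) (z : G) (hz : ∀ c, z * φ c = φ c * z)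
    (hcyc : IsCyclic C) (hpp : IsPrimePow (Nat.card C)) (x : RV (MonoidAlgebra (Qp S) C)) :
    D.Θ C φ z x = 0 := by
  obtain ⟨p, k, hp, hk, e⟩ := (isPrimePow_nat_iff _).1 hpp
  have hpd : p ∣ Nat.card C := by
    rw [← e]
    exact dvd_pow_self p hk.ne'
  let P : S := ⟨⟨p, hp⟩, hC ⟨p, hp⟩ hpd⟩
  have : Fact p.Prime := ⟨hp⟩
  refine key S (D.Θ C φ z) (D.rat C φ hφ hC z hz) (D.van C φ hφ hC z hz) x fun c => ?_
  have h1 : MonoidAlgebra.mapRingHom C (Pi.evalRingHom _ P) (x : MonoidAlgebra (Qp S) C) ∈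
      RV (MonoidAlgebra ℚ_[p] C) := LINMod.map_RV _ _ x.2
  obtain ⟨q, hq⟩ := ppw p k C hcyc e.symm _ h1 c
  refine ⟨q, fun p' hp' => ?_⟩
  have h2 : p' = P := by
    apply Subtype.ext
    apply Subtype.ext
    rw [← e] at hp'
    exact (Nat.prime_dvd_prime_iff_eq (p' : Nat.Primes).2 hp).1
      ((p' : Nat.Primes).2.dvd_of_dvd_pow hp')
  subst h2
  rw [MonoidAlgebra.coeff_mapRingHom] at hq
  exact hq

open Classical in
theorem orb0 (D : Dat.{u} S G) {J : Type t} (C : J → Type u)
    [∀ j, CommGroup (C j)] [∀ j, Fintype (C j)] (hC : ∀ j, Pr S (Nat.card (C j)))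
    (φ : ∀ j, C j →* G) (hφ : ∀ j, Function.Injective (φ j)) (z : J → G)
    (hz : ∀ j c, z j * φ j c = φ j c * z j) (x : ∀ j, RV (MonoidAlgebra (Qp S) (C j)))
    (hx : ∀ j (c : C j), Subgroup.zpowers c ≠ ⊤ → cR S (C j) (x j) c = 0) (s : Finset J) :
    ∀ L, Hyp C φ z x s L → ∑ j ∈ s, D.Θ (C j) (φ j) (z j) (x j) = 0 := by
  induction s using Finset.strongInduction with
  | _ s ih =>
    intro L hs
    rcases s.eq_empty_or_nonempty with rfl | ⟨j₀, hj₀⟩
    · simp
    by_cases hcyc : ∃ d : C j₀, Subgroup.zpowers d = ⊤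
    swap
    · -- no generator
      have h0 : ∀ c, cR S (C j₀) (x j₀) c = 0 := fun c => hx j₀ c fun h => hcyc ⟨c, h⟩
      have hx0 : x j₀ = 0 := by
        apply Subtype.ext
        apply MonoidAlgebra.coeffAddEquiv.injective
        exact Finsupp.ext h0
      rw [← Finset.add_sum_erase s _ hj₀, hx0, map_zero, zero_add]
      apply ih _ (Finset.erase_ssubset hj₀) L
      intro θ hθ p h1 h2
      have := hs θ hθ p h1 h2
      rwa [← Finset.add_sum_erase s _ hj₀, val_zero _ _ _ h0, zero_add] at this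
    obtain ⟨d₀, hd₀⟩ := hcyc
    have : ∀ j, Fintype (Cj (φ j) (φ j₀)) := fun j => Fintype.ofFinite _
    -- the class of `j₀`
    set I := s.filter (fun j => Nonempty (Cj (φ j) (φ j₀))) with hI
    set s' := s.filter (fun j => ¬ Nonempty (Cj (φ j) (φ j₀))) with hs'
    have hlt : s' ⊂ s := by
      rw [Finset.ssubset_iff_of_subset (Finset.filter_subset _ _)]
      refine ⟨j₀, hj₀, fun h => ?_⟩
      exact (Finset.mem_filter.1 h).2 ⟨⟨MulEquiv.refl _, 1, by simp⟩⟩
    rw [← Finset.sum_filter_add_sum_filter_not s (fun j => Nonempty (Cj (φ j) (φ j₀))), ← hI, ← hs']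
    have hfin : ∀ j (c : C j), IsOfFinOrder (φ j c) := fun j c =>
      (φ j).isOfFinOrder (isOfFinOrder_of_finite c)
    -- conjugate generators
    have hconj : ∀ j (c : C j) (d : C j₀), Subgroup.zpowers c = ⊤ → Subgroup.zpowers d = ⊤ →
        (∃ k, k * φ j₀ d * k⁻¹ = φ j c) → Nonempty (Cj (φ j) (φ j₀)) := by
      intro j c d hc hd hk
      obtain ⟨k, hk⟩ := hk
      obtain ⟨f, -⟩ := cj_exists (φ j) (φ j₀) (hφ j) (hφ j₀) c d hc hd (by
          rw [ConjClasses.mk_eq_mk_iff_isConj, isConj_iff]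
          exact ⟨k⁻¹, by rw [← hk]; group⟩)
      exact ⟨f⟩
    -- the others
    have hS' : ∑ j ∈ s', D.Θ (C j) (φ j) (z j) (x j) = 0 := by
      let P : G → Prop := fun h => ∃ d : C j₀, Subgroup.zpowers d = ⊤ ∧ ∃ k, k * φ j₀ d * k⁻¹ = h
      have hP : ∀ b h, P (b * h * b⁻¹) ↔ P h := by
        intro b h
        constructor
        · rintro ⟨d, hd, k, hk⟩
          exact ⟨d, hd, b⁻¹ * k, by
            have : b⁻¹ * k * φ j₀ d * (b⁻¹ * k)⁻¹ = b⁻¹ * (k * φ j₀ d * k⁻¹) * b := by group
            rw [this, hk]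
            group⟩
        · rintro ⟨d, hd, k, hk⟩
          exact ⟨d, hd, b * k, by rw [← hk]; group⟩
      apply ih s' hlt (cutL P L)
      intro θ hθ p h1 h2
      have h3 := hs _ (cut_coc hθ P hP) p (fun a h hne => by
        by_cases hh : P h
        · exact absurd (cut_pos hh) hne
        · rw [cut_neg hh] at hne
          exact h1 a h hne) (fun a h => by
        by_cases hh : P h
        · rw [cut_pos hh]
          exact ndvd_den (p : Nat.Primes).2
        · rw [cut_neg hh]
          exact h2 a h)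
      rw [← Finset.sum_filter_add_sum_filter_not s (fun j => Nonempty (Cj (φ j) (φ j₀))),
        ← hI, ← hs'] at h3
      have e1 : ∑ j ∈ I, val (φ j) (z j) (x j) (cut P θ) = 0 := by
        apply Finset.sum_eq_zero
        intro j hj
        obtain ⟨f⟩ := (Finset.mem_filter.1 hj).2
        apply Finset.sum_eq_zero
        intro c _
        by_cases hc : Subgroup.zpowers c = ⊤
        · have : P (φ j c) := by
            obtain ⟨g, hg⟩ := f.2
            refine ⟨f.1 c, (zpowers_equiv f.1 c).2 hc, g⁻¹, ?_⟩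
            rw [hg]
            group
          rw [cut_pos this, zero_smul]
        · rw [hx j c hc, smul_zero]
      have e2 : ∑ j ∈ s', val (φ j) (z j) (x j) (cut P θ) =
          ∑ j ∈ s', val (φ j) (z j) (x j) θ := by
        refine Finset.sum_congr rfl fun j hj => Finset.sum_congr rfl fun c _ => ?_
        by_cases hc : Subgroup.zpowers c = ⊤
        · have : ¬ P (φ j c) := by
            rintro ⟨d, hd, hk⟩
            exact (Finset.mem_filter.1 hj).2 (hconj j c d hc hd hk)
          rw [cut_neg this]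
        · rw [hx j c hc, smul_zero, smul_zero]
      rw [e1, e2, zero_add, lf_cut] at h3
      exact h3
    rw [hS', add_zero]
    have hcard : orderOf (φ j₀ d₀) = Nat.card (C j₀) := by
      rw [orderOf_injective (φ j₀) (hφ j₀), ← Nat.card_zpowers, hd₀, Subgroup.card_top]
    by_cases hpp : IsPrimePow (orderOf (φ j₀ d₀))
    · -- prime power order
      apply Finset.sum_eq_zero
      intro j hj
      obtain ⟨f⟩ := (Finset.mem_filter.1 hj).2
      refine Th_ppow D (hC j) (φ j) (hφ j) (z j) (hz j) ?_ ?_ (x j)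
      · refine ⟨f.1.symm d₀, fun c => ?_⟩
        have h1 : Subgroup.zpowers (f.1.symm d₀) = ⊤ := (zpowers_equiv f.1.symm d₀).2 hd₀
        have h2 : c ∈ Subgroup.zpowers (f.1.symm d₀) := by rw [h1]; trivial
        exact h2
      · rw [Nat.card_congr f.1.toEquiv, ← hcard]
        exact hpp
    -- the class
    choose g hg using fun (j : J) (f : Cj (φ j) (φ j₀)) => f.2
    let A : Subgroup G := Subgroup.centralizer ((φ j₀).range : Set G)
    -- elements of `A` commute with the image of `φ j₀`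
    have hA : ∀ y ∈ A, ∀ c : C j₀, y * φ j₀ c = φ j₀ c * y := by
      intro y hy c
      exact (Subgroup.mem_centralizer_iff.1 hy (φ j₀ c) ⟨c, rfl⟩).symm
    have hA' : ∀ y, (∃ d, Subgroup.zpowers d = ⊤ ∧ y * φ j₀ d = φ j₀ d * y) → y ∈ A := by
      rintro y ⟨d, hd, hy⟩
      rw [Subgroup.mem_centralizer_iff]
      rintro _ ⟨c, rfl⟩
      have hc : c ∈ Subgroup.zpowers d := by rw [hd]; trivial
      obtain ⟨k, rfl⟩ := hc
      have h1 : Commute y (φ j₀ d) := hy
      show φ j₀ (d ^ k) * y = y * φ j₀ (d ^ k)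
      rw [map_zpow]
      exact (h1.zpow_right k).symm
    have hmem : ∀ j (f : Cj (φ j) (φ j₀)), ∀ c : C j₀,
        g j f * z j * (g j f)⁻¹ * φ j₀ c = φ j₀ c * (g j f * z j * (g j f)⁻¹) := by
      intro j f c
      have h1 := hg j f (f.1.symm c)
      rw [MulEquiv.apply_symm_apply] at h1
      have h2 := hz j (f.1.symm c)
      rw [h1]
      have h3 : g j f * z j * (g j f)⁻¹ * (g j f * φ j (f.1.symm c) * (g j f)⁻¹) =
        g j f * (z j * φ j (f.1.symm c)) * (g j f)⁻¹ := by group
      rw [h3, h2]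
      group
    have hmemA : ∀ j (f : Cj (φ j) (φ j₀)), g j f * z j * (g j f)⁻¹ ∈ A :=
      fun j f => hA' _ ⟨d₀, hd₀, hmem j f d₀⟩
    let a : (Σ j : I, Cj (φ j) (φ j₀)) → A := fun k => ⟨g k.1 k.2 * z k.1 * (g k.1 k.2)⁻¹, hmemA k.1 k.2⟩
    let B : (Σ j : I, Cj (φ j) (φ j₀)) → RV (MonoidAlgebra (Qp S) (C j₀)) := fun k => mR S k.2.1.toMonoidHom (x k.1)
    have hLA := LA a B (fun y => D.Θ (C j₀) (φ j₀) (y : G))
      (fun y y' b => by
        rw [Subgroup.coe_mul]
        exact D.add (C j₀) (φ j₀) (hφ j₀) (hC j₀) y y' (hA y y.2) (hA y' y'.2) b)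
      {γ | ∀ p : S, ((p : Nat.Primes) : ℕ) ∣ Nat.card (C j₀) → ∀ z : A,
        (∀ g : A →* Multiplicative ℚ, (∀ y, ¬ ((p : Nat.Primes) : ℕ) ∣ (g y).toAdd.den) → g z = 1) →
          γ z = 1}
      (by
        intro b γ hγ p hp y hy
        apply Multiplicative.toAdd.injective
        rw [hγ y, toAdd_one]
        refine D.dv (C j₀) (φ j₀) (hφ j₀) (hC j₀) ⟨d₀, fun c => ?_⟩ (by rw [← hcard]; exact hpp)
          p (p : Nat.Primes).2 hp y (hA y y.2) ?_ b
        · have h2 : c ∈ Subgroup.zpowers d₀ := by rw [hd₀]; trivial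
          exact h2
        · intro g hg y' hy'
          have h3 : y' = y := Subtype.ext hy'
          rw [h3]
          exact hy g hg)
      (by
        intro γ hγ y
        apply key S (D.Θ (C j₀) (φ j₀) (y : G))
          (D.rat (C j₀) (φ j₀) (hφ j₀) (hC j₀) y (hA y y.2))
          (D.van (C j₀) (φ j₀) (hφ j₀) (hC j₀) y (hA y y.2))
        intro d
        show cR S (C j₀) (∑ k, (γ (a k)).toAdd • B k) d ∈ NR S (Nat.card (C j₀))
        have hBd : ∀ k : (Σ j : I, Cj (φ j) (φ j₀)), cR S (C j₀) (B k) d =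
            cR S (C k.1) (x k.1) (k.2.1.symm d) := by
          intro k
          have h2 := (sysR.{u} S).map (C k.1) (C j₀) (hC k.1) (hC j₀) k.2.1.toMonoidHom
            k.2.1.injective (x k.1) (k.2.1.symm d)
          have h3 : k.2.1.toMonoidHom (k.2.1.symm d) = d := k.2.1.apply_symm_apply d
          rw [h3] at h2
          exact h2
        have hsum : ∀ γ₁ : A →* Multiplicative ℚ,
            cR S (C j₀) (∑ k, (γ₁ (a k)).toAdd • B k) d =
              ∑ k, (γ₁ (a k)).toAdd • cR S (C j₀) (B k) d := by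
          intro γ₁
          rw [map_sum, Finset.sum_apply]
          exact Finset.sum_congr rfl fun k _ => cR_smul _ _ _
        rw [hsum]
        by_cases hd : Subgroup.zpowers d = ⊤
        · -- the total functions
          let tot : (A →* Multiplicative ℚ) → G → ℚ := fun γ₁ y =>
            if hy : y ∈ A then (γ₁ ⟨y, hy⟩).toAdd else 0
          have htot : ∀ (γ₁ : A →* Multiplicative ℚ) (y : A), tot γ₁ y = (γ₁ y).toAdd :=
            fun γ₁ y => dif_pos y.2
          have hcc : ∀ (γ₁ : A →* Multiplicative ℚ) (y y' : G), y * φ j₀ d = φ j₀ d * y →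
              y' * φ j₀ d = φ j₀ d * y' → tot γ₁ (y * y') = tot γ₁ y + tot γ₁ y' := by
            intro γ₁ y y' hy hy'
            have h1 : y ∈ A := hA' y ⟨d, hd, hy⟩
            have h2 : y' ∈ A := hA' y' ⟨d, hd, hy'⟩
            have e := htot γ₁ (⟨y, h1⟩ * ⟨y', h2⟩)
            rw [map_mul, toAdd_mul, ← htot, ← htot] at e
            exact e
          -- the values of the left side
          have hleft : ∀ γ₁ : A →* Multiplicative ℚ,
              ∑ j ∈ s, val (φ j) (z j) (x j) (thg (φ j₀ d) (tot γ₁)) =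
                ∑ k, (γ₁ (a k)).toAdd • cR S (C j₀) (B k) d := by
            intro γ₁
            rw [← Finset.sum_filter_add_sum_filter_not s (fun j => Nonempty (Cj (φ j) (φ j₀))),
              ← hI, ← hs']
            have h4 : ∑ j ∈ s', val (φ j) (z j) (x j) (thg (φ j₀ d) (tot γ₁)) = 0 := by
              apply Finset.sum_eq_zero
              intro j hj
              apply Finset.sum_eq_zero
              intro c _
              by_cases hc : Subgroup.zpowers c = ⊤
              · have : thg (φ j₀ d) (tot γ₁) (z j) (φ j c) = 0 := by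
                  unfold thg
                  rw [if_neg]
                  intro hk
                  exact (Finset.mem_filter.1 hj).2 (hconj j c d hc hd hk)
                rw [this, zero_smul]
              · rw [hx j c hc, smul_zero]
            rw [h4, add_zero, Fintype.sum_sigma, ← Finset.sum_coe_sort I]
            refine Finset.sum_congr rfl fun j _ => ?_
            rw [← sum_cj' (φ j) (φ j₀) (hφ j) (hφ j₀) (z j) (hz j) (x j) (hx j) d hd (tot γ₁)
              (hcc γ₁) (g j) (hg j)]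
            refine Finset.sum_congr rfl fun f _ => ?_
            rw [hBd, ← htot γ₁ (a ⟨j, f⟩)]
          -- the elements of the linear form
          have hcm : ∀ l : L.support, (∃ g, g * φ j₀ d * g⁻¹ = l.1.2) →
              (tt (φ j₀ d) (l.1.1 * l.1.2 * l.1.1⁻¹))⁻¹ * l.1.1 * tt (φ j₀ d) l.1.2 ∈ A :=
            fun l hl => hA' _ ⟨d, hd, tt_comm l.1.1 hl⟩
          let cc : L.support → A := fun l =>
            if hl : ∃ g, g * φ j₀ d * g⁻¹ = l.1.2 then
              ⟨(tt (φ j₀ d) (l.1.1 * l.1.2 * l.1.1⁻¹))⁻¹ * l.1.1 * tt (φ j₀ d) l.1.2, hcm l hl⟩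
            else 1
          have hright : ∀ γ₁ : A →* Multiplicative ℚ, lf L (thg (φ j₀ d) (tot γ₁)) =
              ∑ l : L.support, L l * (γ₁ (cc l)).toAdd := by
            intro γ₁
            unfold lf
            rw [Finsupp.sum, ← Finset.sum_coe_sort L.support]
            refine Finset.sum_congr rfl fun l _ => ?_
            congr 1
            unfold thg cc
            by_cases hl : ∃ g, g * φ j₀ d * g⁻¹ = l.1.2
            · rw [if_pos hl, dif_pos hl, ← htot]
            · rw [if_neg hl, dif_neg hl, map_one, toAdd_one]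
          refine ⟨∑ l : L.support, L l * (γ (cc l)).toAdd, fun p hp => ?_⟩
          let e : ((Σ j : I, Cj (φ j) (φ j₀)) ⊕ L.support) → A := Sum.elim a cc
          let Γ : Set (A →* Multiplicative ℚ) :=
            {γ₁ | ∀ y, ¬ ((p : Nat.Primes) : ℕ) ∣ (γ₁ y).toAdd.den}
          have hpd : ((p : Nat.Primes) : ℕ) ∣ orderOf (φ j₀ d₀) := by rw [hcard]; exact hp
          have hord : orderOf (φ j₀ d) = Nat.card (C j₀) := by
            rw [orderOf_injective (φ j₀) (hφ j₀), ← Nat.card_zpowers, hd, Subgroup.card_top]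
          have hspan : ∀ u ∈ Submodule.span ℚ (hv e '' Γ),
              (∑ k, u (Sum.inl k) • cR S (C j₀) (B k) d) p =
                ((∑ l : L.support, L l * u (Sum.inr l) : ℚ) :
                  ℚ_[((p : Nat.Primes) : ℕ)]) := by
            intro u hu
            induction hu using Submodule.span_induction with
            | mem u hu =>
              obtain ⟨γ₁, hγ₁, rfl⟩ := hu
              have h3 := hs (thg (φ j₀ d) (tot γ₁)) (thg_coc _ _ (hcc γ₁)) p (by
                intro b h hne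
                by_cases hk : ∃ k, k * φ j₀ d * k⁻¹ = h
                · obtain ⟨k, rfl⟩ := hk
                  have hor : orderOf (k * φ j₀ d * k⁻¹) = orderOf (φ j₀ d) :=
                    orderOf_injective (MulAut.conj k).toMonoidHom (MulAut.conj k).injective _
                  refine ⟨?_, by rw [hor, hord]; exact hp⟩
                  rw [← orderOf_pos_iff, hor, orderOf_pos_iff]
                  exact hfin j₀ d
                · exact absurd (if_neg hk) hne) (by
                intro b h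
                unfold thg
                split_ifs
                · unfold tot
                  split_ifs with hy
                  · exact hγ₁ _
                  · exact ndvd_den (p : Nat.Primes).2
                · exact ndvd_den (p : Nat.Primes).2)
              rw [hleft, hright] at h3
              exact h3
            | zero => simp
            | add u v _ _ hu hv =>
              simp only [Pi.add_apply, add_smul, mul_add, Finset.sum_add_distrib, Rat.cast_add,
                hu, hv]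
            | smul r u _ hu =>
              have e1 : ∑ k, (r • u) (Sum.inl k) • cR S (C j₀) (B k) d =
                  r • ∑ k, u (Sum.inl k) • cR S (C j₀) (B k) d := by
                rw [Finset.smul_sum]
                refine Finset.sum_congr rfl fun k _ => ?_
                rw [Pi.smul_apply, smul_eq_mul, mul_smul]
              have e2 : (∑ l : L.support, L l * (r • u) (Sum.inr l) : ℚ) =
                  r * ∑ l : L.support, L l * u (Sum.inr l) := by
                rw [Finset.mul_sum]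
                refine Finset.sum_congr rfl fun l _ => ?_
                rw [Pi.smul_apply, smul_eq_mul]
                ring
              rw [e1, e2, Pi.smul_apply, hu, Rat.smul_def, Rat.cast_mul]
          exact hspan (hv e γ) (mem_span e Γ γ fun z hz => hγ p hp z hz)
        · rw [Finset.sum_eq_zero]
          · exact zero_mem _
          · intro k _
            rw [hBd, hx, smul_zero]
            intro h
            apply hd
            rw [← zpowers_equiv k.2.1.symm d]
            exact h)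
    -- the sum
    have hsum : ∑ k, D.Θ (C j₀) (φ j₀) ((a k : A) : G) (B k) =
        Nat.card (Cj (φ j₀) (φ j₀)) • ∑ j ∈ I, D.Θ (C j) (φ j) (z j) (x j) := by
      rw [Fintype.sum_sigma, Finset.smul_sum, ← Finset.sum_coe_sort I]
      refine Finset.sum_congr rfl fun j _ => ?_
      have h1 : ∀ f ∈ (Finset.univ : Finset (Cj (φ j) (φ j₀))),
          D.Θ (C j₀) (φ j₀) ((a ⟨j, f⟩ : A) : G) (B ⟨j, f⟩) = D.Θ (C j) (φ j) (z j) (x j) := by
        intro f _
        have h2 := D.nat (C j) (C j₀) (φ j) (φ j₀) f.1.toMonoidHom (g j f) (hg j f) (hφ j) (hφ j₀)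
          (hC j₀) (g j f * z j * (g j f)⁻¹) (hmem j f) (x j) (mR S f.1.toMonoidHom (x j)) rfl
        have h3 : (g j f)⁻¹ * (g j f * z j * (g j f)⁻¹) * g j f = z j := by group
        rw [h3] at h2
        exact h2
      rw [Finset.sum_congr rfl h1, Finset.sum_const, Finset.card_univ, ← Nat.card_eq_fintype_card]
      obtain ⟨f⟩ := (Finset.mem_filter.1 j.2).2
      rw [cj_card (φ j) (φ j₀) f]
    rw [hsum, nsmul_eq_mul, mul_eq_zero] at hLA
    refine hLA.resolve_left ?_
    have hNp : 0 < Nat.card (Cj (φ j₀) (φ j₀)) := by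
      have : Nonempty (Cj (φ j₀) (φ j₀)) := ⟨⟨MulEquiv.refl _, 1, by simp⟩⟩
      exact Nat.card_pos
    exact_mod_cast hNp.ne'

end LIN0

end Pool.Agent.Lib.MPb6f35e.Z0
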