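import Pool.Agent.Lib.MP_b6f35e_al.ZK.Final
import Pool.Agent.Lib.MP_b6f35e_al.ZK.LINS
import Pool.Agent.Lib.MP_b6f35e_al.Z0.Spec

/-!
# Module SEC: `K_{-1}(ℤ[H])` and `K_0(ℤ[H][t, t⁻¹])` modulo constants agree up to torsion
-/

set_option autoImplicit false

noncomputable section

namespace Pool.Agent.Lib.MPb6f35e.Z0

open Pool.Agent.Lib.MPb6f35e.WH (FinSub conjHom K1)
open Pool.Agent.Lib.MPb6f35e.ZK
open Pool.Agent.Lib.MPb6f35e.ZK.FinMod hiding elt T elt_congr elt_add elt_nat elt_van₁ elt_van₂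
  elt_rat elt_int Th Th_idem Th_nat Th_rat Th_int exists_Th exists_family lin_step Th_bz

universe u v w

namespace SECMod

/-! ### `K_0(A[t, t⁻¹])` modulo constants -/

lemma Kc_map_comp {A B C : Type u} [Ring A] [Ring B] [Ring C] (f : A →+* B) (g : B →+* C)
    (x : Kc A) : Kc.map g (Kc.map f x) = Kc.map (g.comp f) x := by
  obtain ⟨x, rfl⟩ := Kc.mk_surjective _ x
  rw [Kc.map_mk, Kc.map_mk, Kc.map_mk, K0.map_comp, lauMap_comp]

lemma Kc_md_comp {C C' C'' : Type u} [Group C] [Group C'] [Group C''] (f : C →* C')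
    (g : C' →* C'') (x : Kc (MonoidAlgebra ℤ C)) :
    Kc.map (MonoidAlgebra.mapDomainRingHom ℤ g) (Kc.map (MonoidAlgebra.mapDomainRingHom ℤ f) x) =
      Kc.map (MonoidAlgebra.mapDomainRingHom ℤ (g.comp f)) x := by
  rw [Kc_map_comp, md_comp]

/-- Inner automorphisms act trivially. -/
lemma Kc_inner {C G : Type u} [Group C] [Group G] (φ φ' : C →* G) (g : G)
    (h : ∀ c, φ' c = g * φ c * g⁻¹) (x : Kc (MonoidAlgebra ℤ C)) :
    Kc.map (MonoidAlgebra.mapDomainRingHom ℤ φ') x =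
      Kc.map (MonoidAlgebra.mapDomainRingHom ℤ φ) x := by
  obtain ⟨x, rfl⟩ := Kc.mk_surjective _ x
  rw [Kc.map_mk, Kc.map_mk]
  congr 1
  let s : (MonoidAlgebra ℤ G)ˣ := WH.gUnit ℤ g
  refine K0.map_conj _ _ (Units.map (AddMonoidAlgebra.singleZeroRingHom
    (R := MonoidAlgebra ℤ G) (M := ℤ)).toMonoidHom s) ?_ x
  intro z
  have key : ∀ z : MonoidAlgebra ℤ C,
      MonoidAlgebra.mapDomainRingHom ℤ φ' z =
      (s : MonoidAlgebra ℤ G) * MonoidAlgebra.mapDomainRingHom ℤ φ z *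
        ((s⁻¹ : (MonoidAlgebra ℤ G)ˣ) : MonoidAlgebra ℤ G) := by
    intro z
    have e1 : (s : MonoidAlgebra ℤ G) = MonoidAlgebra.single g 1 := rfl
    have e2 : ((s⁻¹ : (MonoidAlgebra ℤ G)ˣ) : MonoidAlgebra ℤ G) =
      MonoidAlgebra.single g⁻¹ (1 : ℤ) := rfl
    induction z using MonoidAlgebra.induction_linear with
    | zero => simp
    | add x y hx hy => simp only [map_add, mul_add, add_mul, hx, hy]
    | single x r =>
      rw [e1, e2]
      simp [h, MonoidAlgebra.mapDomain_single, MonoidAlgebra.single_mul_single]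
  induction z using AddMonoidAlgebra.induction_linear with
  | zero => simp
  | add x y hx hy => simp only [map_add, mul_add, add_mul, hx, hy]
  | single n r =>
    show lauMap _ (AddMonoidAlgebra.single n r) =
      AddMonoidAlgebra.single 0 (s : MonoidAlgebra ℤ G) * lauMap _ (AddMonoidAlgebra.single n r) *
        AddMonoidAlgebra.single 0 ((s⁻¹ : (MonoidAlgebra ℤ G)ˣ) : MonoidAlgebra ℤ G)
    simp only [lauMap, AddMonoidAlgebra.mapRingHom_single, AddMonoidAlgebra.single_mul_single,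
      zero_add, add_zero]
    rw [key]

/-- `cSub ≤ extSub` -/
lemma mk_of_mk {A : Type u} [Ring A] (x y : K0 (Lau A)) (h : Kc.mk A x = Kc.mk A y) :
    Km1.mk A x = Km1.mk A y := by
  have h1 : Kc.mk A (x - y) = 0 := by rw [map_sub, h, sub_self]
  obtain ⟨z, hz⟩ := (QuotientAddGroup.eq_zero_iff _).1 h1
  have h2 : Km1.mk A (x - y) = 0 := by
    refine (QuotientAddGroup.eq_zero_iff _).2 (AddSubgroup.mem_sup_left
      ⟨K0.map (AddMonoidAlgebra.mapDomainRingHom A (0 : ℤ →+ ℕ)) z, ?_⟩)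
    rw [← hz, K0.map_comp]
    congr 2
    refine RingHom.ext fun a => ?_
    induction a using AddMonoidAlgebra.induction_linear with
    | zero => simp
    | add a b ha hb => simp only [map_add, ha, hb]
    | single j a =>
      show posHom A (AddMonoidAlgebra.mapDomainRingHom A (0 : ℤ →+ ℕ)
        (AddMonoidAlgebra.single j a)) = c1 A (AddMonoidAlgebra.single j a)
      simp only [posHom, c1, AddMonoidAlgebra.mapDomainRingHom_apply,
        AddMonoidAlgebra.mapDomain_single]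
      rfl
  rw [map_sub, sub_eq_zero] at h2
  exact h2

/-! ### generation -/

section Elt

variable (S : Finset Nat.Primes) {G : Type u} [Group G]

/-- The element of an idempotent. -/
def elt {C : Type u} [CommGroup C] [Finite C]
    (φ : C →* G) (f : MonoidAlgebra (Qp S) C) (hf : f * f = f) : Kc (MonoidAlgebra ℤ G) :=
  Kc.map (MonoidAlgebra.mapDomainRingHom ℤ φ)
    (Kc.mk (MonoidAlgebra ℤ C) (dB S C (K1.unit (btU f hf))))

/-- The subgroup generated by these elements. -/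
def T (G : Type u) [Group G] : AddSubgroup (Kc (MonoidAlgebra ℤ G)) :=
  AddSubgroup.closure (Set.range fun δ : Dat S G => elt S δ.φ δ.f δ.hf)

lemma map_mem (hGen : SpecGENC.{u}) {C : Type u}
    [CommGroup C] [Finite C] (φ : C →* G) (inj : Function.Injective φ)
    (pr : ∀ p : Nat.Primes, (p : ℕ) ∣ Nat.card C → p ∈ S) (y : Kc (MonoidAlgebra ℤ C)) :
    Kc.map (MonoidAlgebra.mapDomainRingHom ℤ φ) y ∈ satur (T S G) := by
  obtain ⟨m, hm, a, ε, f, hf, e⟩ := hGen C S pr (dB S C) (dB_spec S C) y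
  refine ⟨m, hm, ?_⟩
  rw [← map_nsmul, e, map_sum]
  refine AddSubgroup.sum_mem _ fun j _ => ?_
  rw [map_zsmul]
  refine AddSubgroup.zsmul_mem _ (AddSubgroup.subset_closure ?_) _
  exact ⟨⟨C, inferInstance, Fintype.ofFinite C, φ, inj, pr, f j, hf j⟩, rfl⟩

lemma mem_T (hArt : SpecARTC.{u}) (hGen : SpecGENC.{u}) [Finite G]
    (pr : ∀ p : Nat.Primes, (p : ℕ) ∣ Nat.card G → p ∈ S) (z : Kc (MonoidAlgebra ℤ G)) :
    z ∈ satur (T S G) := by
  obtain ⟨m, hm, a, C, hC, y, e⟩ := hArt G z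
  apply satur_of_nsmul hm
  rw [e]
  refine AddSubgroup.sum_mem _ fun i _ => ?_
  have _ := hC i
  let _ : CommGroup (C i) := IsCyclic.commGroup
  refine map_mem S hGen (C := C i) _ (C i).subtype_injective ?_ (y i)
  intro p hp
  exact pr p (hp.trans (Subgroup.card_subgroup_dvd_card (C i)))

lemma exists_family (t : Kc (MonoidAlgebra ℤ G))
    (ht : t ∈ T S G) : ∃ (n : ℕ) (δ : Fin n → Dat S G) (ε : Fin n → ℤ),
      t = ∑ i, ε i • elt S (δ i).φ (δ i).f (δ i).hf := by
  obtain ⟨a, rfl⟩ := (AddSubgroup.mem_closure_range_iff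
    (f := fun δ : Dat S G => elt S δ.φ δ.f δ.hf)).1 ht
  let e := a.support.equivFin
  refine ⟨a.support.card, fun i => (e.symm i).1, fun i => a (e.symm i).1, ?_⟩
  rw [Finsupp.sum, ← Finset.sum_coe_sort]
  exact (Equiv.sum_comp e.symm (fun x : a.support => a x.1 • elt S x.1.φ x.1.f x.1.hf)).symm

/-! ### the elements `elt` -/

lemma elt_congr {C : Type u} [CommGroup C] [Finite C] (φ : C →* G)
    {e f : MonoidAlgebra (Qp S) C} (he : e * e = e) (hf : f * f = f) (h : e = f) :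
    elt S φ e he = elt S φ f hf := by
  subst h; rfl

lemma elt_add {C : Type u} [CommGroup C] [Finite C] (φ : C →* G)
    (e f : MonoidAlgebra (Qp S) C) (he : e * e = e) (hf : f * f = f) (hef : e * f = 0)
    (h : (e + f) * (e + f) = e + f) :
    elt S φ (e + f) h = elt S φ e he + elt S φ f hf := by
  unfold elt
  rw [unit_btU_add e f he hf hef h, map_add, map_add, map_add]

lemma elt_nat {C C' : Type u} [CommGroup C] [Finite C] [CommGroup C'] [Finite C'] (φ : C →* G)
    (φ' : C' →* G) (f : C →* C') (g : G) (h : ∀ c, φ' (f c) = g * φ c * g⁻¹)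
    (e : MonoidAlgebra (Qp S) C) (he : e * e = e)
    (he' : MonoidAlgebra.mapDomainRingHom (Qp S) f e * MonoidAlgebra.mapDomainRingHom (Qp S) f e =
      MonoidAlgebra.mapDomainRingHom (Qp S) f e) :
    elt S φ' (MonoidAlgebra.mapDomainRingHom (Qp S) f e) he' = elt S φ e he := by
  unfold elt
  rw [← map_unit_btU (MonoidAlgebra.mapDomainRingHom (Qp S) f) e he he']
  have h1 := dB_nat S f (K1.unit (btU e he))
  have h2 : K1.map (lauMap (MonoidAlgebra.mapDomainRingHom (Qp S) f)) (K1.unit (btU e he)) =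
    K1.map (gMap (Qp S) f) (K1.unit (btU e he)) := rfl
  have h3 : Kc.mk (MonoidAlgebra ℤ C') (K0.map (gMap ℤ f) (dB S C (K1.unit (btU e he)))) =
    Kc.map (MonoidAlgebra.mapDomainRingHom ℤ f)
      (Kc.mk (MonoidAlgebra ℤ C) (dB S C (K1.unit (btU e he)))) := rfl
  rw [h2, h1, h3, Kc_md_comp]
  exact Kc_inner φ (φ'.comp f) g h _

lemma elt_van₁ {C : Type u} [CommGroup C] [Finite C] (φ : C →* G)
    (e : MonoidAlgebra (Zs S) C) (he : e * e = e)
    (he' : MonoidAlgebra.mapRingHom C (zsQp S) e * MonoidAlgebra.mapRingHom C (zsQp S) e =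
      MonoidAlgebra.mapRingHom C (zsQp S) e) :
    elt S φ (MonoidAlgebra.mapRingHom C (zsQp S) e) he' = 0 := by
  unfold elt
  rw [← map_unit_btU (MonoidAlgebra.mapRingHom C (zsQp S)) e he he']
  have h1 : dB S C (K1.map (lauMap (MonoidAlgebra.mapRingHom C (zsQp S)))
      (K1.unit (btU e he))) = 0 :=
    specMIL.van₁ _ _ _ _ (padSq S C) (specPAD S C) _ (dB_spec S C) _
  rw [h1, map_zero, map_zero]

lemma elt_van₂ {C : Type u} [CommGroup C] [Finite C] (φ : C →* G)
    (e : MonoidAlgebra (Zp S) C) (he : e * e = e)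
    (he' : MonoidAlgebra.mapRingHom C (zpQp S) e * MonoidAlgebra.mapRingHom C (zpQp S) e =
      MonoidAlgebra.mapRingHom C (zpQp S) e) :
    elt S φ (MonoidAlgebra.mapRingHom C (zpQp S) e) he' = 0 := by
  unfold elt
  rw [← map_unit_btU (MonoidAlgebra.mapRingHom C (zpQp S)) e he he']
  have h1 : dB S C (K1.map (lauMap (MonoidAlgebra.mapRingHom C (zpQp S)))
      (K1.unit (btU e he))) = 0 :=
    specMIL.van₂ _ _ _ _ (padSq S C) (specPAD S C) _ (dB_spec S C) _
  rw [h1, map_zero, map_zero]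

/-- Idempotents of `ℚ[C]` give zero. -/
lemma elt_rat {C : Type u} [CommGroup C] [Finite C] (φ : C →* G)
    (pr : ∀ p : Nat.Primes, (p : ℕ) ∣ Nat.card C → p ∈ S) (e : MonoidAlgebra ℚ C)
    (he : e * e = e)
    (he' : MonoidAlgebra.mapRingHom C (algebraMap ℚ (Qp S)) e *
      MonoidAlgebra.mapRingHom C (algebraMap ℚ (Qp S)) e =
      MonoidAlgebra.mapRingHom C (algebraMap ℚ (Qp S)) e) :
    elt S φ (MonoidAlgebra.mapRingHom C (algebraMap ℚ (Qp S)) e) he' = 0 := by
  have hmem : ∀ c, e.coeff c ∈ Zs S := by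
    intro c
    obtain ⟨z, hz⟩ := specRES.rat C e he c
    exact ⟨Nat.card C, Nat.card_pos.ne', pr, z, hz⟩
  let e₁ : MonoidAlgebra (Zs S) C :=
    MonoidAlgebra.ofCoeff (Finsupp.equivFunOnFinite.symm fun c => ⟨e.coeff c, hmem c⟩)
  have h1 : MonoidAlgebra.mapRingHom C (Zs S).subtype e₁ = e := by
    apply MonoidAlgebra.ext
    apply Finsupp.ext
    intro c
    rw [MonoidAlgebra.coeff_mapRingHom]
    rfl
  have h2 : e₁ * e₁ = e₁ := by
    apply mapRing_inj (Zs S).subtype Subtype.val_injective C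
    rw [map_mul, h1, he]
  have h3 : MonoidAlgebra.mapRingHom C (zsQp S) e₁ =
      MonoidAlgebra.mapRingHom C (algebraMap ℚ (Qp S)) e := by
    apply MonoidAlgebra.ext
    apply Finsupp.ext
    intro c
    rw [MonoidAlgebra.coeff_mapRingHom, MonoidAlgebra.coeff_mapRingHom]
    rfl
  have h4 := he'
  rw [← h3] at h4
  rw [elt_congr S φ he' h4 h3.symm]
  exact elt_van₁ S φ e₁ h2 h4

/-- Idempotents which vanish at the primes dividing the order give zero. -/
lemma elt_int {C : Type u} [CommGroup C] [Finite C] (φ : C →* G)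
    (e : MonoidAlgebra (Qp S) C) (he : e * e = e)
    (he' : MonoidAlgebra.single 1 (wS S (Nat.card C)) * e *
      (MonoidAlgebra.single 1 (wS S (Nat.card C)) * e) =
      MonoidAlgebra.single 1 (wS S (Nat.card C)) * e) :
    elt S φ (MonoidAlgebra.single 1 (wS S (Nat.card C)) * e) he' = 0 := by
  classical
  have hex : ∀ p : S, ∃ f : MonoidAlgebra ℤ_[((p : Nat.Primes) : ℕ)] C,
      ∀ c, ((f.coeff c : ℤ_[((p : Nat.Primes) : ℕ)]) : ℚ_[((p : Nat.Primes) : ℕ)]) =
        wS S (Nat.card C) p * e.coeff c p := by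
    intro p
    by_cases hp : ((p : Nat.Primes) : ℕ) ∣ Nat.card C
    · refine ⟨0, fun c => ?_⟩
      rw [wS_apply, if_pos hp, zero_mul]
      rfl
    · obtain ⟨f, -, hf⟩ := specRES.int ((p : Nat.Primes) : ℕ) C hp
        (MonoidAlgebra.mapRingHom C (Pi.evalRingHom _ p) e) (by rw [← map_mul, he])
      refine ⟨f, fun c => ?_⟩
      have h1 := congrArg (fun x => x.coeff c) hf
      simp only [MonoidAlgebra.coeff_mapRingHom] at h1
      rw [wS_apply, if_neg hp, one_mul]
      exact h1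
  choose f hf using hex
  let e₂ : MonoidAlgebra (Zp S) C :=
    MonoidAlgebra.ofCoeff (Finsupp.equivFunOnFinite.symm fun c => fun p => (f p).coeff c)
  have h3 : MonoidAlgebra.mapRingHom C (zpQp S) e₂ =
      MonoidAlgebra.single 1 (wS S (Nat.card C)) * e := by
    apply MonoidAlgebra.ext
    apply Finsupp.ext
    intro c
    rw [MonoidAlgebra.coeff_mapRingHom, MonoidAlgebra.coeff_single_one_mul]
    funext p
    exact hf p c
  have h2 : e₂ * e₂ = e₂ := by
    apply mapRing_inj (zpQp S) (PADMod.zpQp_inj S) C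
    rw [map_mul, h3, he']
  have h4 := he'
  rw [← h3] at h4
  rw [elt_congr S φ he' h4 h3.symm]
  exact elt_van₂ S φ e₂ h2 h4

end Elt

/-! ### the linear functions -/

section Theta

variable (S : Finset Nat.Primes) {G : Type u} [Group G] (l : Kc (MonoidAlgebra ℤ G) →+ ℚ)

lemma exists_Th {C : Type u} [CommGroup C] [Finite C] (φ : C →* G) :
    ∃ Θ : RV (MonoidAlgebra (Qp S) C) →ₗ[ℚ] ℚ, ∀ (e : MonoidAlgebra (Qp S) C) (he : e * e = e),
      Θ ⟨e, Submodule.subset_span he⟩ = l (elt S φ e he) := by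
  classical
  obtain ⟨Θ, hΘ⟩ := specVB.ext (MonoidAlgebra (Qp S) C)
    (fun e => if he : e * e = e then l (elt S φ e he) else 0) (by
      intro e f he hf hef
      have hfe : f * e = 0 := by rw [mul_comm]; exact hef
      have h : (e + f) * (e + f) = e + f := by
        rw [add_mul, mul_add, mul_add, he, hf, hef, hfe, add_zero, zero_add]
      rw [dif_pos he, dif_pos hf, dif_pos h, elt_add S φ e f he hf hef h, map_add])
  exact ⟨Θ, fun e he => by rw [hΘ e he, dif_pos he]⟩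

/-- The linear function of `l`. -/
def Th {C : Type u} [CommGroup C] [Finite C] (φ : C →* G) :
    RV (MonoidAlgebra (Qp S) C) →ₗ[ℚ] ℚ := Classical.choose (exists_Th S l φ)

lemma Th_idem {C : Type u} [CommGroup C] [Finite C] (φ : C →* G) (e : MonoidAlgebra (Qp S) C)
    (he : e * e = e) : Th S l φ ⟨e, Submodule.subset_span he⟩ = l (elt S φ e he) :=
  Classical.choose_spec (exists_Th S l φ) e he

/-! ### the hypotheses of LIN -/

lemma Th_nat {C C' : Type u} [CommGroup C] [Finite C] [CommGroup C'] [Finite C'] (φ : C →* G)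
    (φ' : C' →* G) (f : C →* C') (g : G) (h : ∀ c, φ' (f c) = g * φ c * g⁻¹)
    (b : RV (MonoidAlgebra (Qp S) C)) (b' : RV (MonoidAlgebra (Qp S) C'))
    (hb : (b' : MonoidAlgebra (Qp S) C') =
      MonoidAlgebra.mapDomainRingHom (Qp S) f (b : MonoidAlgebra (Qp S) C)) :
    Th S l φ' b' = Th S l φ b := by
  have hF : ∀ e : MonoidAlgebra (Qp S) C, e * e = e →
      (MonoidAlgebra.mapDomainRingHom (Qp S) f).toAddMonoidHom e *
        (MonoidAlgebra.mapDomainRingHom (Qp S) f).toAddMonoidHom e =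
      (MonoidAlgebra.mapDomainRingHom (Qp S) f).toAddMonoidHom e := by
    intro e he
    show MonoidAlgebra.mapDomainRingHom (Qp S) f e * MonoidAlgebra.mapDomainRingHom (Qp S) f e =
      MonoidAlgebra.mapDomainRingHom (Qp S) f e
    rw [← map_mul, he]
  refine RV_ext (MonoidAlgebra.mapDomainRingHom (Qp S) f).toAddMonoidHom hF _ _ ?_ b b' hb
  intro e he
  exact (Th_idem S l φ' _ (hF e he)).trans
    ((congrArg l (elt_nat S φ φ' f g h e he (hF e he))).trans (Th_idem S l φ e he).symm)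

lemma Th_rat {C : Type u} [CommGroup C] [Finite C] (φ : C →* G)
    (pr : ∀ p : Nat.Primes, (p : ℕ) ∣ Nat.card C → p ∈ S) (r : MonoidAlgebra ℚ C)
    (hr : r ∈ RV (MonoidAlgebra ℚ C)) (b : RV (MonoidAlgebra (Qp S) C))
    (hb : (b : MonoidAlgebra (Qp S) C) = MonoidAlgebra.mapRingHom C (algebraMap ℚ (Qp S)) r) :
    Th S l φ b = 0 := by
  have hF : ∀ e : MonoidAlgebra ℚ C, e * e = e →
      (MonoidAlgebra.mapRingHom C (algebraMap ℚ (Qp S))).toAddMonoidHom e *
        (MonoidAlgebra.mapRingHom C (algebraMap ℚ (Qp S))).toAddMonoidHom e =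
      (MonoidAlgebra.mapRingHom C (algebraMap ℚ (Qp S))).toAddMonoidHom e := by
    intro e he
    show MonoidAlgebra.mapRingHom C (algebraMap ℚ (Qp S)) e *
      MonoidAlgebra.mapRingHom C (algebraMap ℚ (Qp S)) e =
      MonoidAlgebra.mapRingHom C (algebraMap ℚ (Qp S)) e
    rw [← map_mul, he]
  have h := RV_ext (MonoidAlgebra.mapRingHom C (algebraMap ℚ (Qp S))).toAddMonoidHom hF
    (0 : RV (MonoidAlgebra ℚ C) →ₗ[ℚ] ℚ) (Th S l φ) (by
      intro e he
      rw [Th_idem, LinearMap.zero_apply]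
      have h1 := elt_rat S φ pr e he (hF e he)
      exact (congrArg l h1).trans (map_zero l)) ⟨r, hr⟩ b hb
  rw [h, LinearMap.zero_apply]

lemma Th_int {C : Type u} [CommGroup C] [Finite C] (φ : C →* G)
    (b : RV (MonoidAlgebra (Qp S) C))
    (hb : ∀ (p : S) (_ : ((p : Nat.Primes) : ℕ) ∣ Nat.card C) (c : C),
      (b : MonoidAlgebra (Qp S) C).coeff c p = 0) :
    Th S l φ b = 0 := by
  classical
  have hw : (MonoidAlgebra.single 1 (wS S (Nat.card C)) : MonoidAlgebra (Qp S) C) *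
      MonoidAlgebra.single 1 (wS S (Nat.card C)) =
      MonoidAlgebra.single 1 (wS S (Nat.card C)) := by
    rw [MonoidAlgebra.single_mul_single, mul_one]
    congr 1
    funext p
    rw [Pi.mul_apply, wS_apply]
    split_ifs <;> simp
  have hF : ∀ e : MonoidAlgebra (Qp S) C, e * e = e →
      AddMonoidHom.mulLeft (MonoidAlgebra.single 1 (wS S (Nat.card C))) e *
        AddMonoidHom.mulLeft (MonoidAlgebra.single 1 (wS S (Nat.card C))) e =
      AddMonoidHom.mulLeft (MonoidAlgebra.single 1 (wS S (Nat.card C))) e := by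
    intro e he
    show MonoidAlgebra.single 1 (wS S (Nat.card C)) * e *
      (MonoidAlgebra.single 1 (wS S (Nat.card C)) * e) =
      MonoidAlgebra.single 1 (wS S (Nat.card C)) * e
    rw [mul_mul_mul_comm, hw, he]
  have hb2 : (b : MonoidAlgebra (Qp S) C) =
      AddMonoidHom.mulLeft (MonoidAlgebra.single 1 (wS S (Nat.card C)))
        (b : MonoidAlgebra (Qp S) C) := by
    show (b : MonoidAlgebra (Qp S) C) = MonoidAlgebra.single 1 (wS S (Nat.card C)) *
      (b : MonoidAlgebra (Qp S) C)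
    apply MonoidAlgebra.ext
    apply Finsupp.ext
    intro c
    rw [MonoidAlgebra.coeff_single_one_mul]
    funext p
    rw [Pi.mul_apply, wS_apply]
    split_ifs with hp
    · rw [hb p hp c, zero_mul]
    · rw [one_mul]
  have h := RV_ext (AddMonoidHom.mulLeft
      (MonoidAlgebra.single 1 (wS S (Nat.card C)) : MonoidAlgebra (Qp S) C)) hF
    (0 : RV (MonoidAlgebra (Qp S) C) →ₗ[ℚ] ℚ) (Th S l φ) (by
      intro e he
      rw [Th_idem, LinearMap.zero_apply]
      have h1 := elt_int S φ e he (hF e he)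
      exact (congrArg l h1).trans (map_zero l)) b b hb2
  rw [h, LinearMap.zero_apply]

lemma lin_step (n : ℕ) (δ : Fin n → Dat S G)
    (b : ∀ i, RV (MonoidAlgebra (Qp S) (δ i).C))
    (h : ∀ x : G, IsOfFinOrder x → ∃ q : ℚ, ∀ p : S, ((p : Nat.Primes) : ℕ) ∣ orderOf x →
      ∑ i, rk (Qp S) x (MonoidAlgebra.mapDomainRingHom (Qp S) (δ i).φ
        (b i : MonoidAlgebra (Qp S) (δ i).C)) p = (q : ℚ_[((p : Nat.Primes) : ℕ)])) :
    ∑ i, Th S l (δ i).φ (b i) = 0 :=
  specLIN S G (fun _ _ _ φ => Th S l φ)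
    (fun _ _ _ _ _ _ φ φ' f g h _ _ _ b b' hb => Th_nat S l φ φ' f g h b b' hb)
    (fun _ _ _ φ _ pr r hr b hb => Th_rat S l φ pr r hr b hb)
    (fun _ _ _ φ _ _ b hb => Th_int S l φ b hb) n (fun i => (δ i).C)
    (fun i => (δ i).φ) (fun i => (δ i).inj) (fun i => (δ i).pr) b h

lemma Th_bz (ε : ℤ) (δ : Dat S G) :
    Th S l δ.φ (bz S ε δ) = ε • l (elt S δ.φ δ.f δ.hf) := by
  have h : bz S ε δ = (ε : ℚ) • ⟨δ.f, Submodule.subset_span δ.hf⟩ := rfl
  rw [h, map_smul, Th_idem, rat_smul_int]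

end Theta

end SECMod

open SECMod in
/-- SEC -/
theorem specSEC_of (hArt : SpecARTC.{u}) (hGen : SpecGENC.{u}) : SpecSEC.{u} := by
  intro G _ _ x hx
  obtain ⟨S, hS⟩ : ∃ S : Finset Nat.Primes,
      ∀ p : Nat.Primes, (p : ℕ) ∣ Nat.card G → p ∈ S :=
    ⟨Finset.subtype Nat.Prime (Nat.primeFactors (Nat.card G)), fun p hp =>
      Finset.mem_subtype.2 (Nat.mem_primeFactors.2 ⟨p.2, hp, Nat.card_pos.ne'⟩)⟩
  obtain ⟨m, hm, hmx⟩ := mem_T S hArt hGen hS (Kc.mk (MonoidAlgebra ℤ G) x)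
  obtain ⟨n, δ, ε, ht⟩ := exists_family S _ hmx
  suffices h : IsOfFinAddOrder (m • Kc.mk (MonoidAlgebra ℤ G) x) by
    obtain ⟨k, hk, hk0⟩ := isOfFinAddOrder_iff_nsmul_eq_zero.1 h
    refine isOfFinAddOrder_iff_nsmul_eq_zero.2 ⟨k * m, Nat.mul_pos hk hm, ?_⟩
    rw [mul_smul]
    exact hk0
  by_contra hcon
  obtain ⟨l, hl⟩ := exists_lam (m • Kc.mk (MonoidAlgebra ℤ G) x) hcon
  apply hl
  -- the element of `K_1(∏ ℚ_p[G][t, t⁻¹])`
  let y : K1 (Lau (MonoidAlgebra (Qp S) G)) :=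
    ∑ i, ε i • K1.map (gMap (Qp S) (δ i).φ) (K1.unit (btU (δ i).f (δ i).hf))
  have hy : Kc.mk (MonoidAlgebra ℤ G) (m • x) = Kc.mk (MonoidAlgebra ℤ G) (dB S G y) := by
    rw [map_nsmul, ht, map_sum, map_sum]
    refine Finset.sum_congr rfl fun i _ => ?_
    rw [map_zsmul, map_zsmul, elt, dB_nat]
    rfl
  have htor : IsOfFinAddOrder (Km1.mk (MonoidAlgebra ℤ G) (dB S G y)) := by
    rw [← mk_of_mk _ _ hy, map_nsmul, hx, smul_zero]
    exact isOfFinAddOrder_iff_nsmul_eq_zero.2 ⟨1, one_pos, smul_zero 1⟩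
  have hfin : ∑ i, Th S l (δ i).φ (bz S (ε i) (δ i)) = 0 := by
    refine lin_step S l n δ (fun i => bz S (ε i) (δ i)) ?_
    · intro x₀ hx₀
      obtain ⟨s, hs⟩ := specDL.ex (MonoidAlgebra (Qp S) G) (Qp S) (rk (Qp S) x₀)
        (specRNK.trace (Qp S) G x₀)
      obtain ⟨q, hq⟩ := specDET specTOE specRNK specMIL specPAD S G (dB S G) (dB_spec S G) y
        htor x₀ hx₀ s hs
      refine ⟨q, fun p hp => ?_⟩
      rw [← hq p hp]
      have h1 : s y = ∑ i, ε i • rk (Qp S) x₀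
          (MonoidAlgebra.mapDomainRingHom (Qp S) (δ i).φ (δ i).f) := by
        rw [map_sum]
        refine Finset.sum_congr rfl fun i _ => ?_
        have he' : MonoidAlgebra.mapDomainRingHom (Qp S) (δ i).φ (δ i).f *
            MonoidAlgebra.mapDomainRingHom (Qp S) (δ i).φ (δ i).f =
            MonoidAlgebra.mapDomainRingHom (Qp S) (δ i).φ (δ i).f := by
          rw [← map_mul, (δ i).hf]
        have h2 : K1.map (gMap (Qp S) (δ i).φ) (K1.unit (btU (δ i).f (δ i).hf)) =
            K1.unit (btU (MonoidAlgebra.mapDomainRingHom (Qp S) (δ i).φ (δ i).f) he') :=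
          map_unit_btU (MonoidAlgebra.mapDomainRingHom (Qp S) (δ i).φ) _ _ he'
        rw [map_zsmul, h2, specDL.bt _ _ _ (specRNK.trace (Qp S) G x₀) s hs]
      rw [h1, Finset.sum_apply]
      refine Finset.sum_congr rfl fun i _ => ?_
      rw [bz_val, map_zsmul, map_zsmul]
  rw [ht, map_sum, ← hfin]
  refine Finset.sum_congr rfl fun i _ => ?_
  rw [map_zsmul, Th_bz]

end Pool.Agent.Lib.MPb6f35e.Z0
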