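import Pool.Agent.Lib.MP_b6f35e_al.Z0.Spec

/-!
# Module VAL: the Dennis trace of `f z + (1 - f)` (MP_b6f35e_al, Z0)
-/

set_option autoImplicit false

noncomputable section

namespace Pool.Agent.Lib.MPb6f35e.Z0

open Pool.Agent.Lib.MPb6f35e.WH (K1)
open Pool.Agent.Lib.MPb6f35e.ZK
open Pool.Agent.Lib.MPb6f35e.W2 (IsCoc DK dn mb bil cf ext1)

universe u v w

namespace Val

theorem map_unit {A : Type u} {B : Type v} [Ring A] [Ring B] (f : A →+* B) (a : Aˣ) :
    K1.map f (K1.unit a) = K1.unit (Units.map f.toMonoidHom a) := by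
  rw [K1.unit, K1.map_cls, K1.unit]
  congr 1

section

variable {F : Type u} [CommRing F] {G : Type v} [Group G]

theorem DK_unit {θ : G → G → F} (hθ : IsCoc θ) (a : (MonoidAlgebra F G)ˣ) :
    DK hθ (K1.unit a) = bil (cf θ) ((a⁻¹ : (MonoidAlgebra F G)ˣ) : MonoidAlgebra F G)
      (a : MonoidAlgebra F G) := by
  rw [K1.unit, W2.DK_cls]
  unfold W2.dn W2.mb
  rw [Finset.sum_eq_single 0, Finset.sum_eq_single 0]
  · rfl
  · intro b _ hb
    exact absurd (Subsingleton.elim b 0) hb
  · intro h
    exact absurd (Finset.mem_univ _) h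
  · intro b _ hb
    exact absurd (Subsingleton.elim b 0) hb
  · intro h
    exact absurd (Finset.mem_univ _) h

theorem ext1_eq_sum {C : Type w} [Fintype C] (β : C → F) (a : MonoidAlgebra F C) :
    ext1 β a = ∑ c, a.coeff c * β c := by
  classical
  induction a using MonoidAlgebra.induction_linear with
  | zero => simp
  | add x y hx hy =>
    rw [map_add, hx, hy, ← Finset.sum_add_distrib]
    exact Finset.sum_congr rfl fun c _ => by
      rw [MonoidAlgebra.coeff_add, Finsupp.add_apply, add_mul]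
  | single x r =>
    rw [W2.ext1_single, Finset.sum_eq_single x]
    · rw [MonoidAlgebra.coeff_single, Finsupp.single_eq_same]
    · intro b _ hb
      rw [MonoidAlgebra.coeff_single, Finsupp.single_eq_of_ne hb, zero_mul]
    · intro h
      exact absurd (Finset.mem_univ _) h

theorem bil_idem {θ : G → G → F} (hθ : IsCoc θ) (g : MonoidAlgebra F G) (hg : g * g = g) :
    bil (cf θ) g g = 0 := by
  have := W2.bil_coc hθ g g g
  rw [hg] at this
  exact left_eq_add.1 this

theorem bil_last {θ : G → G → F} {C : Type w} [CommGroup C] (φ : C →* G) (z : G)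
    (a : MonoidAlgebra F C) :
    bil (cf θ) (MonoidAlgebra.mapDomainRingHom F φ a * MonoidAlgebra.single z⁻¹ 1)
      (MonoidAlgebra.single z 1) = ext1 (fun c => θ z (φ c)) a := by
  induction a using MonoidAlgebra.induction_linear with
  | zero => simp
  | add x y hx hy => simp only [map_add, add_mul, AddMonoidHom.add_apply, hx, hy]
  | single x r =>
    rw [MonoidAlgebra.mapDomainRingHom_apply, MonoidAlgebra.mapDomain_single,
      MonoidAlgebra.single_mul_single, W2.bil_single, W2.ext1_single, cf, inv_mul_cancel_right,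
      mul_one, mul_one]

theorem bil_main {θ : G → G → F} (hθ : IsCoc θ) (E y z : MonoidAlgebra F G) (hE : E * E = E)
    (hEy : y * E = E * y) (hEz : z * E = E * z) (hzy : z * y = 1) :
    bil (cf θ) (E * y + (1 - E)) (E * z + (1 - E)) = bil (cf θ) (E * y) z := by
  have hgE : (1 - E) * E = 0 := by rw [sub_mul, one_mul, hE, sub_self]
  have hEg : E * (1 - E) = 0 := by rw [mul_sub, mul_one, hE, sub_self]
  have hgg : (1 - E) * (1 - E) = 1 - E := by rw [mul_sub, hgE, mul_one, sub_zero]
  have t0 : bil (cf θ) (1 - E) (1 - E) = 0 := bil_idem hθ _ hgg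
  have t1 : bil (cf θ) (1 - E) (E * z) = 0 := by
    have h : E * z = E * (E * z) := by rw [← mul_assoc, hE]
    have h2 : E * z * (1 - E) = 0 := by rw [← hEz, mul_assoc, hEg, mul_zero]
    rw [h, W2.bil_coc hθ, hgE, h2, map_zero]
    simp
  have t2 : bil (cf θ) (E * y) (1 - E) = 0 := by
    have h : bil (cf θ) (E * y) (1 - E) = bil (cf θ) (E * y) ((1 - E) * (1 - E)) := by rw [hgg]
    rw [h, W2.bil_coc hθ, ← mul_assoc, hgE, ← hEy, mul_assoc, hEg, mul_zero, zero_mul, map_zero]
    simp
  have t3 : bil (cf θ) (E * y) (E * z) = bil (cf θ) (E * y) z := by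
    have h1 : z * (E * y) = E := by rw [← mul_assoc, hEz, mul_assoc, hzy, mul_one]
    have h2 : E * y * E = E * y := by rw [mul_assoc, hEy, ← mul_assoc, hE]
    rw [W2.bil_coc hθ, h1, h2, bil_idem hθ E hE, zero_add]
  simp only [map_add, AddMonoidHom.add_apply, t0, t1, t2, t3, add_zero]

end

theorem evz_single {k : Type w} [CommRing k] {C : Type v} {G : Type u} [Group C] [Group G]
    (φ : C →* G) (z : G) (hz : ∀ c, z * φ c = φ c * z) (n : ℤ) (a : MonoidAlgebra k C) :
    evz k φ z hz (AddMonoidAlgebra.single n a) =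
      MonoidAlgebra.mapDomainRingHom k φ a * MonoidAlgebra.single (z ^ n) 1 := by
  show AddMonoidAlgebra.liftNC (MonoidAlgebra.mapDomainRingHom k φ :
    MonoidAlgebra k C →+ MonoidAlgebra k G) _ (AddMonoidAlgebra.single n a) = _
  rw [AddMonoidAlgebra.liftNC_single]
  rfl

theorem map_map_dom {k k' : Type*} [CommRing k] [CommRing k'] {C G : Type*} [Group C] [Group G]
    (g : k →+* k') (φ : C →* G) (a : MonoidAlgebra k C) :
    MonoidAlgebra.mapRingHom G g (MonoidAlgebra.mapDomainRingHom k φ a) =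
      MonoidAlgebra.mapDomainRingHom k' φ (MonoidAlgebra.mapRingHom C g a) := by
  induction a using MonoidAlgebra.induction_linear with
  | zero => simp
  | add x y hx hy => simp only [map_add, hx, hy]
  | single x r =>
    simp only [MonoidAlgebra.mapDomainRingHom_apply, MonoidAlgebra.mapDomain_single,
      MonoidAlgebra.mapRingHom_single]

end Val

open Val

/-- VAL: the value of the Dennis trace against `θ` on the class of `f z + (1 - f)`. -/
theorem DK_evz (S : Finset Nat.Primes) (G : Type u) [Group G] (C : Type u) [CommGroup C]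
    [Fintype C] (φ : C →* G) (z : G) (hz : ∀ c, z * φ c = φ c * z) (f : MonoidAlgebra (Qp S) C)
    (hf : f * f = f) (p : S) (θ : G → G → ℚ_[((p : Nat.Primes) : ℕ)]) (hθ : IsCoc θ) :
    DK hθ (K1.map (prp S G p) (K1.map (evz (Qp S) φ z hz) (K1.unit (btU f hf)))) =
      ∑ c, f.coeff c p * θ z (φ c) := by
  set e : MonoidAlgebra ℚ_[((p : Nat.Primes) : ℕ)] C :=
    MonoidAlgebra.mapRingHom C (Pi.evalRingHom _ p) f with he
  have hee : e * e = e := by rw [he, ← map_mul, hf]
  set E : MonoidAlgebra ℚ_[((p : Nat.Primes) : ℕ)] G := MonoidAlgebra.mapDomainRingHom _ φ e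
    with hE
  have hEE : E * E = E := by rw [hE, ← map_mul, hee]
  have hE' : prp S G p (MonoidAlgebra.mapDomainRingHom (Qp S) φ f) = E := map_map_dom _ φ f
  have hcomm : ∀ n : ℤ, (MonoidAlgebra.single (z ^ n) 1 :
      MonoidAlgebra ℚ_[((p : Nat.Primes) : ℕ)] G) * E = E * MonoidAlgebra.single (z ^ n) 1 := by
    intro n
    exact (evz_comm _ φ z hz e (Multiplicative.ofAdd n)).symm.eq
  have hz2 : (MonoidAlgebra.single z 1 : MonoidAlgebra ℚ_[((p : Nat.Primes) : ℕ)] G) *
      MonoidAlgebra.single z⁻¹ 1 = 1 := by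
    rw [MonoidAlgebra.single_mul_single, mul_inv_cancel, mul_one, MonoidAlgebra.one_def]
  have hv : ∀ n : ℤ, prp S G p (evz (Qp S) φ z hz (AddMonoidAlgebra.single n f +
      AddMonoidAlgebra.single 0 (1 - f))) = E * MonoidAlgebra.single (z ^ n) 1 + (1 - E) := by
    intro n
    rw [map_add, evz_single, evz_single, zpow_zero, ← MonoidAlgebra.one_def, mul_one, map_add,
      map_mul, hE', map_sub, map_sub, hE', map_one, map_one]
    congr 2
    show MonoidAlgebra.mapRingHom G _ (MonoidAlgebra.single (z ^ n) 1) = _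
    rw [MonoidAlgebra.mapRingHom_single, map_one]
  rw [map_unit, map_unit, DK_unit]
  have h1 : ((Units.map (prp S G p).toMonoidHom (Units.map (evz (Qp S) φ z hz).toMonoidHom
      (btU f hf)) : (MonoidAlgebra ℚ_[((p : Nat.Primes) : ℕ)] G)ˣ) :
        MonoidAlgebra ℚ_[((p : Nat.Primes) : ℕ)] G) =
      E * MonoidAlgebra.single z 1 + (1 - E) := by
    have := hv 1
    rw [zpow_one] at this
    exact this
  have h2 : (((Units.map (prp S G p).toMonoidHom (Units.map (evz (Qp S) φ z hz).toMonoidHom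
      (btU f hf)))⁻¹ : (MonoidAlgebra ℚ_[((p : Nat.Primes) : ℕ)] G)ˣ) :
        MonoidAlgebra ℚ_[((p : Nat.Primes) : ℕ)] G) =
      E * MonoidAlgebra.single z⁻¹ 1 + (1 - E) := by
    have := hv (-1)
    rw [zpow_neg_one] at this
    exact this
  have hc1 := hcomm 1
  have hc2 := hcomm (-1)
  rw [zpow_one] at hc1
  rw [zpow_neg_one] at hc2
  rw [h1, h2, bil_main hθ E _ _ hEE hc2 hc1 hz2, hE, bil_last, ext1_eq_sum]
  rfl

end Pool.Agent.Lib.MPb6f35e.Z0
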