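import Pool.Agent.Lib.MP_b6f35e_al.Z0.FIN0
import Pool.Agent.Lib.MP_b6f35e_al.Z0.ARTC
import Pool.Agent.Lib.MP_b6f35e_al.Z0.GENC
import Pool.Agent.Lib.MP_b6f35e_al.Z0.SEC
import Pool.Agent.Lib.MP_b6f35e_al.Z0.DET0
import Pool.Agent.Lib.MP_b6f35e_al.Z0.VAL
import Pool.Agent.Lib.MP_b6f35e_al.ZK.Main

/-!
# Z0: the theorem on degree zero, all modules plugged in (MP_b6f35e_al)
-/

set_option autoImplicit false

noncomputable section

namespace Pool.Agent.Lib.MPb6f35e.Z0

open Pool.Agent.Lib.MPb6f35e.ZK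

universe u

theorem specGENC : SpecGENC.{u} :=
  specGENC_of specMIL (ORDMod.specORD_of specDED) specFIN (specK1F WH.specK) LNKMod.specLNK

theorem specSEC : SpecSEC.{u} := specSEC_of specARTC specGENC

theorem specVAL : FIN0.SpecVAL.{u} := fun S G _ C _ _ φ z hz f hf p θ hθ =>
  DK_evz S G C φ z hz f hf p θ hθ

/-- The degree zero part of the assembly map over `ℤ`. -/
theorem specFinal0 : SpecFinal0.{u} :=
  specFinal0_of specSEC (specART specFIN) specGEN specDET0 specVAL

end Pool.Agent.Lib.MPb6f35e.Z0
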