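import Pool.Agent.Lib.MP_b6f35e_al.Z0.Defs

/-!
# Degree zero: the definitions of the hand-in, in short form  (MP_b6f35e_al, Z0)
-/

set_option autoImplicit false

noncomputable section

namespace Pool.Agent.Lib.MPb6f35e.Z0S

open Pool.Agent.Lib.MPb6f35e.WH (conjHom)
open Pool.Agent.Lib.MPb6f35e.ZK
open Pool.Agent.Lib.MPb6f35e.Z0 (evz comm_mul comm_conj PKill Cond)

universe u

/-! ### the rings and the groups -/

/-- `ℤ[G]` -/
def ZG (G : Type u) [Group G] : Type u := MonoidAlgebra ℤ G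

instance instRingZG (G : Type u) [Group G] : Ring (ZG G) := MonoidAlgebra.ring (R := ℤ) (M := G)

/-- `ℤ[C] → ℤ[G]` for `C → G`. -/
def ZG.map {C : Type u} {G : Type u} [Group C] [Group G] (f : C →* G) : ZG C →+* ZG G :=
  MonoidAlgebra.mapDomainRingHom ℤ f

/-- `K_0(ℤ[G])` -/
def KZ (G : Type u) [Group G] : Type u := K0 (ZG G)

instance instKZ (G : Type u) [Group G] : AddCommGroup (KZ G) := instAddCommGroupK0 (ZG G)

/-- The class of `ℤ[G]`. -/
def KZ.one (G : Type u) [Group G] : KZ G :=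
  K0.cls (1 : Matrix (Fin 1) (Fin 1) (ZG G)) (mul_one 1)

/-- `K_0(ℤ[G][t, t⁻¹])` -/
def KL (G : Type u) [Group G] : Type u := K0 (Lau (ZG G))

instance instKL (G : Type u) [Group G] : AddCommGroup (KL G) := instAddCommGroupK0 (Lau (ZG G))

/-- `K_{-1}(ℤ[G])` -/
def KM (G : Type u) [Group G] : Type u := Km1 (ZG G)

instance instKM (G : Type u) [Group G] : AddCommGroup (KM G) := instAddCommGroupKm1 (ZG G)

/-- `K_0(ℤ[G][t, t⁻¹]) → K_{-1}(ℤ[G])` -/
def KM.mk (G : Type u) [Group G] : KL G →+ KM G := Km1.mk (ZG G)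

/-- `K_{-1}(ℤ[C]) → K_{-1}(ℤ[G])` for `C → G`. -/
def KM.map {C : Type u} {G : Type u} [Group C] [Group G] (f : C →* G) : KM C →+ KM G :=
  Km1.map (ZG.map f)

/-- `ℤ[H][t, t⁻¹] → ℤ[G]`, `t ↦ z`, for a subgroup `H` and an element `z` of its centralizer. -/
def zev {G : Type u} [Group G] (H : Subgroup G) (z : G) (hz : ∀ h ∈ H, z * h = h * z) :
    Lau (ZG H) →+* ZG G :=
  evz ℤ H.subtype z fun h => hz h h.2

/-- `K_0(ℤ[H][t, t⁻¹]) → K_0(ℤ[G])`, `t ↦ z`. -/
def KL.ev {G : Type u} [Group G] (H : Subgroup G) (z : G) (hz : ∀ h ∈ H, z * h = h * z) :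
    KL H →+ KZ G :=
  K0.map (zev H z hz)

/-! ### the source -/

/-- Generators: a finite subgroup `H` of `G`, an element `z` of its centralizer, an element of
`K_{-1}(ℤ[H])`. -/
structure Gen (G : Type u) [Group G] : Type u where
  H : Subgroup G
  fin : Finite H
  z : G
  comm : ∀ h ∈ H, z * h = h * z
  k : KM H

/-- Relations: additivity in the element of `K_{-1}(ℤ[H])`, additivity in `z`, and
`(K, z, f_* k) = (H, g⁻¹ z g, k)` for `f : H → K`, `f(h) = g h g⁻¹`. -/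
inductive Rel (G : Type u) [Group G] : FreeAbelianGroup (Gen G) → Prop
  | add (H : Subgroup G) (fin : Finite H) (z : G) (hz : ∀ h ∈ H, z * h = h * z) (k k' : KM H) :
      Rel G (FreeAbelianGroup.of ⟨H, fin, z, hz, k + k'⟩ - FreeAbelianGroup.of ⟨H, fin, z, hz, k⟩
        - FreeAbelianGroup.of ⟨H, fin, z, hz, k'⟩)
  | mul (H : Subgroup G) (fin : Finite H) (z z' : G) (hz : ∀ h ∈ H, z * h = h * z)
      (hz' : ∀ h ∈ H, z' * h = h * z') (k : KM H) :
      Rel G (FreeAbelianGroup.of ⟨H, fin, z * z', comm_mul hz hz', k⟩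
        - FreeAbelianGroup.of ⟨H, fin, z, hz, k⟩ - FreeAbelianGroup.of ⟨H, fin, z', hz', k⟩)
  | conj (H K : Subgroup G) (fin : Finite H) (fin' : Finite K) (g : G)
      (h : ∀ x ∈ H, g * x * g⁻¹ ∈ K) (z : G) (hz : ∀ x ∈ K, z * x = x * z) (k : KM H) :
      Rel G (FreeAbelianGroup.of ⟨K, fin', z, hz, KM.map (conjHom g H K h) k⟩
        - FreeAbelianGroup.of ⟨H, fin, g⁻¹ * z * g, comm_conj h hz, k⟩)

/-- `H_1^G(E_F G; K_{-1}(ℤ[-]))` up to torsion: the sum of the groups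
`Z_G(H)_ab ⊗ K_{-1}(ℤ[H])`, `H` finite, modulo conjugation and inclusions. -/
def S0 (G : Type u) [Group G] : Type u :=
  FreeAbelianGroup (Gen G) ⧸ AddSubgroup.closure {x | Rel G x}

instance instS0 (G : Type u) [Group G] : AddCommGroup (S0 G) :=
  QuotientAddGroup.Quotient.addCommGroup (AddSubgroup.closure {x | Rel G x})

/-- The class of a generator. -/
def S0.cls {G : Type u} [Group G] (x : Gen G) : S0 G :=
  QuotientAddGroup.mk' (AddSubgroup.closure {x | Rel G x}) (FreeAbelianGroup.of x)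

/-! ### the map -/

/-- A finite subgroup `H`, an element `z` of its centralizer and an element `x` of
`K_0(ℤ[H][t, t⁻¹])`. -/
structure Lft (G : Type u) [Group G] : Type u where
  H : Subgroup G
  fin : Finite H
  z : G
  comm : ∀ h ∈ H, z * h = h * z
  x : KL H

lemma one_comm {G : Type u} [Group G] (H : Subgroup G) : ∀ h ∈ H, 1 * h = h * 1 :=
  fun h _ => by rw [one_mul, mul_one]

/-- `x(z) - x(1) ∈ K_0(ℤ[G])`. -/
def Lft.img {G : Type u} [Group G] (a : Lft G) : KZ G :=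
  KL.ev a.H a.z a.comm a.x - KL.ev a.H 1 (one_comm a.H) a.x

/-- The class of `(H, z, [x])`, `[x]` the image of `x` in `K_{-1}(ℤ[H])`. -/
def Lft.src {G : Type u} [Group G] (a : Lft G) : S0 G :=
  S0.cls ⟨a.H, a.fin, a.z, a.comm, KM.mk a.H a.x⟩

/-! ### divisible elements -/

/-- The subgroup of `S0 G` generated by the classes `(H, z, k)` with `H` cyclic, of order not a
prime power, such that for some prime `p` dividing the order of `H` all homomorphisms
`Z_G(H) → ℤ_(p)` are zero on `z`. -/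
def DSub (G : Type u) [Group G] : AddSubgroup (S0 G) :=
  AddSubgroup.closure {s | ∃ (x : Gen G) (p : ℕ), IsCyclic x.H ∧ ¬ IsPrimePow (Nat.card x.H) ∧
    p.Prime ∧ p ∣ Nat.card x.H ∧ PKill x.H p x.z ∧ S0.cls x = s}

/-- The statement. -/
def Final (G : Type u) [Group G] : Prop :=
  ∀ (n : ℕ) (a : Fin n → Lft G) (ε : Fin n → ℤ),
    (IsOfFinAddOrder (∑ i, ε i • (a i).src) → IsOfFinAddOrder (∑ i, ε i • (a i).img)) ∧
    ∀ m : ℤ, IsOfFinAddOrder (m • KZ.one G + ∑ i, ε i • (a i).img) →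
      m = 0 ∧ (∃ k : ℕ, 0 < k ∧ k • ∑ i, ε i • (a i).src ∈ DSub G) ∧
      (Cond G → IsOfFinAddOrder (∑ i, ε i • (a i).src))

end Pool.Agent.Lib.MPb6f35e.Z0S
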