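import Pool.Agent.Lib.MP_b6f35e_al.Z0.SDefs
import Pool.Agent.Lib.MP_b6f35e_al.Z0.Main

/-!
# Degree zero: the theorem in short form  (MP_b6f35e_al, Z0)
-/

set_option autoImplicit false

noncomputable section

namespace Pool.Agent.Lib.MPb6f35e.Z0S

open Pool.Agent.Lib.MPb6f35e.WH (conjHom)
open Pool.Agent.Lib.MPb6f35e.ZK

universe u

variable {G : Type u} [Group G]

/-- generators -/
def cG (x : Gen G) : Z0.Gen G := ⟨⟨x.H, x.fin⟩, x.z, x.comm, x.k⟩

/-- generators, back -/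
def dG (x : Z0.Gen G) : Gen G := ⟨x.H.1, x.H.2, x.z, x.comm, x.k⟩

/-- The homomorphism to the long form. -/
def toL : S0 G →+ Z0.S0 G :=
  QuotientAddGroup.lift _ (FreeAbelianGroup.lift fun x => Z0.S0.cls (cG x)) (by
    rw [AddSubgroup.closure_le]
    rintro x (⟨H, fin, z, hz, k, k'⟩ | ⟨H, fin, z, z', hz, hz', k⟩ |
      ⟨H, K, fin, fin', g, h, z, hz, k⟩)
    · show FreeAbelianGroup.lift _ _ = 0
      rw [map_sub, map_sub, FreeAbelianGroup.lift_apply_of, FreeAbelianGroup.lift_apply_of,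
        FreeAbelianGroup.lift_apply_of, sub_sub, sub_eq_zero]
      exact Z0.FIN0.cls_add ⟨H, fin⟩ z hz k k'
    · show FreeAbelianGroup.lift _ _ = 0
      rw [map_sub, map_sub, FreeAbelianGroup.lift_apply_of, FreeAbelianGroup.lift_apply_of,
        FreeAbelianGroup.lift_apply_of, sub_sub, sub_eq_zero]
      exact Z0.FIN0.cls_mul ⟨H, fin⟩ z z' hz hz' k
    · show FreeAbelianGroup.lift _ _ = 0
      rw [map_sub, FreeAbelianGroup.lift_apply_of, FreeAbelianGroup.lift_apply_of, sub_eq_zero]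
      exact Z0.FIN0.cls_conj ⟨H, fin⟩ ⟨K, fin'⟩ g h z hz k)

lemma toL_cls (x : Gen G) : toL (S0.cls x) = Z0.S0.cls (cG x) := by
  show FreeAbelianGroup.lift (fun x => Z0.S0.cls (cG x)) (FreeAbelianGroup.of x) = _
  rw [FreeAbelianGroup.lift_apply_of]

/-- The homomorphism from the long form. -/
def ofL : Z0.S0 G →+ S0 G :=
  QuotientAddGroup.lift _ (FreeAbelianGroup.lift fun x => S0.cls (dG x)) (by
    rw [AddSubgroup.closure_le]
    rintro x (⟨H, z, hz, k, k'⟩ | ⟨H, z, z', hz, hz', k⟩ | ⟨H, K, g, h, z, hz, k⟩)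
    · show FreeAbelianGroup.lift _ _ = 0
      rw [map_sub, map_sub, FreeAbelianGroup.lift_apply_of, FreeAbelianGroup.lift_apply_of,
        FreeAbelianGroup.lift_apply_of]
      exact (QuotientAddGroup.eq_zero_iff _).2 (AddSubgroup.subset_closure
        (Rel.add H.1 H.2 z hz k k'))
    · show FreeAbelianGroup.lift _ _ = 0
      rw [map_sub, map_sub, FreeAbelianGroup.lift_apply_of, FreeAbelianGroup.lift_apply_of,
        FreeAbelianGroup.lift_apply_of]
      exact (QuotientAddGroup.eq_zero_iff _).2 (AddSubgroup.subset_closure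
        (Rel.mul H.1 H.2 z z' hz hz' k))
    · show FreeAbelianGroup.lift _ _ = 0
      rw [map_sub, FreeAbelianGroup.lift_apply_of, FreeAbelianGroup.lift_apply_of]
      exact (QuotientAddGroup.eq_zero_iff _).2 (AddSubgroup.subset_closure
        (Rel.conj H.1 K.1 H.2 K.2 g h z hz k)))

lemma ofL_cls (x : Z0.Gen G) : ofL (Z0.S0.cls x) = S0.cls (dG x) := by
  show FreeAbelianGroup.lift (fun x => S0.cls (dG x)) (FreeAbelianGroup.of x) = _
  rw [FreeAbelianGroup.lift_apply_of]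

/-- lifts -/
def cL (x : Lft G) : Z0.Lft G := ⟨⟨x.H, x.fin⟩, x.z, x.comm, x.x⟩

lemma img_cL (a : Lft G) : (cL a).img = a.img := rfl

lemma toL_src (a : Lft G) : toL a.src = (cL a).src := toL_cls _

lemma ofL_src (a : Lft G) : ofL (cL a).src = a.src := ofL_cls _

lemma ofL_DSub {d : Z0.S0 G} (hd : d ∈ Z0.DSub G) : ofL d ∈ DSub G := by
  suffices h : Z0.DSub G ≤ (DSub G).comap ofL from h hd
  refine (AddSubgroup.closure_le _).2 ?_
  rintro s ⟨x, p, h1, h2, h3, h4, h5, rfl⟩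
  show ofL (Z0.S0.cls x) ∈ DSub G
  rw [ofL_cls]
  exact AddSubgroup.subset_closure ⟨dG x, p, h1, h2, h3, h4, h5, rfl⟩

/-- The theorem. -/
theorem final (G : Type u) [Group G] : Final G := by
  intro n a ε
  let A : FreeAbelianGroup (Z0.Lft G) := ∑ i, ε i • FreeAbelianGroup.of (cL (a i))
  have h1 : FreeAbelianGroup.lift Z0.Lft.src A = ∑ i, ε i • (cL (a i)).src := by
    rw [map_sum]
    refine Finset.sum_congr rfl fun i _ => ?_
    rw [map_zsmul, FreeAbelianGroup.lift_apply_of]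
  have h2 : FreeAbelianGroup.lift Z0.Lft.img A = ∑ i, ε i • (cL (a i)).img := by
    rw [map_sum]
    refine Finset.sum_congr rfl fun i _ => ?_
    rw [map_zsmul, FreeAbelianGroup.lift_apply_of]
  have h3 : toL (∑ i, ε i • (a i).src) = FreeAbelianGroup.lift Z0.Lft.src A := by
    rw [h1, map_sum]
    refine Finset.sum_congr rfl fun i _ => ?_
    rw [map_zsmul, toL_src]
  have h4 : ofL (FreeAbelianGroup.lift Z0.Lft.src A) = ∑ i, ε i • (a i).src := by
    rw [h1, map_sum]
    refine Finset.sum_congr rfl fun i _ => ?_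
    rw [map_zsmul, ofL_src]
  refine ⟨fun h => ?_, fun m h => ?_⟩
  · have h5 := toL.isOfFinAddOrder h
    rw [h3] at h5
    have h6 := Z0.specFinal0.wd G A h5
    rw [h2] at h6
    exact h6
  · have h5 : IsOfFinAddOrder (m • K0.one (MonoidAlgebra ℤ G) +
        FreeAbelianGroup.lift Z0.Lft.img A) := by
      rw [h2]
      exact h
    obtain ⟨h6, k, hk, h7⟩ := Z0.specFinal0.inj G m A h5
    refine ⟨h6, ⟨k, hk, ?_⟩, fun hc => ?_⟩
    · rw [← h4, ← map_nsmul]
      exact ofL_DSub h7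
    · have h8 := Z0.specFinal0.tor G hc _ h7
      rw [← h4]
      refine ofL.isOfFinAddOrder ?_
      obtain ⟨j, hj, hj0⟩ := isOfFinAddOrder_iff_nsmul_eq_zero.1 h8
      refine isOfFinAddOrder_iff_nsmul_eq_zero.2 ⟨j * k, Nat.mul_pos hj hk, ?_⟩
      rw [mul_smul]
      exact hj0

end Pool.Agent.Lib.MPb6f35e.Z0S
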